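import Pool.Agent.Helper1.RK.StB

set_option autoImplicit false

namespace Pool.Agent.Helper1.RK

theorem pFNI (h1 : StREG) (h2 : StDER) (_h3 : StIOT) (h4 : StTRN) (h5 : StTRF) (h6 : StFIB) :
    StFNI := by
  intro L _ _ _ ι hι r dl lam u D hr hc hn k φ U h τ hmem hU hh hbad hcon
  obtain ⟨hreg, hev⟩ := hcon
  obtain ⟨Dt, hDt⟩ := (h2 L).1 0 1
  obtain ⟨D', hD', hc'⟩ := h5 L ι r dl lam u D hc
  have hmem' : ((ι : RatFunc L →ₐ[L] RatFunc L).comp φ) RatFunc.X ∈ KK D' k := by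
    intro l hl
    change D' l (ι (φ RatFunc.X)) = 0
    rw [hD', hmem l hl, map_zero]
  have hU' : ((ι : RatFunc L →ₐ[L] RatFunc L).comp φ) U = (fun i => ι (u i)) k := by
    change ι (φ U) = ι (u k)
    rw [hU]
  have hh' : ((ι : RatFunc L →ₐ[L] RatFunc L).comp φ) h
      = D' k (((ι : RatFunc L →ₐ[L] RatFunc L).comp φ) RatFunc.X) := by
    change ι (φ h) = D' k (ι (φ RatFunc.X))
    rw [hD', hh]
  have key := (h6 L Dt hDt r dl lam (fun i => ι (u i)) D' hr hc' k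
    ((ι : RatFunc L →ₐ[L] RatFunc L).comp φ) U h τ 0 hmem' hU' hh' hbad hreg hev).1
  apply key
  have hO : Over (dl k) (D k RatFunc.X) (D k) := ⟨hc.lift k, rfl⟩
  have h7 := ((h4 L (dl k)).2.2 ι hι (D k RatFunc.X) (D k) (D' k) hO (hD' k)).2
  rw [h7, neg_mul]
  exact ((h1 L 0).2.2.2.2.2.2.2.1 _ (hn k)).1

end Pool.Agent.Helper1.RK
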