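import Pool.Agent.Helper1.RK.StA

set_option autoImplicit false

namespace Pool.Agent.Helper1.RK

open Polynomial

section

variable {L : Type} [Field L]

lemma reg_of_div (p : L) (a b : L[X]) (hb : b.eval p ≠ 0) :
    Reg p (algebraMap L[X] (RatFunc L) a / algebraMap L[X] (RatFunc L) b) ∧
    ev p (algebraMap L[X] (RatFunc L) a / algebraMap L[X] (RatFunc L) b) = a.eval p / b.eval p := by
  have hb0 : b ≠ 0 := by rintro rfl; simp at hb
  set g := algebraMap L[X] (RatFunc L) a / algebraMap L[X] (RatFunc L) b with hg
  have h1 : g.denom ∣ b := RatFunc.denom_div_dvd a b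
  have h2 : g.denom.eval p ≠ 0 := by
    intro h0
    obtain ⟨c, hc⟩ := h1
    apply hb
    rw [hc, eval_mul, h0, zero_mul]
  refine ⟨h2, ?_⟩
  have h3 : g.num * b = a * g.denom := by
    have hbm : algebraMap L[X] (RatFunc L) b ≠ 0 := by
      simpa using (map_ne_zero_iff _ (RatFunc.algebraMap_injective L)).2 hb0
    have hdm : algebraMap L[X] (RatFunc L) g.denom ≠ 0 :=
      (map_ne_zero_iff _ (RatFunc.algebraMap_injective L)).2 g.denom_ne_zero
    have h4 : algebraMap L[X] (RatFunc L) g.num / algebraMap L[X] (RatFunc L) g.denom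
        = algebraMap L[X] (RatFunc L) a / algebraMap L[X] (RatFunc L) b := by
      rw [RatFunc.num_div_denom]
    rw [div_eq_div_iff hdm hbm, ← map_mul, ← map_mul] at h4
    exact RatFunc.algebraMap_injective L h4
  unfold ev
  rw [div_eq_div_iff h2 hb, ← eval_mul, h3, eval_mul]

lemma reg_rep (p : L) (g : RatFunc L) (hg : Reg p g) : ∃ a b : L[X], b.eval p ≠ 0 ∧
    g = algebraMap L[X] (RatFunc L) a / algebraMap L[X] (RatFunc L) b ∧ ev p g = a.eval p / b.eval p :=
  ⟨g.num, g.denom, hg, (RatFunc.num_div_denom g).symm, rfl⟩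

lemma rm_denom (p : L) (g : RatFunc L) (hg : Reg p g) : g.denom.rootMultiplicity p = 0 :=
  rootMultiplicity_eq_zero hg

lemma rm_num (p : L) (g : RatFunc L) (hg : ¬ Reg p g) : g.num.rootMultiplicity p = 0 ∧
    1 ≤ g.denom.rootMultiplicity p := by
  have h0 : g.denom.eval p = 0 := by
    by_contra h
    exact hg h
  constructor
  · apply rootMultiplicity_eq_zero
    intro h1
    obtain ⟨x, y, hxy⟩ := g.isCoprime_num_denom
    have h2 := congrArg (eval p) hxy
    rw [eval_add, eval_mul, eval_mul, h0, show eval p g.num = 0 from h1] at h2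
    simp at h2
  · exact (rootMultiplicity_pos g.denom_ne_zero).2 h0

theorem pREG (_h1 : StORD) : StREG := by
  intro L _ p
  have hdiv := reg_of_div (L := L) p
  have hreg : ∀ g : RatFunc L, Reg p g ↔ (g = 0 ∨ 0 ≤ ord p g) := by
    intro g
    constructor
    · intro h
      right
      unfold ord
      rw [rm_denom p g h]
      simp
    · rintro (h | h)
      · subst h
        unfold Reg
        simp
      · by_contra hn
        obtain ⟨h3, h4⟩ := rm_num p g hn
        unfold ord at h
        rw [h3] at h
        omega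
  have hnum : ∀ g : RatFunc L, Reg p g → (ev p g = 0 ↔ g.num.eval p = 0) := by
    intro g hg
    unfold ev
    rw [div_eq_zero_iff]
    constructor
    · rintro (h | h)
      · exact h
      · exact absurd h hg
    · exact fun h => Or.inl h
  refine ⟨hdiv, hreg, ?_, ?_, ?_, ?_, ?_, ?_, ?_⟩
  · intro g
    rw [hreg]
    push_neg
    rfl
  · intro g hg
    rw [hnum g hg]
    constructor
    · intro h
      by_cases h0 : g = 0
      · exact Or.inl h0
      · right
        have h1 : g.num ≠ 0 := RatFunc.num_ne_zero h0
        have h2 := (rootMultiplicity_pos h1).2 h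
        unfold ord
        rw [rm_denom p g hg]
        omega
    · rintro (h | h)
      · subst h
        simp
      · unfold ord at h
        rw [rm_denom p g hg] at h
        have h1 : 0 < g.num.rootMultiplicity p := by omega
        by_cases h0 : g.num = 0
        · rw [h0]; simp
        · exact (rootMultiplicity_pos h0).1 h1
  · intro a
    have h := hdiv (C a) 1 (by simp)
    simp only [map_one, div_one, eval_C, eval_one] at h
    exact h
  · have h := hdiv X 1 (by simp)
    simp only [map_one, div_one, eval_X, eval_one] at h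
    exact h
  · intro g h hg hh
    obtain ⟨a, b, hb, hga, hea⟩ := reg_rep p g hg
    obtain ⟨c, e, he, hhc, hec⟩ := reg_rep p h hh
    have hb0 : algebraMap L[X] (RatFunc L) b ≠ 0 :=
      (map_ne_zero_iff _ (RatFunc.algebraMap_injective L)).2 (by rintro rfl; simp at hb)
    have he0 : algebraMap L[X] (RatFunc L) e ≠ 0 :=
      (map_ne_zero_iff _ (RatFunc.algebraMap_injective L)).2 (by rintro rfl; simp at he)
    have hbe : (b * e).eval p ≠ 0 := by
      rw [eval_mul]
      exact mul_ne_zero hb he
    have e1 : g + h = algebraMap L[X] (RatFunc L) (a * e + c * b) / algebraMap L[X] (RatFunc L) (b * e) := by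
      rw [hga, hhc]
      simp only [map_add, map_mul]
      field_simp
    have e2 : g * h = algebraMap L[X] (RatFunc L) (a * c) / algebraMap L[X] (RatFunc L) (b * e) := by
      rw [hga, hhc]
      simp only [map_mul]
      field_simp
    have e3 : g - h = algebraMap L[X] (RatFunc L) (a * e - c * b) / algebraMap L[X] (RatFunc L) (b * e) := by
      rw [hga, hhc]
      simp only [map_sub, map_mul]
      field_simp
    obtain ⟨r1, v1⟩ := hdiv (a * e + c * b) (b * e) hbe
    obtain ⟨r2, v2⟩ := hdiv (a * c) (b * e) hbe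
    obtain ⟨r3, v3⟩ := hdiv (a * e - c * b) (b * e) hbe
    rw [← e1] at r1 v1
    rw [← e2] at r2 v2
    rw [← e3] at r3 v3
    refine ⟨r1, ?_, r2, ?_, r3, ?_⟩
    · rw [v1, hea, hec]
      simp only [eval_add, eval_mul]
      field_simp
    · rw [v2, hea, hec]
      simp only [eval_mul]
      field_simp
    · rw [v3, hea, hec]
      simp only [eval_sub, eval_mul]
      field_simp
  · intro g hg
    obtain ⟨a, b, hb, hga, hea⟩ := reg_rep p g hg
    obtain ⟨r1, v1⟩ := hdiv (-a) b hb
    have e1 : -g = algebraMap L[X] (RatFunc L) (-a) / algebraMap L[X] (RatFunc L) b := by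
      rw [hga]
      simp only [map_neg]
      ring
    rw [← e1] at r1 v1
    refine ⟨r1, ?_⟩
    rw [v1, hea, eval_neg]
    ring
  · intro g hg hne
    obtain ⟨a, b, hb, hga, hea⟩ := reg_rep p g hg
    have ha : a.eval p ≠ 0 := by
      intro h0
      apply hne
      rw [hea, h0, zero_div]
    obtain ⟨r1, v1⟩ := hdiv b a ha
    have e1 : g⁻¹ = algebraMap L[X] (RatFunc L) b / algebraMap L[X] (RatFunc L) a := by
      rw [hga, inv_div]
    rw [← e1] at r1 v1
    refine ⟨r1, ?_⟩
    rw [v1, hea, inv_div]

end

end Pool.Agent.Helper1.RK
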