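import Pool.Agent.Helper1.RK.StD
import Pool.Agent.Helper52.RK.M_ORD
import Pool.Agent.Helper1.RK.M_REG
import Pool.Agent.Helper40.RK.M_FIN
import Pool.Agent.Helper83.RK.M_DER
import Pool.Agent.Helper64.RK.M_LCD
import Pool.Agent.Helper80.RK.M_LD
import Pool.Agent.Helper7.RK.M_IOT
import Pool.Agent.Helper83.RK.M_TRN
import Pool.Agent.Helper99.RK.M_CMP
import Pool.Agent.Helper30.RK.M_DGF
import Pool.Agent.Helper16.RK.M_DGR
import Pool.Agent.Helper63.RK.M_DGM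
import Pool.Agent.Helper9.RK.M_SQR
import Pool.Agent.Helper89.RK.M_CON
import Pool.Agent.Helper8.RK.M_CL1
import Pool.Agent.Helper94.RK.M_PL
import Pool.Agent.Helper37.RK.M_ODD
import Pool.Agent.Helper52.RK.M_MB3
import Pool.Agent.Helper47.RK.M_BAD
import Pool.Agent.Helper97.RK.M_LU2
import Pool.Agent.Helper39.RK.M_VK
import Pool.Agent.Helper39.RK.M_TRF
import Pool.Agent.Helper39.RK.M_NI
import Pool.Agent.Helper63.RK.M_LUR
import Pool.Agent.Helper28.RK.M_GDC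
import Pool.Agent.Helper63.RK.M_FIB
import Pool.Agent.Helper1.RK.M_FNI
import Pool.Agent.Helper34.RK.M_INQ
import Pool.Agent.Helper39.RK.M_CN4
import Pool.Agent.Helper39.RK.M_G4
import Pool.Agent.Helper7.RK.M_SIG
import Pool.Agent.Helper24.RK.M_NRM
import Pool.Agent.Helper16.RK.M_DIV
import Pool.Agent.Helper98.RK.M_ARI
import Pool.Agent.Helper47.RK.M_TY3
import Pool.Agent.Helper18.RK.M_CC1
import Pool.Agent.Helper38.RK.M_CCC
import Pool.Agent.Helper7.RK.M_GA1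
import Pool.Agent.Helper47.RK.M_GA2
import Pool.Agent.Helper58.RK.M_LEG
import Pool.Agent.Helper58.RK.M_HLF
import Pool.Agent.Helper58.RK.M_DSC
import Pool.Agent.Helper47.RK.M_G3
import Pool.Agent.Helper2.RK.M_DXT
import Pool.Agent.Helper80.RK.M_PDR
import Pool.Agent.Helper15.RK.M_DEX
import Pool.Agent.Helper6.RK.M_T4
import Pool.Agent.Helper99.RK.M_CNW
import Pool.Agent.Helper44.RK.M_LAM
import Pool.Agent.Helper93.RK.M_IRR
import Pool.Agent.Helper15.RK.M_MOV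
import Pool.Agent.Helper47.RK.M_T3
import Pool.Agent.Helper47.RK.M_TWO
import Pool.Agent.Helper36.RK.M_STA
import Pool.Agent.Helper58.RK.M_ULA
import Pool.Agent.Helper82.RK.M_ULT
import Pool.Agent.Helper15.RK.M_ADM
import Pool.Agent.Helper81.RK.M_BDQ

/-!
# Project RK (MP_de00bc_nt): all statements hold
-/

set_option autoImplicit false

namespace Pool.Agent.Helper1.RK

theorem hORD : StORD := Pool.Agent.Helper52.RK.pORD

theorem hREG : StREG := Pool.Agent.Helper1.RK.pREG hORD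

theorem hFIN : StFIN := Pool.Agent.Helper40.RK.pFIN hORD hREG

theorem hDER : StDER := Pool.Agent.Helper83.RK.pDER

theorem hLCD : StLCD := Pool.Agent.Helper64.RK.pLCD hORD hREG hDER

theorem hLD : StLD := Pool.Agent.Helper80.RK.pLD hORD hREG hLCD

theorem hIOT : StIOT := Pool.Agent.Helper7.RK.pIOT hORD hREG

theorem hTRN : StTRN := Pool.Agent.Helper83.RK.pTRN hDER hIOT

theorem hCMP : StCMP := Pool.Agent.Helper99.RK.pCMP hORD hREG

theorem hDGF : StDGF := Pool.Agent.Helper30.RK.pDGF hORD hREG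

theorem hDGR : StDGR := Pool.Agent.Helper16.RK.pDGR hORD hREG hDER

theorem hDGM : StDGM := Pool.Agent.Helper63.RK.pDGM hIOT

theorem hSQR : StSQR := Pool.Agent.Helper9.RK.pSQR hORD hREG

theorem hCON : StCON := Pool.Agent.Helper89.RK.pCON hORD hREG hFIN hDER hLD hIOT hTRN

theorem hCL1 : StCL1 := Pool.Agent.Helper8.RK.pCL1 hORD hREG hFIN hDER hLD hIOT hTRN

theorem hPL : StPL := Pool.Agent.Helper94.RK.pPL hORD hREG hDER hLCD

theorem hODD : StODD := Pool.Agent.Helper37.RK.pODD hORD hREG hFIN hIOT hSQR hCON hCMP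

theorem hMB3 : StMB3 := Pool.Agent.Helper52.RK.pMB3 hDER

theorem hBAD : StBAD := Pool.Agent.Helper47.RK.pBAD hORD hREG hFIN hDER hLCD hLD hIOT hTRN

theorem hLU2 : StLU2 := Pool.Agent.Helper97.RK.pLU2 hORD hREG hDER hLCD hPL

theorem hVK : StVK := Pool.Agent.Helper39.RK.pVK hDER hCL1

theorem hTRF : StTRF := Pool.Agent.Helper39.RK.pTRF hTRN hIOT

theorem hNI : StNI := Pool.Agent.Helper39.RK.pNI hREG hFIN hIOT hTRN hCMP hTRF

theorem hLUR : StLUR := Pool.Agent.Helper63.RK.pLUR hORD hREG hFIN hDER hPL hIOT hTRN hCMP hMB3 hLU2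

theorem hGDC : StGDC := Pool.Agent.Helper28.RK.pGDC hORD hREG hFIN hDER hIOT hTRN hCMP hLUR

theorem hFIB : StFIB := Pool.Agent.Helper63.RK.pFIB hORD hREG hDER hLCD hLD hTRN hCMP hPL

theorem hFNI : StFNI := Pool.Agent.Helper1.RK.pFNI hREG hDER hIOT hTRN hTRF hFIB

theorem hINQ : StINQ := Pool.Agent.Helper34.RK.pINQ hORD hREG hDER hLCD hPL hIOT hDGF hDGR hFIB hFNI

theorem hCN4 : StCN4 := Pool.Agent.Helper39.RK.pCN4 hNI hGDC hBAD hINQ hIOT hDGM

theorem hG4 : StG4 := Pool.Agent.Helper39.RK.pG4 hCON hVK hCN4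

theorem hSIG : StSIG := Pool.Agent.Helper7.RK.pSIG hORD hREG hDER hIOT

theorem hNRM : StNRM := Pool.Agent.Helper24.RK.pNRM hREG hFIN hDER hIOT hTRN hPL hLD hODD hMB3

theorem hDIV : StDIV := Pool.Agent.Helper16.RK.pDIV hREG hDER hIOT hTRN hDGM

theorem hARI : StARI := Pool.Agent.Helper98.RK.pARI

theorem hTY3 : StTY3 := Pool.Agent.Helper47.RK.pTY3 hIOT hDGM hBAD hINQ hNRM hDIV hARI

theorem hCC1 : StCC1 := Pool.Agent.Helper18.RK.pCC1 hORD hREG hDER hLCD hPL hIOT hTRN hCMP hGDC hTY3 hNRM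

theorem hCCC : StCCC := Pool.Agent.Helper38.RK.pCCC hIOT hNI hCC1

theorem hGA1 : StGA1 := Pool.Agent.Helper7.RK.pGA1 hORD hREG hDER hPL hIOT hTRN hCMP hSIG

theorem hGA2 : StGA2 := Pool.Agent.Helper47.RK.pGA2 hORD hREG hDER hPL hSIG

theorem hLEG : StLEG := Pool.Agent.Helper58.RK.pLEG

theorem hHLF : StHLF := Pool.Agent.Helper58.RK.pHLF hORD hREG hIOT hSQR hLEG

theorem hDSC : StDSC := Pool.Agent.Helper58.RK.pDSC hIOT hDGM

theorem hG3 : StG3 := Pool.Agent.Helper47.RK.pG3 hORD hREG hDER hIOT hTRN hDGM hVK hCCC hSIG hGA1 hGA2 hLEG hHLF hDSC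

theorem hDXT : StDXT := Pool.Agent.Helper2.RK.pDXT

theorem hPDR : StPDR := Pool.Agent.Helper80.RK.pPDR

theorem hDEX : StDEX := Pool.Agent.Helper15.RK.pDEX hDXT hPDR

theorem hT4 : StT4 := Pool.Agent.Helper6.RK.pT4 hG4 hDEX

theorem hCNW : StCNW := Pool.Agent.Helper99.RK.pCNW hCON hLEG

theorem hLAM : StLAM := Pool.Agent.Helper44.RK.pLAM

theorem hIRR : StIRR := Pool.Agent.Helper93.RK.pIRR

theorem hMOV : StMOV := Pool.Agent.Helper15.RK.pMOV hIRR

theorem hT3 : StT3 := Pool.Agent.Helper47.RK.pT3 hDER hDXT hPDR hCNW hLAM hMOV hG3 hSIG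

theorem hTWO : StTWO := Pool.Agent.Helper47.RK.pTWO hCNW hLAM

theorem hSTA : StSTA := Pool.Agent.Helper36.RK.pSTA hCON hLAM

theorem hULA : StULA := Pool.Agent.Helper58.RK.pULA

theorem hULT : StULT := Pool.Agent.Helper82.RK.pULT hULA hT4

theorem hADM : StADM := Pool.Agent.Helper15.RK.pADM

theorem hBDQ : StBDQ := Pool.Agent.Helper81.RK.pBDQ hULT hADM

end Pool.Agent.Helper1.RK
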