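import Pool.Agent.Helper1.RK.StD

/-!
# Project RK (MP_de00bc_nt): part E, no universal formula for `r ≥ 3` (with complete proofs)

The setting is a field `K` of rational functions over `F` in the variables `X i` (`i : I`), described
by the structure `VF`: partial derivatives `pd i`, the degree `deg i g` (degree of the numerator minus
degree of the denominator) and the leading coefficient `lc i g` of `g` as a rational function of the
variable `X i`.
-/

set_option autoImplicit false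

namespace Pool.Agent.Helper1.RK

open Polynomial

/-- `K` is the field of rational functions over `F` in the variables `X i` -/
structure VF (F K : Type) [Field F] [Field K] [Algebra F K] (I : Type) (X : I → K)
    (pd : I → Derivation ℤ K K) (deg : I → K → ℤ) (lc : I → K → K) : Prop where
  pd_self : ∀ i, pd i (X i) = 1
  pd_ne : ∀ i j, i ≠ j → pd i (X j) = 0
  pd_const : ∀ i c, pd i (algebraMap F K c) = 0
  const : ∀ g, (∀ i, pd i g = 0) → ∃ c, g = algebraMap F K c
  deg_mul : ∀ i g h, g ≠ 0 → h ≠ 0 → deg i (g * h) = deg i g + deg i h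
  lc_mul : ∀ i g h, g ≠ 0 → h ≠ 0 → lc i (g * h) = lc i g * lc i h
  lc_ne : ∀ i g, g ≠ 0 → lc i g ≠ 0
  deg_pd : ∀ i g, g ≠ 0 → pd i g = 0 → deg i g = 0 ∧ lc i g = g
  lc_pd : ∀ i g, pd i (lc i g) = 0
  lc_pd' : ∀ i j g, pd j g = 0 → pd j (lc i g) = 0
  cub : ∀ i a b, pd i a = 0 → pd i b = 0 → X i ^ 3 + a * X i + b ≠ 0 ∧
    deg i (X i ^ 3 + a * X i + b) = 3 ∧ lc i (X i ^ 3 + a * X i + b) = 1
  jac : ∀ i j m A, m ≠ 0 → A ≠ 0 → deg i m = 0 → deg i A ≠ 0 →
    pd j m * pd i A = pd i m * pd j A → pd j (lc i m) = 0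
  two : ∀ i j a b a' b' e w w', pd i a = 0 → pd i b = 0 → pd i a' = 0 → pd i b' = 0 →
    pd j a = 0 → pd j b = 0 → pd j a' = 0 → pd j b' = 0 → 4 * a ^ 3 + 27 * b ^ 2 ≠ 0 →
    4 * a' ^ 3 + 27 * b' ^ 2 ≠ 0 → pd i e = 0 → e ≠ 0 → w ^ 3 + a * w + b ≠ 0 →
    w' ^ 3 + a' * w' + b' ≠ 0 → IsSquare (e * ((w ^ 3 + a * w + b) * (w' ^ 3 + a' * w' + b'))) →
    pd j w * pd i w' = pd j w' * pd i w

/-- The data of the problem: three curves `y ^ 2 = x ^ 3 + a i x + b i` whose coefficients involve only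
the variables in `J i`, points with abscissa `X (rho i)` on their twists by `x ^ 3 + a i x + b i` at
this abscissa, and `w i` such that the products for `w i` are squares. -/
structure Setup (F K : Type) [Field F] [Field K] [Algebra F K] (I : Type) (X : I → K)
    (pd : I → Derivation ℤ K K) (J : Fin 3 → Finset I) (rho : Fin 3 → I) (a b w : Fin 3 → K) :
    Prop where
  disj : ∀ i j, i ≠ j → ∀ z ∈ J i, z ∉ J j
  rhoJ : ∀ i j, rho i ∉ J j
  rho_inj : ∀ i j, i ≠ j → rho i ≠ rho j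
  pda : ∀ i z, z ∉ J i → pd z (a i) = 0
  pdb : ∀ i z, z ∉ J i → pd z (b i) = 0
  disc : ∀ i, 4 * a i ^ 3 + 27 * b i ^ 2 ≠ 0
  ne : ∀ i, w i ^ 3 + a i * w i + b i ≠ 0
  sq : ∀ i j, i ≠ j → IsSquare ((X (rho i) ^ 3 + a i * X (rho i) + b i) * (w i ^ 3 + a i * w i + b i) *
    ((X (rho j) ^ 3 + a j * X (rho j) + b j) * (w j ^ 3 + a j * w j + b j)))

/-- **TOP** (degree and leading coefficient of rational functions in one variable; hypotheses ORD, REG,
DER not needed).  `Over d 0 Dc` is the coefficient derivation, `Over 0 1 Dt` the derivative.  Proof.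
(1) `num (g h) * (denom g * denom h) = num g * num h * denom (g h)`, denominators are monic.
(2) `num`, `denom` of `C a` are `C a`, `1`.  (3) Let `g = P / Q` in lowest terms, `Q` monic; `Dc g = 0`
gives `P^d Q = P Q^d` (`P^d`: apply `d` to the coefficients, `Dc P = P^d`), `Q ∣ Q^d` (coprime) and
`deg Q^d < deg Q` or `Q^d = 0`, so `Q^d = 0` and `P^d = 0`: `d` kills the leading coefficient.
(4) The numerator is the polynomial itself, monic of degree `3`.  (5) Put `m = P / Q`, `A = R / S` with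
`Q`, `S` monic, `deg P = deg Q`, `deg R - deg S = n ≠ 0`, `α = lead R`, `μ = lead P`.  Multiply the
relation by `Q ^ 2 S ^ 2`: `(P^d Q - P Q^d) (R' S - R S') = (P' Q - P Q') (R^d S - R S^d)`, an identity
of polynomials.  Let `q = deg Q`, `s = deg S`, `r = deg R`.  The coefficient of `X ^ (2 q)` in
`P^d Q - P Q^d` is `d μ` (`deg Q^d < q`); the coefficient of `X ^ (r + s - 1)` in `R' S - R S'` is
`(r - s) α ≠ 0` (`r + s ≥ 1` as `r ≠ s`) and its degree is `≤ r + s - 1`.  The degree of `P' Q - P Q'`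
is `≤ 2 q - 2` or it is `0` (the coefficient of `X ^ (2 q - 1)` is `(q - q) μ = 0`), the degree of
`R^d S - R S^d` is `≤ r + s`.  Compare the coefficients of `X ^ (2 q + r + s - 1)`: `d μ (r - s) α = 0`.
Hence `d μ = 0`. -/
def StTOP : Prop :=
  ∀ (L : Type) [Field L] [CharZero L],
  (∀ g h : RatFunc L, g ≠ 0 → h ≠ 0 → RatFunc.intDegree (g * h) = RatFunc.intDegree g +
    RatFunc.intDegree h ∧ (g * h).num.leadingCoeff = g.num.leadingCoeff * h.num.leadingCoeff) ∧
  (∀ a : L, RatFunc.intDegree (RatFunc.C a) = 0 ∧ (RatFunc.C a).num.leadingCoeff = a) ∧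
  (∀ (d : Derivation ℤ L L) (Dc : Derivation ℤ (RatFunc L) (RatFunc L)), Over d 0 Dc →
    ∀ g, Dc g = 0 → d g.num.leadingCoeff = 0) ∧
  (∀ a b : L, RatFunc.X ^ 3 + RatFunc.C a * RatFunc.X + RatFunc.C b ≠ 0 ∧
    RatFunc.intDegree (RatFunc.X ^ 3 + RatFunc.C a * RatFunc.X + RatFunc.C b) = 3 ∧
    (RatFunc.X ^ 3 + RatFunc.C a * RatFunc.X + RatFunc.C b).num.leadingCoeff = 1) ∧
  (∀ (d : Derivation ℤ L L) (Dc Dt : Derivation ℤ (RatFunc L) (RatFunc L)), Over d 0 Dc →
    Over 0 1 Dt → ∀ m A : RatFunc L, m ≠ 0 → A ≠ 0 → RatFunc.intDegree m = 0 →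
    RatFunc.intDegree A ≠ 0 → Dc m * Dt A = Dt m * Dc A → d m.num.leadingCoeff = 0)

/-- **TWF** (two forms for general cubics; hypotheses CL1, DER not needed).  Proof.  `x ^ 3 + a x + b`
has three different roots `e0, e1, e2` in `L` (discriminant), with `e0 + e1 + e2 = 0`,
`a = e0 e1 + e0 e2 + e1 e2`, `b = - e0 e1 e2`; `d` kills them (`(3 e ^ 2 + a) * d e = 0` and
`3 e ^ 2 + a = (e - e') (e - e'') ≠ 0`).  So `wei a b u = C ((e1 - e0) ^ 3) * leg l z` with
`z = (u - C e0) / C (e1 - e0)`, `l = (e2 - e0) / (e1 - e0) ≠ 0, 1`, `d l = 0` (as in StLEG, where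
`b ≠ 0` is not used for this part); the same for `a', b'`.  Constants of `L` are squares.  CL1 for the
two functions `z`, `z'`, and `Dc z = Dc u / C (e1 - e0)`, `Dt z = Dt u / C (e1 - e0)`. -/
def StTWF : Prop :=
  ∀ (L : Type) [Field L] [CharZero L] [IsAlgClosed L] (d : Derivation ℤ L L)
    (Dc Dt : Derivation ℤ (RatFunc L) (RatFunc L)) (a b a' b' e : L) (u v : RatFunc L),
  Over d 0 Dc → Over 0 1 Dt → d a = 0 → d b = 0 → d a' = 0 → d b' = 0 →
  4 * a ^ 3 + 27 * b ^ 2 ≠ 0 → 4 * a' ^ 3 + 27 * b' ^ 2 ≠ 0 → e ≠ 0 → wei a b u ≠ 0 →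
  wei a' b' v ≠ 0 → IsSquare (RatFunc.C e * (wei a b u * wei a' b' v)) → Dc u * Dt v = Dc v * Dt u

/-- the field of rational functions over `F` in the variables indexed by `I` -/
abbrev RF (F : Type) [Field F] (I : Type) : Type := FractionRing (MvPolynomial I F)

/-- a variable -/
noncomputable def rv (F : Type) [Field F] {I : Type} (i : I) : RF F I :=
  algebraMap (MvPolynomial I F) (RF F I) (MvPolynomial.X i)

/-- a constant -/
noncomputable def rc {F : Type} [Field F] (I : Type) (c : F) : RF F I :=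
  algebraMap (MvPolynomial I F) (RF F I) (MvPolynomial.C c)

/-- **EM1** (one variable singled out; no hypothesis).  Proof.  `I ≃ Option {j // j ≠ i}`
(`Equiv.optionSubtypeNe`), `MvPolynomial (Option I') F ≃ (MvPolynomial I' F)[X]`
(`MvPolynomial.optionEquivLeft`), and `RatFunc (RF F I')` is a fraction field of `(MvPolynomial I' F)[X]`
(Mathlib may have the instance; else: a polynomial over a fraction field is a polynomial over the ring
divided by an element of the ring).  Or construct `θ` by `IsFractionRing.lift` (the map of polynomial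
rings to `RatFunc` is injective) and show that its range, a subfield, contains `X` and all constants. -/
def StEM1 : Prop :=
  ∀ (F : Type) [Field F] (I : Type) (i : I),
  ∃ θ : RF F I ≃+* RatFunc (RF F {j : I // j ≠ i}), θ (rv F i) = RatFunc.X ∧
    (∀ (j : I) (h : j ≠ i), θ (rv F j) = RatFunc.C (rv F (⟨j, h⟩ : {j : I // j ≠ i}))) ∧
    ∀ c, θ (rc I c) = RatFunc.C (rc _ c)

/-- **EMC** (rational functions with all partial derivatives zero; no hypothesis).  Proof.
`MvPolynomial I F` is a factorial ring; divide `P`, `Q` by a gcd (the relations remain true for the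
quotients: `(g P')_i (g Q') - (g P') (g Q')_i = g ^ 2 (P'_i Q' - P' Q'_i)`).  For coprime `P`, `Q`:
`Q ∣ pderiv i Q`, which is `0` or has smaller degree in the variable `i`, so `pderiv i Q = 0`, and then
`pderiv i P = 0`, for all `i`; in characteristic `0` both are constants. -/
def StEMC : Prop :=
  ∀ (F : Type) [Field F] [CharZero F] (I : Type) (P Q : MvPolynomial I F), Q ≠ 0 →
  (∀ i, MvPolynomial.pderiv i P * Q = P * MvPolynomial.pderiv i Q) →
  ∃ c : F, P = MvPolynomial.C c * Q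

/-- **EMB** (a field of rational functions in many variables as functions of one of them; hypotheses
EM1, EMC, DXT, DER; you may also use `Pool.Agent.Helper80.RK.pPDR : StPDR` and
`Pool.Agent.Helper44.RK.pLAM : StLAM`).  Proof.  `K = RF F I` with its standard field structure (if the
instances make trouble, any copy: only the existence of `ψ` is claimed), `pd` the partial derivatives
(StPDR, or directly by the quotient rule).  Given `i`: `k₀ = RF F {j // j ≠ i}`, `θ : K ≃+* RatFunc k₀`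
(EM1), `L = AlgebraicClosure k₀`, `Λ` the composition of `θ` with `RatFunc k₀ → RatFunc L` (StLAM),
`dl j` for `j ≠ i` the extension to `L` (StDXT) of the partial derivative of `k₀`, `dl i = 0`, `Dc`, `Dt`
from StDER.  `Λ ∘ pd i = Dt ∘ Λ` and `Λ ∘ pd j = Dc j ∘ Λ`: both sides are derivations of `K` with values
in `RatFunc L` (via `Λ`) which agree on the variables and on `F`: polynomials first (induction), then
quotients.  `pd i g = 0 ↔ Cst (Λ g)`: StDER (4) and injectivity of `Λ`.  Last part: the numerator of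
`Λ g` is the image of the numerator of `θ g` (see the proof of StLAM; or: `θ g = P / Q` with `Q` monic,
`P`, `Q` coprime over `k₀`, so also over `L`), so its leading coefficient is in the image of `k₀`, and
`C` of it is in the image of `Λ`.  `const`: `g = P / Q`, the quotient rule and EMC. -/
def StEMB : Prop :=
  ∀ (F : Type) [Field F] [CharZero F] (I : Type),
  ∃ (K : Type) (_ : Field K) (_ : CharZero K) (_ : Algebra F K) (X : I → K)
    (pd : I → Derivation ℤ K K)
    (ψ : FractionRing (MvPolynomial I F) ≃+* K),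
    (∀ i, ψ (algebraMap (MvPolynomial I F) _ (MvPolynomial.X i)) = X i) ∧
    (∀ c, ψ (algebraMap (MvPolynomial I F) _ (MvPolynomial.C c)) = algebraMap F K c) ∧
    (∀ i, pd i (X i) = 1) ∧ (∀ i j, i ≠ j → pd i (X j) = 0) ∧
    (∀ i c, pd i (algebraMap F K c) = 0) ∧ (∀ g, (∀ i, pd i g = 0) → ∃ c, g = algebraMap F K c) ∧
    ∀ i, ∃ (L : Type) (_ : Field L) (_ : CharZero L) (_ : IsAlgClosed L) (Λ : K →+* RatFunc L)
      (dl : I → Derivation ℤ L L) (Dc : I → Derivation ℤ (RatFunc L) (RatFunc L))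
      (Dt : Derivation ℤ (RatFunc L) (RatFunc L)),
      Λ (X i) = RatFunc.X ∧ (∀ j, Over (dl j) 0 (Dc j)) ∧ Over 0 1 Dt ∧
      (∀ g, Λ (pd i g) = Dt (Λ g)) ∧ (∀ j, j ≠ i → ∀ g, Λ (pd j g) = Dc j (Λ g)) ∧
      (∀ g, pd i g = 0 ↔ Cst (Λ g)) ∧
      (∀ g, ∃ c : K, Λ c = RatFunc.C (Λ g).num.leadingCoeff)

/-- **VFR** (the field of rational functions has the structure `VF`; hypotheses EMB, TOP, TWF).  Proof.
Take `K`, `X`, `pd` from EMB.  For `i` choose `L`, `Λ`, ...; put `deg i g = intDegree (Λ g)` and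
`lc i g` = the element `c` with `Λ c = C (leadingCoeff of the numerator of Λ g)` (`Λ` is injective).
`deg_mul`, `lc_mul`, `lc_ne`: TOP (1).  `deg_pd`: `pd i g = 0` gives `Λ g = C a`, TOP (2).  `lc_pd`:
`Λ (lc i g)` is constant.  `lc_pd'`: for `j = i` by `lc_pd`; for `j ≠ i`: `Dc j (Λ g) = 0`, so by TOP (3)
`dl j` kills the leading coefficient, and `Λ (pd j (lc i g)) = Dc j (C ..) = C (dl j ..) = 0`.  `cub`:
`Λ a`, `Λ b` are constants, TOP (4).  `jac`: if `j = i` use `lc_pd`; else TOP (5).  `two`: if `j = i`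
trivial (commutativity); else TWF for `Λ w`, `Λ w'` and the constants `Λ a = C ..` etc. (`dl j` kills
these constants because `Λ (pd j a) = C (dl j ..)`). -/
def StVFR : Prop :=
  ∀ (F : Type) [Field F] [CharZero F] (I : Type),
  ∃ (K : Type) (_ : Field K) (_ : CharZero K) (_ : Algebra F K) (X : I → K)
    (pd : I → Derivation ℤ K K) (deg : I → K → ℤ) (lc : I → K → K)
    (ψ : FractionRing (MvPolynomial I F) ≃+* K),
    (∀ i, ψ (algebraMap (MvPolynomial I F) _ (MvPolynomial.X i)) = X i) ∧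
    (∀ c, ψ (algebraMap (MvPolynomial I F) _ (MvPolynomial.C c)) = algebraMap F K c) ∧
    VF F K I X pd deg lc

/-- **PAI** (one pair; no hypothesis).  `f z = z ^ 3 + ..`.  Proof.  By `VF.two` with
`e = (X (rho i) ^ 3 + ..) * (X (rho j) ^ 3 + ..)`, killed by `pd z` if `z` is not in `J i`, `J j` and not
`rho i`, `rho j` (reorder the factors of `Setup.sq`; `e ≠ 0` by `VF.cub`): (R) for such `z` and every
`z'` not in `J i`, `J j`: `pd z' (w i) * pd z (w j) = pd z' (w j) * pd z (w i)`.  So a pair `z, z'` with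
nonzero minor consists of `rho i` and `rho j`; call the minor
`Δ = pd (rho i) (w i) * pd (rho j) (w j) - pd (rho j) (w i) * pd (rho i) (w j) ≠ 0`.  For `z` as above
(R) with `z' = rho i` and `z' = rho j` is a linear system for `(pd z (w i), pd z (w j))` with
determinant `± Δ`, so both are `0`. -/
def StPAI : Prop :=
  ∀ (F K : Type) [Field F] [Field K] [CharZero K] [Algebra F K] (I : Type) (X : I → K)
    (pd : I → Derivation ℤ K K) (deg : I → K → ℤ) (lc : I → K → K) (J : Fin 3 → Finset I)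
    (rho : Fin 3 → I) (a b w : Fin 3 → K), VF F K I X pd deg lc → Setup F K I X pd J rho a b w →
  ∀ i j, i ≠ j →
  (∀ z z', z ∉ J i → z ∉ J j → z ≠ rho i → z ≠ rho j → z' ∉ J i → z' ∉ J j →
    pd z' (w i) * pd z (w j) = pd z' (w j) * pd z (w i)) ∧
  (∀ z z', z ∉ J i → z ∉ J j → z' ∉ J i → z' ∉ J j →
    pd z (w i) * pd z' (w j) ≠ pd z' (w i) * pd z (w j) →
    pd (rho i) (w i) * pd (rho j) (w j) ≠ pd (rho j) (w i) * pd (rho i) (w j) ∧
    ∀ y, y ∉ J i → y ∉ J j → y ≠ rho i → y ≠ rho j → pd y (w i) = 0 ∧ pd y (w j) = 0)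

/-- **ALP** (separation of variables; hypothesis PAI).  Proof.  Let `k` be the third index.  By PAI (2)
`Δ ≠ 0` and `pd (rho k) (w i) = pd (rho k) (w j) = 0`.  Put `r = pd (rho k) (w k)`.  `r ≠ 0`: otherwise
`pd (rho k)` kills `g = (w k ^ 3 + ..) * ((X (rho i) ^ 3 + ..) * (w i ^ 3 + ..))`, and
`(X (rho k) ^ 3 + ..) * g` is a square `q ^ 2 ≠ 0`; the degree in `rho k` is `3 + 0` (`cub`, `deg_pd`)
and `2 * deg q`, contradiction.  PAI (1) for the pair `(i, k)`, `z = rho j`, `z' = rho k`: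
`0 = pd (rho k) (w i) * pd (rho j) (w k) = r * pd (rho j) (w i)`, so `pd (rho j) (w i) = 0`; for the pair
`(j, k)`, `z = rho i`, `z' = rho k`: `pd (rho i) (w j) = 0`.  So `pd (rho i) (w i) ≠ 0`,
`pd (rho j) (w j) ≠ 0` (`Δ ≠ 0`).  Hence the minors of the pairs `(i, k)` at `rho i, rho k` and `(j, k)` at
`rho j, rho k` are not `0`: for `(i, k)` it is `pd (rho i) (w i) * r - pd (rho k) (w i) * pd (rho i) (w k)
= pd (rho i) (w i) * r`.  PAI (2) for all three pairs: `pd y (w l) = 0` for `l = i, k` and `y` outside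
`J i`, `J k`, `rho i`, `rho k`, etc.  Let `l = i`, `y ∉ J i`, `y ≠ rho i`: if `y ∉ J j` and `y ≠ rho j` use
the pair `(i, j)`; otherwise `y ∉ J k` and `y ≠ rho k` (`disj`, `rhoJ`, `rho_inj`), use the pair `(i, k)`.
The same for `l = j, k`. -/
def StALP : Prop :=
  ∀ (F K : Type) [Field F] [Field K] [CharZero K] [Algebra F K] (I : Type) (X : I → K)
    (pd : I → Derivation ℤ K K) (deg : I → K → ℤ) (lc : I → K → K) (J : Fin 3 → Finset I)
    (rho : Fin 3 → I) (a b w : Fin 3 → K), VF F K I X pd deg lc → Setup F K I X pd J rho a b w →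
  ∀ i j, i ≠ j → ∀ z z', z ∉ J i → z ∉ J j → z' ∉ J i → z' ∉ J j →
    pd z (w i) * pd z' (w j) ≠ pd z' (w i) * pd z (w j) →
  ∀ l y, y ∉ J l → y ≠ rho l → pd y (w l) = 0

/-- **BET** (the dependent case is impossible; no hypothesis).  Proof.  Write `f i = X (rho i) ^ 3 + ..`,
`g i = w i ^ 3 + ..`, `x = rho 0`, `y = rho 1`.  `A = g 0 * g 1`, `B = g 0 * g 2`.  By `Setup.sq`
`A = f 0 * f 1 * (..) ^ 2`, `B = f 0 * f 2 * (..) ^ 2`, so `α = deg x A` and `deg x B` are odd (`cub`,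
`deg_pd`: `f 1`, `f 2` have degree `0` in `x`) and `deg x (A / B) = 2 n`.  Put
`m = (A / B) ^ α * A ^ (- 2 n)` (integer powers): `deg x m = 0`, and `m = f 1 * f 2 * g ^ 2` for some
`g ≠ 0` (`A / B = f 1 * f 2 * (..) ^ 2`, `α - 1` is even).  JACOBIAN: for `z = x, y` (not in any `J i`)
`pd z (g i) = (3 (w i) ^ 2 + a i) * pd z (w i)`; so `pd z A = A₀ pd z (w 0) + A₁ pd z (w 1)` and
`pd z m = m * (α (pd z A / A - pd z B / B) - 2 n pd z A / A)` is a combination of
`pd z (w 0), pd z (w 1), pd z (w 2)` with coefficients independent of `z`; as all minors vanish,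
`pd y m * pd x A = pd x m * pd y A`.  `VF.jac`: `pd y (lc x m) = 0`.  But
`lc x m = f 1 * f 2 * (lc x g) ^ 2` (`lc_mul`, `deg_pd`), so the degree in `y` of the left side is `0` and
of the right side `3 + 0 + 2 * deg y (lc x g)`, odd.  Contradiction. -/
def StBET : Prop :=
  ∀ (F K : Type) [Field F] [Field K] [CharZero K] [Algebra F K] (I : Type) (X : I → K)
    (pd : I → Derivation ℤ K K) (deg : I → K → ℤ) (lc : I → K → K) (J : Fin 3 → Finset I)
    (rho : Fin 3 → I) (a b w : Fin 3 → K), VF F K I X pd deg lc → Setup F K I X pd J rho a b w →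
  (∀ i j, ∀ z z', (∀ k, z ∉ J k) → (∀ k, z' ∉ J k) →
    pd z (w i) * pd z' (w j) = pd z' (w i) * pd z (w j)) → False

/-- **SEP** (squares in separated variables; no hypothesis).  Proof.  Induction on the finite set `S`
(for all `h'`).  `S = ∅`: `h'` is a constant `c` of `F` (`const`), `c ≠ 0`.  For `insert z S`, `h h' = q ^ 2`:
`lc z` of both sides: `h * lc z h' = (lc z q) ^ 2` (`lc_mul`, `deg_pd` for `h`), and `lc z h' ≠ 0` is
killed by `pd z` (`lc_pd`) and by all `pd y`, `y ∉ insert z S` (`lc_pd'`), so by all `pd y`, `y ∉ S`. -/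
def StSEP : Prop :=
  ∀ (F K : Type) [Field F] [Field K] [CharZero K] [Algebra F K] (I : Type) (X : I → K)
    (pd : I → Derivation ℤ K K) (deg : I → K → ℤ) (lc : I → K → K), VF F K I X pd deg lc →
  ∀ (S : Finset I) (h h' : K), h ≠ 0 → h' ≠ 0 → (∀ z ∈ S, pd z h = 0) → (∀ z, z ∉ S → pd z h' = 0) →
  IsSquare (h * h') → ∃ c : F, c ≠ 0 ∧ IsSquare (algebraMap F K c * h)

/-- **UMN** (the main theorem for three curves; hypotheses ALP, BET, SEP).  Proof.  By BET there are
`i, j` and `z, z'` outside all `J k` with a nonzero minor; `i ≠ j` (for `i = j` the minor is `0`).  ALP: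
`pd y (w l) = 0` for all `l` and `y ∉ J l`, `y ≠ rho l`.  Let `h l = f l * g l` (notation of BET): killed
by `pd y` for the same `y`.  Given `l` choose `l' ≠ l`; SEP for `S = insert (rho l') (J l')`, `h l`, `h l'`
(`z ∈ S` is not in `J l` and not `rho l`). -/
def StUMN : Prop :=
  ∀ (F K : Type) [Field F] [Field K] [CharZero K] [Algebra F K] (I : Type) (X : I → K)
    (pd : I → Derivation ℤ K K) (deg : I → K → ℤ) (lc : I → K → K) (J : Fin 3 → Finset I)
    (rho : Fin 3 → I) (a b w : Fin 3 → K), VF F K I X pd deg lc → Setup F K I X pd J rho a b w →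
  ∀ l, ∃ c : F, c ≠ 0 ∧ IsSquare (algebraMap F K c *
    ((X (rho l) ^ 3 + a l * X (rho l) + b l) * (w l ^ 3 + a l * w l + b l)))

/-- **UFX** (fixed curves and their twists; hypotheses VFR, UMN).  Let `f i = x ^ 3 + a i x + b i` over
`F`, `x i` (`i : Fin r`) and further parameters (`T`) independent variables.  Proof.  For the index `i`
choose two other indices; UMN for the three indices, `J = ∅`, `a`, `b` constants, in the field `K` of
VFR (transport with `ψ`); `w k = ψ (u k)`. -/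
def StUFX : Prop :=
  ∀ (F : Type) [Field F] [CharZero F] (r : ℕ) (T : Type) (a b : Fin r → F), 3 ≤ r →
  (∀ i, 4 * a i ^ 3 + 27 * b i ^ 2 ≠ 0) →
  ∀ u : Fin r → RF F (Fin r ⊕ T),
  (∀ i j, i ≠ j →
    ((rv F (Sum.inl i)) ^ 3 + rc _ (a i) * rv F (Sum.inl i) + rc _ (b i)) *
      (u i ^ 3 + rc _ (a i) * u i + rc _ (b i)) *
      (((rv F (Sum.inl j)) ^ 3 + rc _ (a j) * rv F (Sum.inl j) + rc _ (b j)) *
      (u j ^ 3 + rc _ (a j) * u j + rc _ (b j))) ≠ 0 ∧
    IsSquare (((rv F (Sum.inl i)) ^ 3 + rc _ (a i) * rv F (Sum.inl i) + rc _ (b i)) *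
      (u i ^ 3 + rc _ (a i) * u i + rc _ (b i)) *
      (((rv F (Sum.inl j)) ^ 3 + rc _ (a j) * rv F (Sum.inl j) + rc _ (b j)) *
      (u j ^ 3 + rc _ (a j) * u j + rc _ (b j))))) →
  ∀ i, ∃ c : F, c ≠ 0 ∧ IsSquare (rc _ c *
    (((rv F (Sum.inl i)) ^ 3 + rc _ (a i) * rv F (Sum.inl i) + rc _ (b i)) *
      (u i ^ 3 + rc _ (a i) * u i + rc _ (b i))))

/-- **ISO** (the coordinates `j, ρ, κ` of the universal curve with a point; no hypothesis).  Variables
`(i, 0), (i, 1), (i, 2)` are `a_i, x_i, y_i` on the left and `j_i, ρ_i, κ_i` on the right.  With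
`f_i = ρ_i ^ 3 + j_i ρ_i + j_i` and `μ_i = κ_i ^ 2 / f_i`: `a_i ↦ j_i μ_i ^ 2`, `x_i ↦ ρ_i μ_i`,
`y_i ↦ κ_i μ_i`.  Then `b_i = y_i ^ 2 - x_i ^ 3 - a_i x_i ↦ j_i μ_i ^ 3`.  Proof.  The map `φ` of
polynomial rings has values in the localization `R_s` of the polynomial ring `R` on the right at
`s = ∏ f_i` (a finite product).  Injective: let `P ≠ 0`; choose a point `(a, x, y, t)` of `F ^ I` (`F` is
infinite) with `P * ∏ (a_i * b_i * y_i) ≠ 0` there (`b_i` as above), and `j_i = a_i ^ 3 / b_i ^ 2`,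
`ρ_i = x_i a_i / b_i`, `κ_i = y_i a_i / b_i`; then `μ_i = b_i / a_i`, `f_i = κ_i ^ 2 / μ_i ≠ 0` at this
point, and evaluation `R_s → F` at it maps `φ P` to `P(a, x, y, t) ≠ 0`.  (The index set of variables
may be infinite because of `T`, but `P` involves only finitely many variables; `MvPolynomial.funext`
works for every index type over an infinite domain.)  So `φ` extends to the fraction fields.
Surjective: the range of the extension is a subfield which contains `F`, `t`, and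
`κ_i = y_i a_i / b_i`, `j_i = a_i ^ 3 / b_i ^ 2`, `ρ_i = x_i a_i / b_i`. -/
def StISO : Prop :=
  ∀ (F : Type) [Field F] [CharZero F] (r : ℕ) (T : Type),
  ∃ θ : RF F ((Fin r × Fin 3) ⊕ T) ≃+* RF F ((Fin r × Fin 3) ⊕ T),
    (∀ c, θ (rc _ c) = rc _ c) ∧ (∀ t, θ (rv F (Sum.inr t)) = rv F (Sum.inr t)) ∧
    ∀ i, ∃ μ : RF F ((Fin r × Fin 3) ⊕ T), μ ≠ 0 ∧
      μ * (rv F (Sum.inl (i, 1)) ^ 3 + rv F (Sum.inl (i, 0)) * rv F (Sum.inl (i, 1)) +
        rv F (Sum.inl (i, 0))) = rv F (Sum.inl (i, 2)) ^ 2 ∧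
      θ (rv F (Sum.inl (i, 0))) = rv F (Sum.inl (i, 0)) * μ ^ 2 ∧
      θ (rv F (Sum.inl (i, 1))) = rv F (Sum.inl (i, 1)) * μ ∧
      θ (rv F (Sum.inl (i, 2))) = rv F (Sum.inl (i, 2)) * μ

/-- the coefficient `b_i = y_i ^ 2 - x_i ^ 3 - a_i x_i` of the universal curve with a point -/
noncomputable def bu (F : Type) [Field F] {r : ℕ} (T : Type) (i : Fin r) : RF F ((Fin r × Fin 3) ⊕ T) :=
  rv F (Sum.inl (i, 2)) ^ 2 - rv F (Sum.inl (i, 1)) ^ 3 -
    rv F (Sum.inl (i, 0)) * rv F (Sum.inl (i, 1))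

/-- **UGN** (universal curves with a point; hypotheses VFR, UMN, ISO).  Proof.  Apply `θ` of ISO and `ψ`
of VFR.  With `w i = θ (u i) / μ i`: `θ (u i ^ 3 + a_i u i + b_i) = μ i ^ 3 (w i ^ 3 + j_i w i + j_i)`,
and `μ i * f i = κ_i ^ 2` (`f i = ρ_i ^ 3 + j_i ρ_i + j_i`), so
`θ (u i ^ 3 + a_i u i + b_i) * (f i ^ 2 / (μ i * κ_i) ^ 2) = f i * (w i ^ 3 + j_i w i + j_i)`: the two
differ by a square.  For the index `i` choose two other indices; UMN for the three indices with
`J k = {j_k}`, `rho k = ρ_k`, `a = b = j_k` (`4 j ^ 3 + 27 j ^ 2 ≠ 0`).  Go back with `ψ⁻¹` and `θ⁻¹`. -/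
def StUGN : Prop :=
  ∀ (F : Type) [Field F] [CharZero F] (r : ℕ) (T : Type), 3 ≤ r →
  ∀ u : Fin r → RF F ((Fin r × Fin 3) ⊕ T),
  (∀ i j, i ≠ j →
    (u i ^ 3 + rv F (Sum.inl (i, 0)) * u i + bu F T i) *
      (u j ^ 3 + rv F (Sum.inl (j, 0)) * u j + bu F T j) ≠ 0 ∧
    IsSquare ((u i ^ 3 + rv F (Sum.inl (i, 0)) * u i + bu F T i) *
      (u j ^ 3 + rv F (Sum.inl (j, 0)) * u j + bu F T j))) →
  ∀ i, ∃ c : F, c ≠ 0 ∧ IsSquare (rc _ c * (u i ^ 3 + rv F (Sum.inl (i, 0)) * u i + bu F T i))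

end Pool.Agent.Helper1.RK
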