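import Pool.Agent.Helper1.RK.All
import Pool.Agent.Helper1.RK.StE
import Pool.Agent.Helper80.RK.M_TOP
import Pool.Agent.Helper79.RK.M_TWF
import Pool.Agent.Helper3.RK.M_EM1
import Pool.Agent.Helper82.RK.M_EMC
import Pool.Agent.Helper51.RK.M_EMB
import Pool.Agent.Helper28.RK.M_VFR
import Pool.Agent.Helper42.RK.M_PAI
import Pool.Agent.Helper81.RK.M_ALP
import Pool.Agent.Helper76.RK.M_BET
import Pool.Agent.Helper41.RK.M_SEP
import Pool.Agent.Helper64.RK.M_UMN
import Pool.Agent.Helper2.RK.M_UFX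
import Pool.Agent.Helper33.RK.M_ISO
import Pool.Agent.Helper8.RK.M_UGN

/-!
# Project RK (MP_de00bc_nt): the statements of part E hold
-/

set_option autoImplicit false

namespace Pool.Agent.Helper1.RK

theorem hTOP : StTOP := Pool.Agent.Helper80.RK.pTOP

theorem hTWF : StTWF := Pool.Agent.Helper79.RK.pTWF hCL1

theorem hEM1 : StEM1 := Pool.Agent.Helper3.RK.pEM1

theorem hEMC : StEMC := Pool.Agent.Helper82.RK.pEMC

theorem hEMB : StEMB := Pool.Agent.Helper51.RK.pEMB hEM1 hEMC hDXT hDER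

theorem hVFR : StVFR := Pool.Agent.Helper28.RK.pVFR hEMB hTOP hTWF

theorem hPAI : StPAI := Pool.Agent.Helper42.RK.pPAI

theorem hALP : StALP := Pool.Agent.Helper81.RK.pALP hPAI

theorem hBET : StBET := Pool.Agent.Helper76.RK.pBET

theorem hSEP : StSEP := Pool.Agent.Helper41.RK.pSEP

theorem hUMN : StUMN := Pool.Agent.Helper64.RK.pUMN hALP hBET hSEP

theorem hUFX : StUFX := Pool.Agent.Helper2.RK.pUFX hVFR hUMN

theorem hISO : StISO := Pool.Agent.Helper33.RK.pISO

theorem hUGN : StUGN := Pool.Agent.Helper8.RK.pUGN hVFR hUMN hISO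

end Pool.Agent.Helper1.RK
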