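import Pool.Agent.Helper1.RK.StE

/-!
# Project RK (MP_de00bc_nt): part F, Q1 fails over `F(j, x_1, ..., x_r)` for every `r ≥ 3`

Here `f(x) = x ^ 3 + j x + j` with `j` transcendental.  Parts E and F together show that over the field
`K = F(j)(x_1, ..., x_r, T)` the cubics `f(x_i) f(x)` are admissible and have no good tuple.
-/

set_option autoImplicit false

namespace Pool.Agent.Helper1.RK

open Polynomial

/-- **EXI** (exactness, from the Picard-Fuchs equation; hypothesis DER).  Write `f = wei j j X`,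
`f' = 3 X ^ 2 + C j = Dt f`, `g = wei j j w`, `v = Dt w`.  Proof.  `j ≠ 0` and `4 j + 27 ≠ 0` (apply `d`).
Put `p2 = - 3 / (j (4 j + 27))`, `p1 = - (2 j + 9) / (j (4 j + 27))`, `p0 = - 2 / (4 j + 27)`,
`β = - p2 / 2 ≠ 0`, `α = p1 / 2`, `P(x) = p2 x ^ 2 + p1 x + p0`.  The polynomial identity
`- (x + 1) / 2 = (α + β x + P'(x)) (x ^ 3 + j x + j) - P(x) (3 x ^ 2 + j) / 2` holds (check with
`field_simp; ring`).  Take `T = (P(X) - (P(w) + Dc w) / v) / f` and `δ = d γ / (2 γ)`.  From the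
relation: (i) `Dt v = (γ (3 w ^ 2 + j) - v f') / (2 f)` (apply `Dt` to the relation and cancel `v`),
(ii) `Dt (Dc w) = (dγ g + γ ((3 w ^ 2 + j) Dc w + w + 1) - v ^ 2 (X + 1)) / (2 v f)` (apply `Dc` to the
relation, and `Dc (Dt w) = Dt (Dc w)`: both sides are derivations in `w` which agree on `C a` and `X`,
or use the uniqueness in DER; `Dc f = X + 1`, `Dc g = (3 w ^ 2 + j) Dc w + w + 1` as `d j = 1`).  With
`Z = f T`: `Dt T * f + T f' / 2 = Dt Z - Z f' / (2 f)` and
`Dt Z = P'(X) - P'(w) - Dt (Dc w) / v + (P(w) + Dc w) Dt v / v ^ 2` (`P'(w)` means `2 p2 w + p1`; the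
coefficients of `P` are constants for `Dt`).  Insert (i), (ii), use `γ g = v ^ 2 f` and the polynomial
identity at `X` and at `w` (in the form `P' - P f' / (2 f) + (x + 1) / (2 f) = - (α + β x)`); the result is
`β (w - X) - δ`.  (Checked numerically for the duplication formula.) -/
def StEXI : Prop :=
  ∀ (L : Type) [Field L] [CharZero L] (d : Derivation ℤ L L)
    (Dc Dt : Derivation ℤ (RatFunc L) (RatFunc L)) (j γ : L) (w : RatFunc L),
  Over d 0 Dc → Over 0 1 Dt → d j = 1 → γ ≠ 0 → Dt w ≠ 0 →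
  Dt w ^ 2 * wei j j RatFunc.X = RatFunc.C γ * wei j j w →
  ∃ (β δ : L) (T : RatFunc L), β ≠ 0 ∧
    Dt T * wei j j RatFunc.X + T * (3 * RatFunc.X ^ 2 + RatFunc.C j) / 2 =
      RatFunc.C β * (w - RatFunc.X) - RatFunc.C δ

/-- **POL** (poles of `w`; hypotheses ORD, REG, DER, LCD, TOP).  Proof.  Let `w` have a pole of order `m`
at `p`; then `ord p (Dt w) = - m - 1` (LCD) and `ord p (wei j j w) = - 3 m`.  (1) If the cubic does not
vanish at `p`: `- 2 m - 2 = - 3 m`, `m = 2`; write `w = W / (X - p) ^ 2` with `W` regular at `p`,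
`Dt w = (Dt W (X - p) - 2 W) / (X - p) ^ 3`, multiply the relation by `(X - p) ^ 6` and take values at
`p`: `4 W(p) ^ 2 f(p) = γ W(p) ^ 3`, `W(p) ≠ 0`.  (2) If it vanishes, it vanishes to first order
(`3 p ^ 2 + j ≠ 0`), so `- 2 m - 2 + 1 = - 3 m`, `m = 1`, `w = W / (X - p)`, and (multiply by
`(X - p) ^ 3`) `W(p) ^ 2 (3 p ^ 2 + j) = γ W(p) ^ 3`.  (3) If `n = intDegree w ≥ 1`: `intDegree (Dt w) =
n - 1` with leading coefficient `n a` (`a` that of `w`), `intDegree (wei j j w) = 3 n` with leading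
coefficient `a ^ 3`; so `2 n - 2 + 3 = 3 n`, `n = 1`, `a ^ 2 = γ a ^ 3`. -/
def StPOL : Prop :=
  ∀ (L : Type) [Field L] [CharZero L] (Dt : Derivation ℤ (RatFunc L) (RatFunc L)) (j γ : L)
    (w : RatFunc L), Over 0 1 Dt → γ ≠ 0 → ¬ Cst w →
  Dt w ^ 2 * wei j j RatFunc.X = RatFunc.C γ * wei j j w →
  (∀ p : L, ¬ Reg p w → p ^ 3 + j * p + j ≠ 0 → ord p w = -2 ∧
    Reg p ((RatFunc.X - RatFunc.C p) ^ 2 * w) ∧
    ev p ((RatFunc.X - RatFunc.C p) ^ 2 * w) = 4 * (p ^ 3 + j * p + j) / γ) ∧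
  (∀ p : L, ¬ Reg p w → p ^ 3 + j * p + j = 0 → 3 * p ^ 2 + j ≠ 0 → ord p w = -1 ∧
    Reg p ((RatFunc.X - RatFunc.C p) * w) ∧
    ev p ((RatFunc.X - RatFunc.C p) * w) = (3 * p ^ 2 + j) / γ) ∧
  (0 < RatFunc.intDegree w → RatFunc.intDegree w = 1 ∧ w.num.leadingCoeff = γ⁻¹)

/-- **GMN** (the multiplier of a generic isogeny is its degree; hypotheses EXI, POL, ORD, REG, FIN, DER,
LCD, TOP).  Proof.  `j ≠ 0`, `4 j + 27 ≠ 0`, so `p ^ 3 + j p + j = 0` implies `3 p ^ 2 + j ≠ 0`.  `β, δ, T`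
from EXI.  `Q = denom w`, `N = dg w`; by POL (3) `natDegree num = N = natDegree Q + 1`.  Put
`U = T + C (2 β / γ) * (Dt Q / Q)` (`Q` as an element of `RatFunc L`).  CLAIM: `U` is regular at every `p`.
Let `T` have a pole of order `n ≥ 1` at `p`, `s = ord p f ∈ {0, 1}`.
(a) `w` regular at `p`, `s = 0`: `Dt T * f` has a pole of order `n + 1`, `T f'` of order `≤ n`:
contradiction with EXI.  (c) `w` regular, `s = 1`: with `T = t / (X - p) ^ n`, the coefficient of
`(X - p) ^ (- n)` on the left is `(1 / 2 - n) t(p) f'(p) ≠ 0`: contradiction.  So `T` is regular if `w`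
is, and `Dt Q / Q` too.  (b) `w` not regular, `s = 0`: the right side of EXI has a pole of order `2`
exactly, so `n = 1` (and `T` is not regular), and with `t` the value of `(X - p) T` at `p`:
`- t f(p) = β 4 f(p) / γ`, `t = - 4 β / γ`; `Q` vanishes to order `2` at `p`, so `(X - p) Dt Q / Q` has
value `2`: `(X - p) U` vanishes at `p`, `U` is regular.  (d) `w` not regular, `s = 1`: the right side has a
pole of order `1`, the left side is `(1 / 2 - n) t(p) f'(p) / (X - p) ^ n + ...`, so `n = 1` and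
`- t f'(p) / 2 = β f'(p) / γ`, `t = - 2 β / γ`; `Q` vanishes to order `1`.  So `U` is regular everywhere,
a polynomial (FIN).  INFINITY: the right side of EXI has degree `≤ 1`; if `T ≠ 0` has degree `k`, the
left side has degree `k + 2` with leading coefficient `(k + 3 / 2) * lead T ≠ 0`, so `k ≤ - 1`;
`Dt Q / Q` is `0` or has degree `- 1`.  So `U` has degree `≤ - 1` or is `0`: `U = 0`,
`T = - (2 β / γ) Dt Q / Q`.  Coefficient of `X` in EXI at infinity: if `N ≥ 2` the left side has degree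
`1` with leading coefficient `(- 1 + 3 / 2) * (- 2 β / γ) (N - 1) = - β (N - 1) / γ`, and on the right it
is `β (1 / γ - 1)`; so `γ = N`.  If `N = 1`: `T = 0`, `β (w - X) = δ`, the leading coefficient `1 / γ` of
`w` is `1`. -/
def StGMN : Prop :=
  ∀ (L : Type) [Field L] [CharZero L] [IsAlgClosed L] (d : Derivation ℤ L L)
    (Dt : Derivation ℤ (RatFunc L) (RatFunc L)) (j γ : L) (w : RatFunc L),
  Over 0 1 Dt → d j = 1 → γ ≠ 0 → 0 < RatFunc.intDegree w →
  Dt w ^ 2 * wei j j RatFunc.X = RatFunc.C γ * wei j j w → γ = (dg w : L)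

/-- **ADF** (addition formula; hypothesis DER).  `f = wei j j X`, `v = Dt w`,
`Λ = (v / κ - 1) / (w - X)`, `W = f Λ ^ 2 - w - X`.  Proof.  (i) `wei j j W = f (Λ (W - X) + 1) ^ 2`: the
line through the points `(X, y)` and `(w, y v / κ)`, `y ^ 2 = f`; use `f (v / κ) ^ 2 = wei j j w`.  (ii)
`Dt W = - (κ + 1) (Λ (W - X) + 1)`: use `Dt v = (κ ^ 2 (3 w ^ 2 + j) - v f') / (2 f)` (apply `Dt` to the
relation and cancel `v ≠ 0`; `v ≠ 0` because the right side of the relation would be `0`, i.e. `w` would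
be a constant root; if `v = 0` treat separately: then `wei j j w = 0`, and (i), (ii) still hold by
direct computation, or assume `v ≠ 0` as given) and
`f (v / κ + 1) (v / κ - 1) = wei j j w - f = (w - X) (w ^ 2 + w X + X ^ 2 + j)`.  Both are checked by
`field_simp` and a linear combination of these relations. -/
def StADF : Prop :=
  ∀ (L : Type) [Field L] [CharZero L] (Dt : Derivation ℤ (RatFunc L) (RatFunc L)) (j κ : L)
    (w W : RatFunc L), Over 0 1 Dt → κ ≠ 0 → w ≠ RatFunc.X → Dt w ≠ 0 →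
  Dt w ^ 2 * wei j j RatFunc.X = RatFunc.C (κ ^ 2) * wei j j w →
  W = wei j j RatFunc.X * ((Dt w / RatFunc.C κ - 1) / (w - RatFunc.X)) ^ 2 - w - RatFunc.X →
  Dt W ^ 2 * wei j j RatFunc.X = RatFunc.C ((κ + 1) ^ 2) * wei j j W

/-- **GMQ** (the multiplier is an integer; hypotheses GMN, ADF, POL, TOP, DER).  Proof.  GMN:
`κ ^ 2 = N = dg w`.  If `κ ^ 2 = 1` then `κ = ± 1`.  Let `κ ^ 2 ≠ 1`; then `w ≠ X` (for `w = X` the
relation gives `κ ^ 2 = 1`), and `κ ^ 3 ≠ 1` (otherwise `N ^ 3 = κ ^ 6 = 1`, `N = 1`).  `W` as in ADF.  By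
POL (3) `w` has degree `1` and leading coefficient `κ⁻²`, so `Dt w` has degree `0` and the same leading
coefficient; `Dt w / κ - 1` has degree `0` and leading coefficient `κ⁻³ - 1 ≠ 0`, `w - X` has degree `1`
and leading coefficient `κ⁻² - 1 ≠ 0`; so `W` has degree `1` with leading coefficient
`((κ⁻³ - 1) / (κ⁻² - 1)) ^ 2 - κ⁻² - 1 = 1 / (κ + 1) ^ 2` (it is not `0`).  GMN for `W` and
`(κ + 1) ^ 2 ≠ 0`: `(κ + 1) ^ 2 = M = dg W`.  So `2 κ = M - N - 1` is an integer `m` and `m ^ 2 = 4 N` in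
`L`, so in `ℤ` (characteristic `0`), `m` is even. -/
def StGMQ : Prop :=
  ∀ (L : Type) [Field L] [CharZero L] [IsAlgClosed L] (d : Derivation ℤ L L)
    (Dt : Derivation ℤ (RatFunc L) (RatFunc L)) (j κ : L) (w : RatFunc L),
  Over 0 1 Dt → d j = 1 → κ ≠ 0 → 0 < RatFunc.intDegree w →
  Dt w ^ 2 * wei j j RatFunc.X = RatFunc.C (κ ^ 2) * wei j j w → ∃ n : ℤ, κ = (n : L)

/-- **OMG** (one-forms; hypotheses ORD, REG, FIN, DER, LD, IOT, TRN).  `f = wei a b X`.  Proof.  Let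
`e0, e1, e2` be the (different) roots of the cubic, `wei a b w = C ((e1 - e0) ^ 3) * leg l z` with
`z = (w - C e0) / C (e1 - e0)`, `l = (e2 - e0) / (e1 - e0)` (see StLEG; `b ≠ 0` is not needed for this).
LD (1) for `z`, `d = 0`, `V = 1`: `ord p (wei a b w) ≤ 2 ord p (Dt w) + 1` (`Dt w ≠ 0` as `w` is not
constant).  `h = Dt w * f / g`; `2 ord p h = 2 ord p (Dt w) + ord p f - ord p (wei a b w) ≥ ord p f - 1 ≥
- 1` (`g ^ 2 = f * wei a b w`, `f` a polynomial), so `ord p h ≥ 0`: `h` is regular at every `p`, a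
polynomial.  INFINITY: `ι (Dt w) = - X ^ 2 * Dt (ι w)` (TRN), and the same inequality for `ι w` at `0`;
`ord 0 (ι f) = - 3`: `2 ord 0 (ι h) = 4 + 2 ord 0 (Dt (ι w)) - 3 - ord 0 (wei a b (ι w)) ≥ 0`, so `ι h` is
regular at `0`, and the polynomial `h` is constant. -/
def StOMG : Prop :=
  ∀ (L : Type) [Field L] [CharZero L] [IsAlgClosed L] (Dt : Derivation ℤ (RatFunc L) (RatFunc L))
    (a b : L) (w g : RatFunc L), Over 0 1 Dt → 4 * a ^ 3 + 27 * b ^ 2 ≠ 0 → ¬ Cst w → g ≠ 0 →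
  wei a b RatFunc.X * wei a b w = g ^ 2 → Cst (Dt w * wei a b RatFunc.X / g)

/-- **NRT** (the cubic has no root in `F(j)`; no hypothesis).  Proof.  A root is integral over `F[X]`,
so it is a polynomial `P`, `P ^ 3 + X P + X = 0`.  `P = 0` is impossible; if `P = c` is constant then
`c ^ 3 = 0` and `c + 1 = 0`; if `n = natDegree P ≥ 1` then `P ^ 3` has degree `3 n` and the rest has
degree `≤ n + 1 < 3 n`. -/
def StNRT : Prop :=
  ∀ (F : Type) [Field F] (g : RatFunc F), g ^ 3 + RatFunc.X * g + RatFunc.X ≠ 0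

/-- **CSQ** (no constant twist; hypotheses OMG, GMQ, NRT, DXT, LAM, DER, TOP).  Proof.  `k = RatFunc F`,
`j = X ∈ k`.  (1) `w` is not constant: otherwise the left side has odd `intDegree` `3` (`wei j j w ≠ 0`
as `g ≠ 0`).  (2) `0 < intDegree w`: otherwise `w` has a value `w₀ ∈ k` at infinity (quotient of the
coefficients of degree `natDegree denom`), and `wei j j w` has the value `w₀ ^ 3 + j w₀ + j ≠ 0` (NRT), so
`intDegree (wei j j w) = 0`, but it is odd.  (3) `L = AlgebraicClosure k`, `d` the extension (DXT) of the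
derivative `d / dX` of `k` (DER), so `d j = 1`; `Λ` from LAM (it preserves `intDegree`, see its proof, or
use `dg`; or show (2) directly for `Λ w`), `s ∈ L` with `s ^ 2 = c`.  Let `η = Dt w * wei j j X / g` in
`RatFunc k`; `Λ` commutes with `Dt`.  OMG for `Λ w` and `C s * Λ g`: `Λ η / C s` is constant, so `Λ η` is,
so `η = C e`, `e ∈ k` (LAM).  `e ≠ 0`.  `(Dt w) ^ 2 f ^ 2 = e ^ 2 g ^ 2 = e ^ 2 f wei j j w / c`, so
`(Dt w) ^ 2 f = C (e ^ 2 / c) * wei j j w`.  GMQ over `L` with `κ = e / s`: `e = n s`, `n ∈ ℤ`, `n ≠ 0`.  So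
`c = s ^ 2 = (e / n) ^ 2` in `L`, hence in `k`. -/
def StCSQ : Prop :=
  ∀ (F : Type) [Field F] [CharZero F] (c : RatFunc F) (w g : RatFunc (RatFunc F)), c ≠ 0 → g ≠ 0 →
  wei (RatFunc.X : RatFunc F) RatFunc.X RatFunc.X * wei (RatFunc.X : RatFunc F) RatFunc.X w =
    RatFunc.C c * g ^ 2 → IsSquare c

/-- **UMS** (separation of variables; hypotheses ALP, BET).  The first half of the proof of StUMN. -/
def StUMS : Prop :=
  ∀ (F K : Type) [Field F] [Field K] [CharZero K] [Algebra F K] (I : Type) (X : I → K)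
    (pd : I → Derivation ℤ K K) (deg : I → K → ℤ) (lc : I → K → K) (J : Fin 3 → Finset I)
    (rho : Fin 3 → I) (a b w : Fin 3 → K), VF F K I X pd deg lc → Setup F K I X pd J rho a b w →
  ∀ l y, y ∉ J l → y ≠ rho l → pd y (w l) = 0

/-- **RS1** (rational functions of one variable; no hypothesis).  Proof.  As for StEMC: divide by a gcd;
for coprime `P`, `Q` and `y ≠ i`: `Q ∣ pderiv y Q`, so `pderiv y Q = 0`, `pderiv y P = 0`.  So `P`, `Q`
involve only the variable `i`. -/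
def StRS1 : Prop :=
  ∀ (F : Type) [Field F] [CharZero F] (I : Type) (i : I) (P Q : MvPolynomial I F), Q ≠ 0 →
  (∀ y, y ≠ i → MvPolynomial.pderiv y P * Q = P * MvPolynomial.pderiv y Q) →
  ∃ P0 Q0 : F[X], Q0 ≠ 0 ∧
    P * Polynomial.aeval (MvPolynomial.X i : MvPolynomial I F) Q0 =
      Q * Polynomial.aeval (MvPolynomial.X i : MvPolynomial I F) P0

/-- the value of `x ^ 3 + j x + j` in `F(j)(x_1, ..., x_r, T)` -/
noncomputable def gj (F : Type) [Field F] (I : Type) (x : RF (RatFunc F) I) : RF (RatFunc F) I :=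
  x ^ 3 + rc I (RatFunc.X : RatFunc F) * x + rc I (RatFunc.X : RatFunc F)

/-- **UJV** (hypotheses VFR, UMN, UMS, RS1, CSQ).  Proof.  `k = RatFunc F`.  For the index `i` choose two
more indices, and the setup `J = ∅`, `a = b = j` in the field of VFR for `k` and `Fin r ⊕ T`, as in the
proof of StUFX.  UMN: `c * (f(x_i) f(u_i)) = q ^ 2` with `c ∈ k`, `c ≠ 0`.  UMS: `pd y (u_i) = 0` for all
variables `y` other than `x_i`; then the same for `q` (`2 q pd y q = 0`, `q ≠ 0`).  By RS1 (write `u_i`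
and `q` as quotients of polynomials; `pd y` corresponds to `pderiv y`) `u_i = ι w` and `q = ι g`, where
`ι : RatFunc k →+* K` maps `X` to `x_i`.  `ι` is injective:
`wei j j X * wei j j w = C c⁻¹ * g ^ 2 = C c * (C c⁻¹ * g) ^ 2`.  CSQ: `c` is a square. -/
def StUJV : Prop :=
  ∀ (F : Type) [Field F] [CharZero F] (r : ℕ) (T : Type), 3 ≤ r →
  ∀ u : Fin r → RF (RatFunc F) (Fin r ⊕ T),
  (∀ i j, i ≠ j →
    gj F _ (rv (RatFunc F) (Sum.inl i)) * gj F _ (u i) *
      (gj F _ (rv (RatFunc F) (Sum.inl j)) * gj F _ (u j)) ≠ 0 ∧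
    IsSquare (gj F _ (rv (RatFunc F) (Sum.inl i)) * gj F _ (u i) *
      (gj F _ (rv (RatFunc F) (Sum.inl j)) * gj F _ (u j)))) →
  ∀ i, IsSquare (gj F _ (rv (RatFunc F) (Sum.inl i)) * gj F _ (u i))

/-- **ADI** (infinitely many points; hypotheses DSC, LAM).  Proof.  In `RatFunc k` put `U 0 = X`,
`U (n + 1) = (U ^ 4 - 2 a U ^ 2 - 8 b U + a ^ 2) / (4 wei a b U)` for `U = U n`.  Over
`L = AlgebraicClosure k` (LAM) `Dbl a b (U (n + 1)) (U n)`; inductively `U n` is not constant (if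
`U (n + 1)` is a constant `c`, then `U n` is a root of a polynomial `x ^ 4 - ... - 4 c (x ^ 3 + ..)` with
coefficients in `L`, so constant; `wei a b (U n) ≠ 0` for the same reason), and DSC gives:
`wei a b (U (n + 1)) * wei a b (U n)` is a square and `dg (U (n + 1)) = 4 * dg (U n)`, so the `U n` are
pairwise different.  The first fact already holds over `k`: with
`G = Y ^ 6 + 5 a Y ^ 4 + 20 b Y ^ 3 - 5 a ^ 2 Y ^ 2 - 4 a b Y - 8 b ^ 2 - a ^ 3`, `Y = U n`:
`wei a b (U (n + 1)) = G ^ 2 / (64 (wei a b Y) ^ 3)`.  So `wei a b X * wei a b (U n)` is a square for all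
`n` (induction).  Apply the injective homomorphism `ι : RatFunc k →+* RF k I`, `X ↦ rv i`. -/
def StADI : Prop :=
  ∀ (k : Type) [Field k] [CharZero k] (a b : k), 4 * a ^ 3 + 27 * b ^ 2 ≠ 0 → ∀ (I : Type) (i : I),
  {p : RF k I × RF k I | p.2 ^ 2 = (rv k i ^ 3 + rc I a * rv k i + rc I b) *
    (p.1 ^ 3 + rc I a * p.1 + rc I b)}.Infinite

end Pool.Agent.Helper1.RK
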