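import Pool.Agent.Helper1.RK.AllE
import Pool.Agent.Helper1.RK.StF
import Pool.Agent.Helper82.RK.M_EXI
import Pool.Agent.Helper44.RK.M_POL
import Pool.Agent.Helper76.RK.M_GMN
import Pool.Agent.Helper84.RK.M_ADF
import Pool.Agent.Helper64.RK.M_GMQ
import Pool.Agent.Helper66.RK.M_OMG
import Pool.Agent.Helper94.RK.M_NRT
import Pool.Agent.Helper51.RK.M_CSQ
import Pool.Agent.Helper38.RK.M_UMS
import Pool.Agent.Helper48.RK.M_RS1
import Pool.Agent.Helper5.RK.M_UJV
import Pool.Agent.Helper24.RK.M_ADI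

/-!
# Project RK (MP_de00bc_nt): the statements of part F hold
-/

set_option autoImplicit false

namespace Pool.Agent.Helper1.RK

theorem hEXI : StEXI := Pool.Agent.Helper82.RK.pEXI hDER

theorem hPOL : StPOL := Pool.Agent.Helper44.RK.pPOL hORD hREG hDER hLCD hTOP

theorem hGMN : StGMN := Pool.Agent.Helper76.RK.pGMN hEXI hPOL hORD hREG hFIN hDER hLCD hTOP

theorem hADF : StADF := Pool.Agent.Helper84.RK.pADF hDER

theorem hGMQ : StGMQ := Pool.Agent.Helper64.RK.pGMQ hGMN hADF hPOL hTOP hDER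

theorem hOMG : StOMG := Pool.Agent.Helper66.RK.pOMG hORD hREG hFIN hDER hLD hIOT hTRN

theorem hNRT : StNRT := Pool.Agent.Helper94.RK.pNRT

theorem hCSQ : StCSQ := Pool.Agent.Helper51.RK.pCSQ hOMG hGMQ hNRT hDXT hLAM hDER hTOP

theorem hUMS : StUMS := Pool.Agent.Helper38.RK.pUMS hALP hBET

theorem hRS1 : StRS1 := Pool.Agent.Helper48.RK.pRS1

theorem hUJV : StUJV := Pool.Agent.Helper5.RK.pUJV hVFR hUMN hUMS hRS1 hCSQ

theorem hADI : StADI := Pool.Agent.Helper24.RK.pADI hDSC hLAM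

end Pool.Agent.Helper1.RK
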