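import Mathlib

/-!
# Project RK (MP_de00bc_nt): parametric good tuples.  Definitions

`L` is a field, `RatFunc L` the field of rational functions in one variable over `L`.
Everything is about orders of rational functions at points `p : L` and about derivations of
`RatFunc L`.  The point at infinity is treated through the automorphism `X ↦ X⁻¹`.
-/

set_option autoImplicit false

namespace Pool.Agent.Helper1.RK

open Polynomial

section

variable {L : Type} [Field L]

/-- the order of `g` at the point `p` (junk value `0` for `g = 0`) -/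
noncomputable def ord (p : L) (g : RatFunc L) : ℤ :=
  (g.num.rootMultiplicity p : ℤ) - (g.denom.rootMultiplicity p : ℤ)

/-- `g` has no pole at `p` -/
def Reg (p : L) (g : RatFunc L) : Prop := g.denom.eval p ≠ 0

/-- the value of `g` at `p` (meaningful if `Reg p g`) -/
noncomputable def ev (p : L) (g : RatFunc L) : L := g.num.eval p / g.denom.eval p

/-- `g` is a constant -/
def Cst (g : RatFunc L) : Prop := ∃ a : L, g = RatFunc.C a

/-- the degree of the rational function `g` as a map of the projective line -/
noncomputable def dg (g : RatFunc L) : ℕ := max g.num.natDegree g.denom.natDegree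

/-- `D` is a derivation of `RatFunc L` extending the derivation `d` of `L`, with `D X = V` -/
def Over (d : Derivation ℤ L L) (V : RatFunc L) (D : Derivation ℤ (RatFunc L) (RatFunc L)) : Prop :=
  (∀ a : L, D (RatFunc.C a) = RatFunc.C (d a)) ∧ D RatFunc.X = V

/-- the Legendre cubic `x (x - 1) (x - l)` -/
noncomputable def leg (l : L) (u : RatFunc L) : RatFunc L := u * (u - 1) * (u - RatFunc.C l)

/-- `h` is not regular at `τ` -/
def BadP (h : RatFunc L) (τ : L) : Prop := ¬ Reg τ h

/-- `h` is regular at `τ`, but the vector field `h` is not tangent to the point `τ`, which is a point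
of odd order of `leg l U` -/
def BadH (d : Derivation ℤ L L) (l : L) (h U : RatFunc L) (τ : L) : Prop :=
  Reg τ h ∧ ev τ h ≠ d τ ∧ Odd (ord τ (leg l U))

/-- A configuration: `r` rational functions `u i` whose values `leg (lam i) (u i)` all lie in one
class modulo squares, commuting derivations `dl k` of `L` with `dl k (lam l) = 0` exactly for
`l ≠ k`, and commuting derivations `D k` of `RatFunc L` above them such that `D k` kills all `u i`
with `i ≠ k`. -/
structure Cfg {r : ℕ} (dl : Fin r → Derivation ℤ L L) (lam : Fin r → L) (u : Fin r → RatFunc L)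
    (D : Fin r → Derivation ℤ (RatFunc L) (RatFunc L)) : Prop where
  comm : ∀ k l a, dl k (dl l a) = dl l (dl k a)
  one : ∀ k, dl k (lam k) ≠ 0
  zero : ∀ k l, k ≠ l → dl k (lam l) = 0
  lift : ∀ k a, D k (RatFunc.C a) = RatFunc.C (dl k a)
  kill : ∀ k i, i ≠ k → D k (u i) = 0
  nc : ∀ i, ¬ Cst (u i)
  sq : ∀ i j, IsSquare (leg (lam i) (u i) * leg (lam j) (u j))
  dcomm : ∀ k l g, D k (D l g) = D l (D k g)

/-- the functions killed by all `D l` with `l ≠ k` -/
def KK {r : ℕ} (D : Fin r → Derivation ℤ (RatFunc L) (RatFunc L)) (k : Fin r) : Set (RatFunc L) :=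
  {w | ∀ l, l ≠ k → D l w = 0}

/-- `φ X` lies in `KK D k`, and every element of `KK D k` is a rational function of `φ X` with
coefficients in `L` -/
structure Gen {r : ℕ} (D : Fin r → Derivation ℤ (RatFunc L) (RatFunc L)) (k : Fin r)
    (φ : RatFunc L →ₐ[L] RatFunc L) : Prop where
  mem : φ RatFunc.X ∈ KK D k
  top : ∀ w ∈ KK D k, ∃ g, φ g = w

/-- The functions `u k` and `D k (φ X)` in the coordinate `φ X`; at infinity the coordinate is good:
no pole of the vector field and no point of odd order. -/
structure GC {r : ℕ} (lam : Fin r → L) (u : Fin r → RatFunc L)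
    (D : Fin r → Derivation ℤ (RatFunc L) (RatFunc L)) (k : Fin r)
    (φ : RatFunc L →ₐ[L] RatFunc L) (U h : RatFunc L) (ι : RatFunc L ≃ₐ[L] RatFunc L) : Prop where
  gen : Gen D k φ
  hu : φ U = u k
  hh : φ h = D k (φ RatFunc.X)
  regInf : Reg 0 (RatFunc.X ^ 2 * ι h)
  evenInf : Even (ord 0 (leg (lam k) (ι U)))

/-- no vector field `D k` has a pole at infinity -/
def NoInf {r : ℕ} (D : Fin r → Derivation ℤ (RatFunc L) (RatFunc L))
    (ι : RatFunc L ≃ₐ[L] RatFunc L) : Prop :=
  ∀ k, Reg 0 (RatFunc.X ^ 2 * ι (D k RatFunc.X))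

end

end Pool.Agent.Helper1.RK
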