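import Pool.Agent.Helper1.RK.Defs

/-!
# Project RK (MP_de00bc_nt): definitions of part C (three generic cubics)
-/

set_option autoImplicit false

namespace Pool.Agent.Helper1.RK

open Polynomial

section

variable {L : Type} [Field L]

/-- the cubic `x ^ 3 + a x + b` -/
noncomputable def wei (a b : L) (u : RatFunc L) : RatFunc L :=
  u ^ 3 + RatFunc.C a * u + RatFunc.C b

/-- `W` is the abscissa of the double of a point with abscissa `Y` on `y ^ 2 = x ^ 3 + a x + b` -/
def Dbl (a b : L) (W Y : RatFunc L) : Prop :=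
  Y ^ 4 - 2 * RatFunc.C a * Y ^ 2 - 8 * RatFunc.C b * Y + RatFunc.C a ^ 2 = 4 * W * wei a b Y

/-- `S` is the automorphism of `RatFunc L` which applies `σ` to the coefficients -/
def Ext (σ : L ≃+* L) (S : RatFunc L ≃+* RatFunc L) : Prop :=
  S RatFunc.X = RatFunc.X ∧ ∀ a, S (RatFunc.C a) = RatFunc.C (σ a)

/-- `τ` is the only point of odd order of `g` which is not killed by `d` -/
def Uni (d : Derivation ℤ L L) (g : RatFunc L) (τ : L) : Prop :=
  d τ ≠ 0 ∧ Odd (ord τ g) ∧ ∀ τ', d τ' ≠ 0 → Odd (ord τ' g) → τ' = τ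

end

end Pool.Agent.Helper1.RK
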