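import Pool.Agent.Helper1.RK.AllF

/-!
# Project RK (MP_de00bc_nt): auxiliary facts for the last hand-in
-/

set_option autoImplicit false

namespace Pool.Agent.Helper1.RK

open Polynomial

/-- the cubic `d (X ^ 3 + a X + b)` is separable -/
theorem sep_cubic {K : Type} [Field K] (d a b : K) (hd : d ≠ 0) (h : 4 * a ^ 3 + 27 * b ^ 2 ≠ 0) :
    (C d * (X ^ 3 + C a * X + C b) : K[X]).natDegree = 3 ∧
      (C d * (X ^ 3 + C a * X + C b) : K[X]).Separable := by
  have hdeg : (X ^ 3 + C a * X + C b : K[X]).natDegree = 3 := by compute_degree!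
  constructor
  · rw [natDegree_C_mul hd]
    exact hdeg
  · have h1 : (X ^ 3 + C a * X + C b : K[X]).Separable := by
      refine ⟨C (4 * a ^ 3 + 27 * b ^ 2)⁻¹ * (-(18 * C a * X - 27 * C b)),
        C (4 * a ^ 3 + 27 * b ^ 2)⁻¹ * (6 * C a * X ^ 2 - 9 * C b * X + 4 * C a ^ 2), ?_⟩
      have h2 : derivative (X ^ 3 + C a * X + C b : K[X]) = 3 * X ^ 2 + C a := by
        have e3 : (C (3 : K) : K[X]) = 3 := map_ofNat C 3
        rw [derivative_add, derivative_add, derivative_C, derivative_X_pow, derivative_C_mul,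
          derivative_X, mul_one, add_zero]
        norm_num [e3]
      have h3 : (C (4 * a ^ 3 + 27 * b ^ 2)⁻¹ : K[X]) * (4 * C a ^ 3 + 27 * C b ^ 2) = 1 := by
        have e4 : (C (4 : K) : K[X]) = 4 := map_ofNat C 4
        have e27 : (C (27 : K) : K[X]) = 27 := map_ofNat C 27
        have : (4 * C a ^ 3 + 27 * C b ^ 2 : K[X]) = C (4 * a ^ 3 + 27 * b ^ 2) := by
          rw [map_add, map_mul, map_mul, map_pow, map_pow, e4, e27]
        rw [this, ← C_mul, inv_mul_cancel₀ h, C_1]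
      rw [h2]
      linear_combination h3
    have h4 : IsUnit (C d : K[X]) := isUnit_C.2 (isUnit_iff_ne_zero.2 hd)
    exact h1.unit_mul h4

/-- the variable is not a root of `x ^ 3 + j x + j` -/
theorem gj_ne (F : Type) [Field F] (I : Type) (i : I) : gj F I (rv (RatFunc F) i) ≠ 0 := by
  intro h
  have h1 : algebraMap (MvPolynomial I (RatFunc F)) (RF (RatFunc F) I)
      (MvPolynomial.X i ^ 3 + MvPolynomial.C (RatFunc.X : RatFunc F) * MvPolynomial.X i +
        MvPolynomial.C (RatFunc.X : RatFunc F)) = 0 := by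
    rw [map_add, map_add, map_mul, map_pow]
    exact h
  have h2 := (IsFractionRing.injective (MvPolynomial I (RatFunc F)) (RF (RatFunc F) I))
    (h1.trans (map_zero _).symm)
  have h3 := congrArg (MvPolynomial.eval (fun _ => (0 : RatFunc F))) h2
  simp at h3
  exact RatFunc.X_ne_zero h3

theorem rc_inj {F : Type} [Field F] (I : Type) {c : F} (h : rc I c = 0) : c = 0 := by
  have h2 := (IsFractionRing.injective (MvPolynomial I F) (RF F I)) (h.trans (map_zero _).symm)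
  simpa using h2

theorem disc_ne (F : Type) [Field F] [CharZero F] (I : Type) :
    4 * rc I (RatFunc.X : RatFunc F) ^ 3 + 27 * rc I (RatFunc.X : RatFunc F) ^ 2 ≠ 0 := by
  intro h
  have h1 : rc I (4 * (RatFunc.X : RatFunc F) ^ 3 + 27 * (RatFunc.X : RatFunc F) ^ 2) = 0 := by
    rw [← h]
    unfold rc
    have e4 : (MvPolynomial.C (4 : RatFunc F) : MvPolynomial I (RatFunc F)) = 4 := map_ofNat _ 4
    have e27 : (MvPolynomial.C (27 : RatFunc F) : MvPolynomial I (RatFunc F)) = 27 := map_ofNat _ 27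
    rw [map_add, map_mul, map_mul, map_pow, map_pow, e4, e27, map_add, map_mul, map_mul, map_pow,
      map_pow, map_ofNat, map_ofNat]
  have h2 := rc_inj I h1
  have h3 : (algebraMap F[X] (RatFunc F)) (4 * X ^ 3 + 27 * X ^ 2) = 0 := by
    rw [← h2, map_add, map_mul, map_mul, map_pow, map_pow, map_ofNat, map_ofNat, RatFunc.algebraMap_X]
  have h4 := (RatFunc.algebraMap_injective F) (h3.trans (map_zero _).symm)
  have h5 := congrArg (fun p => Polynomial.eval 1 p) h4
  norm_num at h5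

/-- two of the cubics have a good pair, if there is one more variable -/
theorem pair (F : Type) [Field F] [CharZero F] (r : ℕ) (T : Type) (t : T) (i j : Fin r) :
    ∃ u v : RF (RatFunc F) (Fin r ⊕ T),
      ¬ IsSquare (gj F _ (rv (RatFunc F) (Sum.inl i)) * gj F _ u) ∧
      ¬ IsSquare (gj F _ (rv (RatFunc F) (Sum.inl j)) * gj F _ v) ∧
      gj F _ (rv (RatFunc F) (Sum.inl i)) * gj F _ u *
        (gj F _ (rv (RatFunc F) (Sum.inl j)) * gj F _ v) ≠ 0 ∧
      IsSquare (gj F _ (rv (RatFunc F) (Sum.inl i)) * gj F _ u *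
        (gj F _ (rv (RatFunc F) (Sum.inl j)) * gj F _ v)) := by
  let I0 : Type := {m : Fin r ⊕ T // m ≠ Sum.inr t}
  obtain ⟨θ, h1, h2, h3⟩ : ∃ θ : RF (RatFunc F) (Fin r ⊕ T) ≃+* RatFunc (RF (RatFunc F) I0),
      θ (rv (RatFunc F) (Sum.inr t)) = RatFunc.X ∧
      (∀ (m : Fin r ⊕ T) (h : m ≠ Sum.inr t),
        θ (rv (RatFunc F) m) = RatFunc.C (rv (RatFunc F) (⟨m, h⟩ : I0))) ∧
      ∀ c, θ (rc (Fin r ⊕ T) c) = RatFunc.C (rc I0 c) := hEM1 (RatFunc F) (Fin r ⊕ T) (Sum.inr t)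
  let e : Fin r → I0 := fun m => ⟨Sum.inl m, Sum.inl_ne_inr⟩
  let K0 := RF (RatFunc F) I0
  let jc : K0 := rc I0 (RatFunc.X : RatFunc F)
  have hjc : jc ≠ 0 := fun h => RatFunc.X_ne_zero (rc_inj I0 h)
  have : CharZero K0 := by
    have hinj : Function.Injective (algebraMap (MvPolynomial I0 (RatFunc F)) K0) :=
      IsFractionRing.injective _ _
    exact charZero_of_injective_algebraMap hinj
  let c : Fin 2 → I0 := ![e i, e j]
  let d : Fin 2 → K0 := fun m => gj F I0 (rv (RatFunc F) (c m))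
  have hd : ∀ m, d m ≠ 0 := fun m => gj_ne F I0 (c m)
  obtain ⟨u, hu1, hu2, hu3, hu4⟩ := hTWO K0 (fun m => jc * d m ^ 2) (fun m => jc * d m ^ 3)
    (fun m => mul_ne_zero hjc (pow_ne_zero _ (hd m)))
    (fun m => mul_ne_zero hjc (pow_ne_zero _ (hd m)))
    (fun m => by
      have : 4 * (jc * d m ^ 2) ^ 3 + 27 * (jc * d m ^ 3) ^ 2 =
          (4 * jc ^ 3 + 27 * jc ^ 2) * d m ^ 6 := by ring
      rw [this]
      exact mul_ne_zero (disc_ne F I0) (pow_ne_zero _ (hd m)))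
  have hθg : ∀ x : RF (RatFunc F) (Fin r ⊕ T), θ (gj F _ x) =
      θ x ^ 3 + RatFunc.C jc * θ x + RatFunc.C jc := by
    intro x
    unfold gj
    rw [map_add, map_add, map_mul, map_pow, h3]
  have hθv : ∀ m : Fin r, θ (gj F _ (rv (RatFunc F) (Sum.inl m))) =
      RatFunc.C (gj F I0 (rv (RatFunc F) (e m))) := by
    intro m
    rw [hθg, h2 (Sum.inl m) Sum.inl_ne_inr]
    unfold gj
    rw [map_add, map_add, map_mul, map_pow]
  -- the values
  let w : Fin 2 → RF (RatFunc F) (Fin r ⊕ T) := fun m => θ.symm (u m / RatFunc.C (d m))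
  have hval : ∀ m, RatFunc.C (d m) * (θ (gj F _ (w m))) =
      wei (jc * d m ^ 2) (jc * d m ^ 3) (u m) / RatFunc.C (d m) ^ 2 := by
    intro m
    have hCd : RatFunc.C (d m) ≠ 0 := by
      intro h
      exact hd m (RatFunc.C_injective (h.trans (map_zero _).symm))
    rw [hθg]
    simp only [w, RingEquiv.apply_symm_apply]
    unfold wei
    rw [map_mul, map_mul, map_pow, map_pow]
    field_simp
  have hsq : ∀ (A : RatFunc K0) (x : RatFunc K0), x ≠ 0 → (IsSquare (A / x ^ 2) ↔ IsSquare A) := by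
    intro A x hx
    constructor
    · rintro ⟨y, hy⟩
      refine ⟨y * x, ?_⟩
      rw [div_eq_iff (pow_ne_zero _ hx)] at hy
      rw [hy]
      ring
    · rintro ⟨y, hy⟩
      refine ⟨y / x, ?_⟩
      rw [hy]
      field_simp
  have hCd : ∀ m, RatFunc.C (d m) ≠ 0 := by
    intro m h
    exact hd m (RatFunc.C_injective (h.trans (map_zero _).symm))
  have htr : ∀ x : RF (RatFunc F) (Fin r ⊕ T), IsSquare (θ x) ↔ IsSquare x := by
    intro x
    constructor
    · rintro ⟨y, hy⟩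
      refine ⟨θ.symm y, ?_⟩
      apply θ.injective
      rw [hy, map_mul, RingEquiv.apply_symm_apply]
    · rintro ⟨y, hy⟩
      exact ⟨θ y, by rw [hy, map_mul]⟩
  have e0 : θ (gj F _ (rv (RatFunc F) (Sum.inl i)) * gj F _ (w 0)) =
      wei (jc * d 0 ^ 2) (jc * d 0 ^ 3) (u 0) / RatFunc.C (d 0) ^ 2 := by
    rw [map_mul, hθv, ← hval 0]
    rfl
  have e1 : θ (gj F _ (rv (RatFunc F) (Sum.inl j)) * gj F _ (w 1)) =
      wei (jc * d 1 ^ 2) (jc * d 1 ^ 3) (u 1) / RatFunc.C (d 1) ^ 2 := by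
    rw [map_mul, hθv, ← hval 1]
    rfl
  refine ⟨w 0, w 1, ?_, ?_, ?_, ?_⟩
  · rw [← htr, e0, hsq _ _ (hCd 0)]
    exact hu4 0
  · rw [← htr, e1, hsq _ _ (hCd 1)]
    exact hu4 1
  · intro h
    have := congrArg θ h
    rw [map_mul, e0, e1, map_zero] at this
    exact mul_ne_zero (div_ne_zero (hu2 0) (pow_ne_zero _ (hCd 0)))
      (div_ne_zero (hu2 1) (pow_ne_zero _ (hCd 1))) this
  · rw [← htr, map_mul, e0, e1]
    have : wei (jc * d 0 ^ 2) (jc * d 0 ^ 3) (u 0) / RatFunc.C (d 0) ^ 2 *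
        (wei (jc * d 1 ^ 2) (jc * d 1 ^ 3) (u 1) / RatFunc.C (d 1) ^ 2) =
        (wei (jc * d 0 ^ 2) (jc * d 0 ^ 3) (u 0) * wei (jc * d 1 ^ 2) (jc * d 1 ^ 3) (u 1)) /
          (RatFunc.C (d 0) * RatFunc.C (d 1)) ^ 2 := by
      field_simp
    rw [this, hsq _ _ (mul_ne_zero (hCd 0) (hCd 1))]
    exact hu3 0 1

end Pool.Agent.Helper1.RK
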