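import Pool.Agent.Helper1.RK.Defs

/-!
# Project RK (MP_de00bc_nt): statements of part A (rational functions), with complete proofs

Write `v = X - C p` for the coordinate at `p`.  Every `g ≠ 0` is `v ^ n * h` with `n : ℤ` and `h` a
quotient of two polynomials which do not vanish at `p`; then `ord p g = n`.
-/

set_option autoImplicit false

namespace Pool.Agent.Helper1.RK

open Polynomial

/-- **ORD** (order calculus).  Proof.  `num` and `denom` are coprime, `g = num / denom`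
(`RatFunc.num_div_denom`).  First show: if `g = a / b` with polynomials `a, b ≠ 0` then
`ord p g = rootMultiplicity p a - rootMultiplicity p b` (`a * denom = num * b`,
`rootMultiplicity_mul`).  Then everything is the corresponding fact for polynomials
(`rootMultiplicity_mul`, `rootMultiplicity_add` for sums with a common denominator,
`rootMultiplicity_X_sub_C`).  For `g + h` with `ord g < ord h`: `min` gives `≥`, and applying the sum
rule to `g = (g + h) + (-h)` gives `≤`. -/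
def StORD : Prop :=
  ∀ (L : Type) [Field L] (p : L),
  (∀ a b : L[X], a ≠ 0 → b ≠ 0 → ord p (algebraMap L[X] (RatFunc L) a / algebraMap L[X] (RatFunc L) b)
    = (a.rootMultiplicity p : ℤ) - b.rootMultiplicity p) ∧
  (∀ g h : RatFunc L, g ≠ 0 → h ≠ 0 → ord p (g * h) = ord p g + ord p h) ∧
  (∀ g : RatFunc L, ord p g⁻¹ = - ord p g) ∧
  (∀ g : RatFunc L, ord p (-g) = ord p g) ∧
  (∀ (g : RatFunc L) (n : ℕ), ord p (g ^ n) = n * ord p g) ∧
  (∀ g h : RatFunc L, g ≠ 0 → h ≠ 0 → g + h ≠ 0 → min (ord p g) (ord p h) ≤ ord p (g + h)) ∧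
  (∀ g h : RatFunc L, g ≠ 0 → h ≠ 0 → ord p g < ord p h → g + h ≠ 0 ∧ ord p (g + h) = ord p g) ∧
  (∀ a : L, ord p (RatFunc.C a) = 0) ∧ ord p (RatFunc.X - RatFunc.C p) = 1 ∧
  (∀ q : L, q ≠ p → ord p (RatFunc.X - RatFunc.C q) = 0)

/-- **REG** (regular functions and their values).  Proof.  `Reg p g` means `denom` does not vanish at
`p`; if `g = a / b` with `b p ≠ 0` then `denom ∣ b`, so `Reg p g` and `ev p g = a p / b p`.  Sums,
products: take `a / b` from `num / denom`.  If `denom p = 0` then `num p ≠ 0` (coprime), so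
`ord p g < 0`; if `denom p ≠ 0` then `ord p g = rootMultiplicity p num ≥ 0` (for `g ≠ 0`). -/
def StREG : Prop :=
  ∀ (L : Type) [Field L] (p : L),
  (∀ a b : L[X], b.eval p ≠ 0 → Reg p (algebraMap L[X] (RatFunc L) a / algebraMap L[X] (RatFunc L) b) ∧
    ev p (algebraMap L[X] (RatFunc L) a / algebraMap L[X] (RatFunc L) b) = a.eval p / b.eval p) ∧
  (∀ g : RatFunc L, Reg p g ↔ (g = 0 ∨ 0 ≤ ord p g)) ∧
  (∀ g : RatFunc L, ¬ Reg p g ↔ (g ≠ 0 ∧ ord p g < 0)) ∧
  (∀ g : RatFunc L, Reg p g → (ev p g = 0 ↔ (g = 0 ∨ 1 ≤ ord p g))) ∧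
  (∀ a : L, Reg p (RatFunc.C a) ∧ ev p (RatFunc.C a) = a) ∧
  (Reg p (RatFunc.X : RatFunc L) ∧ ev p (RatFunc.X : RatFunc L) = p) ∧
  (∀ g h : RatFunc L, Reg p g → Reg p h → Reg p (g + h) ∧ ev p (g + h) = ev p g + ev p h ∧
    Reg p (g * h) ∧ ev p (g * h) = ev p g * ev p h ∧ Reg p (g - h) ∧ ev p (g - h) = ev p g - ev p h) ∧
  (∀ g : RatFunc L, Reg p g → Reg p (-g) ∧ ev p (-g) = - ev p g) ∧
  (∀ g : RatFunc L, Reg p g → ev p g ≠ 0 → Reg p g⁻¹ ∧ ev p g⁻¹ = (ev p g)⁻¹)

/-- **FIN** (functions without poles are polynomials; finiteness).  Proof.  If `denom` has no root then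
it is constant (`IsAlgClosed`), hence `1` (monic).  The other two: roots of polynomials. -/
def StFIN : Prop :=
  ∀ (L : Type) [Field L] [IsAlgClosed L],
  (∀ g : RatFunc L, (∀ p, Reg p g) → ∃ P : L[X], g = algebraMap L[X] (RatFunc L) P) ∧
  (∀ g : RatFunc L, {p : L | ¬ Reg p g}.Finite) ∧
  (∀ g : RatFunc L, {p : L | ord p g ≠ 0}.Finite)

/-- **DER** (derivations of `RatFunc L`).  Proof.  Existence: on polynomials the map
`P ↦ ∑ C (d aₙ) X ^ n` is a derivation (`Derivation.mapCoeffs` or directly), compose with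
`algebraMap` and add `V` times the derivative; a derivation `L[X] → RatFunc L` extends to the
fraction field by `D (a / b) = (D a * b - a * D b) / b ^ 2` (well defined, a derivation; Mathlib may
have it for localizations).  Uniqueness: two derivations which agree on `C a` and `X` agree on
polynomials and on quotients.  The formula: both sides are derivations over `d` with value `V` at `X`
(`Dc g + V * Dt g` is a derivation), use uniqueness.  Kernel of `Dt`: if `g = a / b` is in lowest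
terms and `a' b = a b'` then `b ∣ b'`, so `b' = 0`, `b` is constant (`CharZero`), `a' = 0`. -/
def StDER : Prop :=
  ∀ (L : Type) [Field L] [CharZero L],
  (∀ (d : Derivation ℤ L L) (V : RatFunc L), ∃ D, Over d V D) ∧
  (∀ (d : Derivation ℤ L L) (V : RatFunc L) (D D' : Derivation ℤ (RatFunc L) (RatFunc L)),
    Over d V D → Over d V D' → D = D') ∧
  (∀ (d : Derivation ℤ L L) (V : RatFunc L) (D Dc Dt : Derivation ℤ (RatFunc L) (RatFunc L)),
    Over d V D → Over d 0 Dc → Over 0 1 Dt → ∀ g, D g = Dc g + V * Dt g) ∧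
  (∀ Dt : Derivation ℤ (RatFunc L) (RatFunc L), Over 0 1 Dt → ∀ g, Dt g = 0 ↔ Cst g)

/-- **LCD** (local derivation calculus; hypotheses ORD, REG, DER).  Proof.  For a polynomial `P` with
derivative `P'` and `P^d` (`d` applied to the coefficients): `D P = P^d + V P'` and
`d (P p) = P^d p + P' p * d p`, so `ev p (D P) = d (P p) + (ev p V - d p) P' p`; for `g = a / b` with
`b p ≠ 0` use the quotient rule on both sides.  For `g = v ^ n * h` (`n : ℤ`, `h` a unit at `p`):
`D g = n v ^ (n-1) (V - C (d p)) h + v ^ n D h`, where `V - C (d p)` is regular and vanishes at `p` if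
`ev p V = d p`.  For `Dt`: `D g = v ^ (n-1) (n h + v Dt h)` and `n h` is a unit if `n ≠ 0`
(`CharZero`).  The last statement: apply this to `g - C (ev p g)`, which has order `≥ 1`. -/
def StLCD : Prop :=
  ∀ (L : Type) [Field L] [CharZero L] (p : L) (Dt : Derivation ℤ (RatFunc L) (RatFunc L)), Over 0 1 Dt →
  (∀ (d : Derivation ℤ L L) (V : RatFunc L) (D : Derivation ℤ (RatFunc L) (RatFunc L)),
    Over d V D → Reg p V →
    (∀ g, Reg p g → Reg p (D g) ∧ ev p (D g) = d (ev p g) + (ev p V - d p) * ev p (Dt g)) ∧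
    (∀ g, g ≠ 0 → D g ≠ 0 → ord p g - 1 ≤ ord p (D g)) ∧
    (ev p V = d p → ∀ g, g ≠ 0 → D g ≠ 0 → ord p g ≤ ord p (D g))) ∧
  (∀ g, g ≠ 0 → ord p g ≠ 0 → Dt g ≠ 0 ∧ ord p (Dt g) = ord p g - 1) ∧
  (∀ g, ¬ Cst g → Reg p g → 1 ≤ ord p (g - RatFunc.C (ev p g)) ∧
    ord p (Dt g) = ord p (g - RatFunc.C (ev p g)) - 1)

/-- **LD** (the local lemma; hypotheses ORD, REG, LCD).  Proof.  Put `m = ord p (leg l u)`.
(a) `u` regular at `p`, `u p` not in `{0, 1, l}`: `m = 0` and `D u` is regular, so `0 ≤ ord (D u)`.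
(b) `u` regular, `u p = e ∈ {0, 1, l}`: the other two factors are units, so `m = ord (u - e) ≥ 1`, and
`D u = D (u - e)` (`d e = 0`) has order `≥ m - 1`, `≥ m` in the tangent case.
(c) `u` has a pole of order `n ≥ 1`: all three factors have order `-n`, `m = -3 n`, and `D u` has order
`≥ - n - 1`, `≥ - n` in the tangent case; if `m` is odd then `n` is odd.
In each case check `m ≤ 2 ord (D u) + 1` and, if `m` is odd in the tangent case,
`m + 1 ≤ 2 ord (D u)`.  Third statement: in case (a) `m = 0` is even. -/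
def StLD : Prop :=
  ∀ (L : Type) [Field L] [CharZero L] (p l : L) (d : Derivation ℤ L L) (V : RatFunc L)
    (D : Derivation ℤ (RatFunc L) (RatFunc L)) (u : RatFunc L),
  l ≠ 0 → l ≠ 1 → d l = 0 → Over d V D → Reg p V → leg l u ≠ 0 →
  (D u = 0 ∨ ord p (leg l u) ≤ 2 * ord p (D u) + 1) ∧
  (ev p V = d p → Odd (ord p (leg l u)) → D u = 0 ∨ ord p (leg l u) + 1 ≤ 2 * ord p (D u)) ∧
  (Odd (ord p (leg l u)) → ¬ Reg p u ∨ (Reg p u ∧ (ev p u = 0 ∨ ev p u = 1 ∨ ev p u = l)))

/-- **IOT** (automorphisms and substitutions; hypothesis ORD, REG).  Proof.  For `s` not constant the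
`L`-algebra map `L[X] → RatFunc L`, `X ↦ s` is injective (`s` is transcendental,
`RatFunc.transcendental_of_ne_C`), so it extends to `RatFunc L` (`RatFunc.liftAlgHom` or
`IsFractionRing.liftAlgHom`); it is determined by its value at `X`.  For a Moebius `s` the inverse
Moebius function gives the inverse map.  If `φ g` is constant `= C a = φ (C a)` then `g = C a`
(injectivity of field maps).  For `P ≠ 0` of degree `n`: `ι P = X ^ (-n) * P.reverse`, of order `-n`
at `0`. -/
def StIOT : Prop :=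
  ∀ (L : Type) [Field L],
  (∃ ι : RatFunc L ≃ₐ[L] RatFunc L, ι RatFunc.X = RatFunc.X⁻¹) ∧
  (∀ ι : RatFunc L ≃ₐ[L] RatFunc L, ι RatFunc.X = RatFunc.X⁻¹ → (∀ g, ι (ι g) = g) ∧
    (∀ P : L[X], Reg 0 (RatFunc.X⁻¹ ^ 2 * ι (algebraMap L[X] (RatFunc L) P)) → P = 0) ∧
    (∀ P : L[X], Reg 0 (RatFunc.X ^ 2 * ι (algebraMap L[X] (RatFunc L) P)) ↔ P.natDegree ≤ 2)) ∧
  (∀ a b c e : L, a * e - b * c ≠ 0 → ∃ ψ : RatFunc L ≃ₐ[L] RatFunc L,
    ψ RatFunc.X = (RatFunc.C a * RatFunc.X + RatFunc.C b) / (RatFunc.C c * RatFunc.X + RatFunc.C e)) ∧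
  (∀ s : RatFunc L, ¬ Cst s → ∃ φ : RatFunc L →ₐ[L] RatFunc L, φ RatFunc.X = s) ∧
  (∀ φ φ' : RatFunc L →ₐ[L] RatFunc L, φ RatFunc.X = φ' RatFunc.X → φ = φ') ∧
  (∀ φ : RatFunc L →ₐ[L] RatFunc L, (∀ a, φ (RatFunc.C a) = RatFunc.C a) ∧ ∀ g, Cst (φ g) ↔ Cst g)

/-- **TRN** (transport of derivations; hypotheses DER, IOT).  Proof.  (1) `g ↦ D (φ g)` and
`g ↦ φ (E g)` are both derivations along `φ` which agree on `C a` and on `X`; polynomials first, then
quotients (`φ` is injective).  (2) `D' = ψ ∘ D ∘ ψ⁻¹` is a derivation.  (3) `X = ι (X⁻¹)`, so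
`D' X = ι (D X⁻¹) = ι (- V X⁻²) = - X ^ 2 ι V`. -/
def StTRN : Prop :=
  ∀ (L : Type) [Field L] [CharZero L] (d : Derivation ℤ L L),
  (∀ (φ : RatFunc L →ₐ[L] RatFunc L) (V h : RatFunc L) (D E : Derivation ℤ (RatFunc L) (RatFunc L)),
    Over d V D → Over d h E → D (φ RatFunc.X) = φ h → ∀ g, D (φ g) = φ (E g)) ∧
  (∀ (ψ : RatFunc L ≃ₐ[L] RatFunc L) (V : RatFunc L) (D : Derivation ℤ (RatFunc L) (RatFunc L)),
    Over d V D → ∃ D', Over d (ψ (D (ψ.symm RatFunc.X))) D' ∧ ∀ g, D' (ψ g) = ψ (D g)) ∧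
  (∀ (ι : RatFunc L ≃ₐ[L] RatFunc L), ι RatFunc.X = RatFunc.X⁻¹ → ∀ (V : RatFunc L)
    (D D' : Derivation ℤ (RatFunc L) (RatFunc L)), Over d V D → (∀ g, D' (ι g) = ι (D g)) →
    Over d (- RatFunc.X ^ 2 * ι V) D')

/-- **CMP** (orders of composed functions; hypotheses ORD, REG).  Here `φ g` is `g` composed with the
function `s = φ X`, and `s p = τ`.  Proof.  `s - τ` is not `0` (`φ` is injective) and vanishes at `p`,
so `e = ord p (s - τ) ≥ 1`.  For a polynomial `P` with `P τ ≠ 0`, `φ P` is regular at `p` with value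
`P τ ≠ 0`.  Write `g = (X - τ) ^ n * a / b` with `a τ, b τ ≠ 0`: `φ g = (s - τ) ^ n * φ a / φ b`. -/
def StCMP : Prop :=
  ∀ (L : Type) [Field L] (p τ : L) (φ : RatFunc L →ₐ[L] RatFunc L),
  Reg p (φ RatFunc.X) → ev p (φ RatFunc.X) = τ →
  1 ≤ ord p (φ RatFunc.X - RatFunc.C τ) ∧
  (∀ g, g ≠ 0 → ord p (φ g) = ord p (φ RatFunc.X - RatFunc.C τ) * ord τ g) ∧
  (∀ g, Reg τ g → Reg p (φ g) ∧ ev p (φ g) = ev τ g) ∧
  (∀ g, ¬ Reg τ g → ¬ Reg p (φ g))

/-- **DGF** (the fibre of a rational function; hypotheses ORD, REG).  Proof.  `s = a / b` in lowest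
terms, `N = a - C τ * b ≠ 0`, a polynomial of degree `≤ dg s`.  For `p : L`: `N p = 0` iff `b p ≠ 0`
and `a p / b p = τ`, and then `ord p (s - τ) = rootMultiplicity p N`.  If `N.natDegree = dg s`, take
for `B` the set of roots; `N` splits, so the multiplicities add up to the degree.  If
`N.natDegree < dg s`, then either `deg a = deg b` and the quotient of the leading coefficients is
`τ`, or `deg a < deg b` and `τ = 0`; in both cases `ι s` is regular at `0` with value `τ` (write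
`ι s = X ^ (deg b - deg a) * a.reverse / b.reverse`), which is excluded. -/
def StDGF : Prop :=
  ∀ (L : Type) [Field L] [IsAlgClosed L] (ι : RatFunc L ≃ₐ[L] RatFunc L), ι RatFunc.X = RatFunc.X⁻¹ →
  ∀ (s : RatFunc L) (τ : L), ¬ Cst s → ¬ (Reg 0 (ι s) ∧ ev 0 (ι s) = τ) →
  ∃ B : Finset L, (∀ p, p ∈ B ↔ (Reg p s ∧ ev p s = τ)) ∧
    ∑ p ∈ B, ord p (s - RatFunc.C τ) = (dg s : ℤ)

/-- **DGR** (Riemann-Hurwitz; hypotheses ORD, REG, DER).  Proof.  `s = a / b` in lowest terms,
`W = a' b - a b' ≠ 0` (`s` is not constant), `Dt s = W / b ^ 2`, so `ord p (Dt s) =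
rootMultiplicity p W` if `b p ≠ 0`, and the sum is at most `deg W`.  With `μ = dg s`: if `deg a ≠ deg b`
then `deg a + deg b ≤ 2 μ - 1` and `deg W ≤ deg a + deg b - 1`; if `deg a = deg b = μ` the coefficients
of degree `2 μ - 1` of `a' b` and `a b'` are equal, so `deg W ≤ 2 μ - 2`. -/
def StDGR : Prop :=
  ∀ (L : Type) [Field L] [CharZero L] (Dt : Derivation ℤ (RatFunc L) (RatFunc L)), Over 0 1 Dt →
  ∀ (s : RatFunc L) (B : Finset L), ¬ Cst s → (∀ p ∈ B, Reg p s) →
    ∑ p ∈ B, ord p (Dt s) ≤ 2 * (dg s : ℤ) - 2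

/-- **DGM** (degrees of composed functions; hypothesis IOT).  Proof.  (1) clear.  (2) `s = φ X = a / b`,
`g = A / B` in lowest terms of degree `n = dg g`; `φ g = (homogenized A at (a, b), degree n) /
(homogenized B at (a, b), degree n)`, these two polynomials are coprime (`A`, `B` coprime and `a`, `b`
coprime) and the maximum of their degrees is `n * dg s` (look at the leading coefficients; a common
cancellation would give a common zero of `A` and `B` or of both leading coefficients at infinity).  Or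
use `RatFunc.finrank_eq_max_natDegree` and the tower law for `L(φ g) ⊆ L(s) ⊆ L(X)`, transporting
`[L(s) : L(φ g)]` to `[L(X) : L(g)]` by `φ`.  (3) `[L(X) : L(s)] = dg s`.  (4) clear. -/
def StDGM : Prop :=
  ∀ (L : Type) [Field L], (∀ s : RatFunc L, dg s = 0 ↔ Cst s) ∧
  (∀ (φ : RatFunc L →ₐ[L] RatFunc L) (g : RatFunc L), dg (φ g) = dg g * dg (φ RatFunc.X)) ∧
  (∀ φ : RatFunc L →ₐ[L] RatFunc L, dg (φ RatFunc.X) = 1 ↔ Function.Surjective φ) ∧
  (∀ s : RatFunc L, dg s = 1 → ∃ a b c e : L, a * e - b * c ≠ 0 ∧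
    s = (RatFunc.C a * RatFunc.X + RatFunc.C b) / (RatFunc.C c * RatFunc.X + RatFunc.C e))

/-- **SQR** (parity; hypotheses ORD, REG).  Proof.  (1) `g = num / denom`, both split into linear
factors; `num * denom` has even root multiplicity everywhere (coprime), so it is a constant times a
square, the constant is a square, and `g = num * denom / denom ^ 2`.  (2) the order of `ι g` at `0` is
`natDegree denom - natDegree num = - ∑ ord p g` (sum over the roots of `num * denom`), and a sum of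
integers is even iff the number of odd ones is even. -/
def StSQR : Prop :=
  ∀ (L : Type) [Field L] [IsAlgClosed L] (ι : RatFunc L ≃ₐ[L] RatFunc L), ι RatFunc.X = RatFunc.X⁻¹ →
  ∀ g : RatFunc L, g ≠ 0 → ((∀ p, Even (ord p g)) → IsSquare g) ∧
    (Even (ord 0 (ι g)) → ∀ B : Finset L, (∀ p, p ∈ B ↔ Odd (ord p g)) → Even B.card)

/-- **CON** (a Legendre curve is not rational; hypotheses ORD, REG, FIN, DER, LD, IOT, TRN).  Proof.
Let `leg l u = w ^ 2 ≠ 0` and `Dt` with `Over 0 1 Dt`.  By LD (`d = 0`, `V = 1`), with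
`m = ord p (leg l u) = 2 ord p w` even, `Dt u = 0` or `ord p w ≤ ord p (Dt u)`: the function
`T = Dt u / w` is regular at every `p`, hence a polynomial.  The same for `ι u`, `ι w`
(`leg l (ι u) = (ι w) ^ 2`): `Dt (ι u) = - X⁻² ι (Dt u)` (chain rule: `ι⁻¹ Dt ι` is a derivation over
`0` with value `- X ^ 2 ...`; or use TRN), so `X⁻² ι T` is regular at `0`.  By IOT `T = 0`, so
`Dt u = 0`, `u` is constant. -/
def StCON : Prop :=
  ∀ (L : Type) [Field L] [CharZero L] [IsAlgClosed L] (l : L) (u : RatFunc L),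
  l ≠ 0 → l ≠ 1 → IsSquare (leg l u) → leg l u ≠ 0 → Cst u

/-- **CL1** (no 2-forms; hypotheses ORD, REG, FIN, DER, LD, IOT, TRN).  Proof.  Let
`leg l u * leg m v = w ^ 2`, `T = Dc u * Dt v - Dc v * Dt u`.  Claim: `T / w` is regular at every `p`.
Let `i = ord p (leg l u)`, `j = ord p (leg m v)`, `i + j = 2 ord p w`.  If `i, j` are even, LD (1) gives
`ord (Dc u) ≥ i / 2`, `ord (Dt u) ≥ i / 2` and the same for `v` (or the derivative is `0`), so
`ord T ≥ (i + j) / 2`.  If both are odd, put `Ds = Dc + C (d p) * Dt`, a derivation over `d` with value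
`C (d p)` at `X` (tangent at `p`); `T = Ds u * Dt v - Ds v * Dt u`, and LD (2) gives
`ord (Ds u) ≥ (i + 1) / 2`, LD (1) `ord (Dt v) ≥ (j - 1) / 2`, and symmetrically.  So `T / w` is a
polynomial `P`.  The same claim for `ι u`, `ι v`, `ι w` at `p = 0`: `Dc (ι u) = ι (Dc u)`,
`Dt (ι u) = - X⁻² ι (Dt u)`, so `X⁻² ι P` is regular at `0` and `P = 0` by IOT. -/
def StCL1 : Prop :=
  ∀ (L : Type) [Field L] [CharZero L] [IsAlgClosed L] (d : Derivation ℤ L L)
    (Dc Dt : Derivation ℤ (RatFunc L) (RatFunc L)) (l m : L) (u v : RatFunc L),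
  l ≠ 0 → l ≠ 1 → m ≠ 0 → m ≠ 1 → d l = 0 → d m = 0 → Over d 0 Dc → Over 0 1 Dt →
  leg l u ≠ 0 → leg m v ≠ 0 → IsSquare (leg l u * leg m v) → Dc u * Dt v = Dc v * Dt u

/-- **PL** (poles of the vector field; hypotheses ORD, REG, DER, LCD).  Let `Dc` be the derivation over
`d` with `Dc X = 0`; `D c = Dc c + V * Dt c = 0`, `Dt c ≠ 0`.  Proof.  (1) Put
`Ds = Dc + C (d p) * Dt` (tangent at `p`).  `(V - C (d p)) * Dt c = - Ds c`.  If `c` has a pole of order
`n`: `ord (Dt c) = - n - 1` and `Ds c = 0` or `ord (Ds c) ≥ - n`, so `V = C (d p)` or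
`ord (V - C (d p)) ≥ 1`.  If `c` is regular at `p` with `d (c p) = 0`, put `c₁ = c - C (c p) ≠ 0`, of
order `n ≥ 1`; `Dt c = Dt c₁` has order `n - 1`, `Ds c = Ds c₁` has order `≥ n`.  Same conclusion.
(2) If `V` has a pole at `p`, then by (1) `c` is regular at `p` and `d (c p) ≠ 0`.  `Dc c` is regular,
`V * Dt c = - Dc c`, so `ord (Dt c) ≥ - ord V ≥ 1` (if `Dc c = 0` then `V = 0`), `Dt c` vanishes at
`p`, and `ev p (Dc c) = d (c p) - d p * ev p (Dt c) = d (c p) ≠ 0` (LCD with `V = 0`).  So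
`ord (Dc c) = 0` and `ord (Dt c) = - ord V`. -/
def StPL : Prop :=
  ∀ (L : Type) [Field L] [CharZero L] (p : L) (d : Derivation ℤ L L) (V : RatFunc L)
    (D Dt : Derivation ℤ (RatFunc L) (RatFunc L)) (c : RatFunc L),
  Over d V D → Over 0 1 Dt → D c = 0 → ¬ Cst c →
  ((¬ Reg p c ∨ d (ev p c) = 0) → Reg p V ∧ ev p V = d p) ∧
  (¬ Reg p V → Reg p c ∧ d (ev p c) ≠ 0 ∧ ord p (Dt c) = - ord p V)

/-- **ODD** (at least four points of odd order; hypotheses ORD, REG, FIN, IOT, SQR, CON, CMP).  Proof.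
Let `g = leg l U ≠ 0` and `B` the finite set of its points of odd order; `ι g = leg l (ι U)`, so by SQR
`B.card` is even.  If `B.card = 0` then `g` is a square (SQR) and `U` is constant (CON).  If
`B = {a, b}`, let `φ` be the substitution `X ↦ (C a - C b * X ^ 2) / (1 - X ^ 2)`:
`φ (X - a) = C (a - b) X ^ 2 / (1 - X ^ 2)`, `φ (X - b) = C (a - b) / (1 - X ^ 2)`, so
`φ ((X - a) (X - b))` is a square; `g = (X - a) (X - b) * square` by SQR, so
`leg l (φ U) = φ g` is a square, `φ U` is constant (CON) and so is `U` (IOT).  Contradictions.  So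
`B.card ≥ 4`, and `B` has three elements different from `τ`. -/
def StODD : Prop :=
  ∀ (L : Type) [Field L] [CharZero L] [IsAlgClosed L] (ι : RatFunc L ≃ₐ[L] RatFunc L),
  ι RatFunc.X = RatFunc.X⁻¹ → ∀ (l : L) (U : RatFunc L), l ≠ 0 → l ≠ 1 → ¬ Cst U →
  Even (ord 0 (leg l (ι U))) → ∀ τ : L, ∃ o1 o2 o3 : L, o1 ≠ o2 ∧ o1 ≠ o3 ∧ o2 ≠ o3 ∧ o1 ≠ τ ∧
    o2 ≠ τ ∧ o3 ≠ τ ∧ Odd (ord o1 (leg l U)) ∧ Odd (ord o2 (leg l U)) ∧ Odd (ord o3 (leg l U))

/-- **MB3** (three points; hypothesis DER).  `E` is a derivation over `d` whose value at `X` is a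
polynomial of degree `≤ 2` with `P oᵢ = d oᵢ` at three points.  Proof.  Put `M` for the function below.
`E M / M = (P - d o1) / (X - o1) - (P - d o3) / (X - o3) + C κ` with
`κ = (d o2 - d o3) / (o2 - o3) - (d o2 - d o1) / (o2 - o1)`.  `P - C (d o1)` vanishes at `o1`, so it is
`(X - o1) Q1` with `Q1` of degree `≤ 1` whose coefficient of `X` is the coefficient `α` of `X ^ 2` in
`P`; the same for `Q3`; so `Q1 - Q3` is constant, equal to its value at `o2`, which is `- κ`.  (Or:
write `P = α X ^ 2 + β X + γ`, eliminate, and use `field_simp; linear_combination`.) -/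
def StMB3 : Prop :=
  ∀ (L : Type) [Field L] [CharZero L] (d : Derivation ℤ L L) (P : L[X])
    (E : Derivation ℤ (RatFunc L) (RatFunc L)) (o1 o2 o3 : L),
  P.natDegree ≤ 2 → Over d (algebraMap L[X] (RatFunc L) P) E → o1 ≠ o2 → o1 ≠ o3 → o2 ≠ o3 →
  P.eval o1 = d o1 → P.eval o2 = d o2 → P.eval o3 = d o3 →
  E (((RatFunc.X - RatFunc.C o1) * RatFunc.C (o2 - o3)) /
    ((RatFunc.X - RatFunc.C o3) * RatFunc.C (o2 - o1))) = 0

/-- **BAD** (every coordinate has a bad point; hypotheses ORD, REG, FIN, DER, LCD, LD, IOT, TRN).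
Proof.  Let `E` be the derivation over `d` with `E X = h`, `f = leg l U ≠ 0`, `F = E U * Dt U / f`,
`κ = d l / (l (l - 1)) ≠ 0`, `N` the numerator of `U - C l` (a polynomial, `≠ 0`).  Suppose there is no
bad point: at every `p` the function `h` is regular, and `ev p h = d p` if `ord p f` is odd.
LOCAL CLAIM: `F - C κ * Dt N / N` is regular at `p`.  (i) `U` regular at `p`, `U p ∉ {0, 1, l}`: `F` is
regular, `N p ≠ 0`.  (ii) `U p ∈ {0, 1}`: `n = ord (U - e) = ord f`, `E U = E (U - e)` has order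
`≥ n - 1 ≥ 1` if `n ≥ 2`, and `≥ n = 1` if `n = 1` (odd, tangent), so `ord F ≥ 1 + (n - 1) - n = 0`;
`N p ≠ 0`.  (iii) `U p = l`, `n = ord (U - l)`: as in (ii) `E (U - l)` vanishes at `p`, so
`E U / (U (U - 1))` is regular at `p` with value `d l / (l (l - 1)) = κ`, and
`F = (κ + O(v)) * Dt (U - l) / (U - l)` with a simple pole in the second factor, so
`F - κ Dt (U - l) / (U - l)` is regular; `U - l = N / M` with `M p ≠ 0`, so
`Dt (U - l) / (U - l) - Dt N / N = - Dt M / M` is regular.  (iv) `U` has a pole of order `n`: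
`ord (E U) ≥ - n - 1`, and `≥ - n` if `n` is odd (then `ord f = - 3 n` is odd, tangent);
`ord (Dt U) = - n - 1`, so `ord F ≥ n - 2 ≥ 0` for even `n` and `≥ n - 1 ≥ 0` for odd `n`; `N p ≠ 0`.
So `F = κ Dt N / N + Q` with a polynomial `Q` (FIN).  INFINITY: the same claim at `0` for `ι U` and the
derivation `E' = ι E ι` over `d` with `E' X = - X ^ 2 ι h` (TRN; regular at `0` by hypothesis, and
`ord 0 (leg l (ι U))` is even, so no tangency is needed): `F' = E' (ι U) * Dt (ι U) / leg l (ι U) =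
- X⁻² ι F` (as `Dt (ι U) = - X⁻² ι (Dt U)`), and `F' - κ m / X` is regular at `0`, `m` the order of
the numerator of `ι U - C l` at `0`.  Hence `ι F = - κ m X + O(X ^ 2)`, while
`ι (Dt N / N) = n X + O(X ^ 2)` with `n = deg N`; so `ι Q = - κ (m + n) X + O(X ^ 2)` is regular and
vanishes at `0`, so the polynomial `Q` is `0` and `m + n = 0`, `m = n = 0`.  `n = 0`: `N` is constant,
`U - l = N / M` with `M` not constant, so `ι (U - l)` vanishes at `0`, `m ≥ 1`.  Contradiction. -/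
def StBAD : Prop :=
  ∀ (L : Type) [Field L] [CharZero L] [IsAlgClosed L] (ι : RatFunc L ≃ₐ[L] RatFunc L),
  ι RatFunc.X = RatFunc.X⁻¹ → ∀ (d : Derivation ℤ L L) (l : L) (U h : RatFunc L), d l ≠ 0 → ¬ Cst U →
  Reg 0 (RatFunc.X ^ 2 * ι h) → Even (ord 0 (leg l (ι U))) → ∃ τ, BadP h τ ∨ BadH d l h U τ

/-- **LU2** (regularity; hypotheses ORD, REG, DER, LCD, PL).  Let `M = {x | ∀ i, E i x = 0}`, a
subfield.  Proof.  Suppose `H i` has a pole at `p`, of order `b ≥ 1`.  `M` contains a nonconstant `c₀`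
(otherwise the closure consists of constants).  By PL (2) every nonconstant `c ∈ M` is regular at `p`,
`d i (c p) ≠ 0` and `ord (Dt c) = b`.  In particular `c p ≠ 0`: every nonzero element of `M` has order
`0` at `p`.  Put `δ x = Dt x / Dt c₀`.  `δ` maps `M` to `M`: `E i (Dt x) = Dt (E i x) - Dt (H i) Dt x`
(both sides of the commutator rule are derivations which vanish on constants, compare at `X`; use DER
uniqueness or expand), so for `x ∈ M`, all `i`: `E i (Dt x) = - Dt (H i) Dt x`, and the quotient rule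
gives `E i (δ x) = 0`.  Put `π = c₀ - C (c₀ p)`, `δ π = 1`.  If `y` is regular at `p`, `δ y` is regular
of order `≥ q` (or `0`) and `y p = 0`, then `y = 0` or `ord y ≥ q + b + 1` (as
`ord (Dt y) = ord y - 1 = ord (δ y) + b`).  TAYLOR: for `c ∈ M` and `n : ℕ` there is a polynomial
`P ∈ L[X]` with `c - P(π) = 0` or of order `≥ (b + 1) n`: induction on `n`, apply it to `δ c ∈ M`,
integrate the polynomial and choose the constant `c p`.  By linearity the same holds for every `x` in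
the `L`-span `A` of `M`, which is a ring.  A nonzero `P(π)` has order divisible by `b + 1`
(`ord π = b + 1`, as `ord (Dt π) = b`), so every nonzero `x ∈ A` has order divisible by `b + 1` (take
`n` large).  Every element of the subfield generated by `range C ∪ M` is a quotient of two elements of
`A`, so all orders at `p` are divisible by `b + 1 ≥ 2`; but `ord p (X - p) = 1`. -/
def StLU2 : Prop :=
  ∀ (L : Type) [Field L] [CharZero L] (I : Type) (d : I → Derivation ℤ L L)
    (E : I → Derivation ℤ (RatFunc L) (RatFunc L)) (H : I → RatFunc L),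
  (∀ i, Over (d i) (H i) (E i)) →
  Subfield.closure (Set.range (RatFunc.C : L → RatFunc L) ∪ {x | ∀ i, E i x = 0}) = ⊤ →
  ∀ i p, Reg p (H i)

end Pool.Agent.Helper1.RK
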