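import Pool.Agent.Helper1.RK.StA

/-!
# Project RK (MP_de00bc_nt): statements of part B (configurations), with complete proofs

Notation: `V k = D k X` (the vector field of `D k`), `s = φ X`.
-/

set_option autoImplicit false

namespace Pool.Agent.Helper1.RK

open Polynomial

/-- **VK** (the configuration of a solution; hypotheses DER, CL1).  Proof.  `leg (lam i) (u i) ≠ 0` (`u i`
is not constant) and `lam i ≠ 0, 1` (`dl i (lam i) ≠ 0`).  Let `Dc k` be the derivation over `dl k` with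
`Dc k X = 0`, `Dt` the one over `0` with `Dt X = 1`.  For `i, j ≠ k` CL1 gives
`Dc k (u i) * Dt (u j) = Dc k (u j) * Dt (u i)`, and `Dt (u i) ≠ 0`, so
`V k := - Dc k (u i) / Dt (u i)` does not depend on `i ≠ k`.  `D k` = the derivation over `dl k` with
`D k X = V k`; `D k (u i) = Dc k (u i) + V k * Dt (u i) = 0` for `i ≠ k`.  Commutation: the commutator
`B = D k ∘ D l - D l ∘ D k` is a derivation (`⁅D k, D l⁆`) which kills constants (`dl k`, `dl l`
commute), so `B = W * Dt` with `W = B X` (DER); as `3 ≤ r` there is `i ≠ k, l`, `B (u i) = 0`, so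
`W * Dt (u i) = 0`, `W = 0` (for `k = l` trivial). -/
def StVK : Prop :=
  ∀ (L : Type) [Field L] [CharZero L] [IsAlgClosed L] (r : ℕ) (dl : Fin r → Derivation ℤ L L)
    (lam : Fin r → L) (u : Fin r → RatFunc L), 3 ≤ r →
  (∀ k l a, dl k (dl l a) = dl l (dl k a)) → (∀ k, dl k (lam k) ≠ 0) →
  (∀ k l, k ≠ l → dl k (lam l) = 0) → (∀ i, ¬ Cst (u i)) →
  (∀ i j, IsSquare (leg (lam i) (u i) * leg (lam j) (u j))) → ∃ D, Cfg dl lam u D

/-- **TRF** (change of the coordinate `X`; hypotheses TRN, IOT).  Proof.  `D' k = ψ ∘ D k ∘ ψ⁻¹` (TRN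
(2)).  All fields of `Cfg` are immediate; `leg l (ψ u) = ψ (leg l u)`, and `ψ` maps squares to
squares. -/
def StTRF : Prop :=
  ∀ (L : Type) [Field L] [CharZero L] (ψ : RatFunc L ≃ₐ[L] RatFunc L) (r : ℕ)
    (dl : Fin r → Derivation ℤ L L) (lam : Fin r → L) (u : Fin r → RatFunc L)
    (D : Fin r → Derivation ℤ (RatFunc L) (RatFunc L)), Cfg dl lam u D →
  ∃ D' : Fin r → Derivation ℤ (RatFunc L) (RatFunc L), (∀ k g, D' k (ψ g) = ψ (D k g)) ∧
    Cfg dl lam (fun i => ψ (u i)) D'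

/-- **NI** (no poles at infinity; hypotheses REG, FIN, IOT, TRN, CMP, TRF).  Proof.  Choose a natural
number `c` such that all `V k` are regular at `c` (FIN; finitely many poles).  Let `ψ` be the
automorphism `X ↦ (C c * X + 1) / X = C c + X⁻¹` (IOT), `D'` from TRF.  `X = ψ ((X - C c)⁻¹)`, so
`D' k X = ψ (- V k * (X - C c)⁻¹ ^ 2) = - ψ (V k) * X ^ 2` (`D k (C c) = C (dl k c) = 0` for a natural
number `c`).  So `X ^ 2 * ι (D' k X) = - ι (ψ (V k))`, and `ι ∘ ψ` is the substitution `X ↦ X + C c`,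
so CMP (`p = 0`, `τ = c`) shows that this is regular at `0`. -/
def StNI : Prop :=
  ∀ (L : Type) [Field L] [CharZero L] [IsAlgClosed L] (ι : RatFunc L ≃ₐ[L] RatFunc L),
  ι RatFunc.X = RatFunc.X⁻¹ → ∀ (r : ℕ) (dl : Fin r → Derivation ℤ L L) (lam : Fin r → L)
    (u : Fin r → RatFunc L) (D : Fin r → Derivation ℤ (RatFunc L) (RatFunc L)), Cfg dl lam u D →
  ∃ (ψ : RatFunc L ≃ₐ[L] RatFunc L) (D' : Fin r → Derivation ℤ (RatFunc L) (RatFunc L)),
    (∀ k g, D' k (ψ g) = ψ (D k g)) ∧ Cfg dl lam (fun i => ψ (u i)) D' ∧ NoInf D' ι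

/-- **LUR** (Lueroth for the constants; hypotheses ORD, REG, FIN, DER, PL, IOT, TRN, CMP, MB3, LU2 and
Mathlib's Lueroth theorem `RatFunc.Luroth.eq_adjoin_generator`).  Proof.  Let
`E = IntermediateField.adjoin L (KK D k)`; it contains the nonconstant `u k`, so `E ≠ ⊥`,
`E = L(g)` with `g` not constant; let `φ₀ X = g` (IOT), so `E` = range of `φ₀`.  For `l ≠ k`, `D l` maps
`E` to itself (it kills `KK D k` and maps constants to constants), so `D l g = φ₀ (H l)`; let `E l` be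
the derivation over `dl l` with `E l X = H l`; TRN: `D l (φ₀ x) = φ₀ (E l x)`.  So
`φ₀ x ∈ KK D k` iff `E l x = 0` for all `l ≠ k`; call this set `M`.  The subfield generated by
`range C ∪ M` is everything (its image under the injective `φ₀` is `E`).  LU2 (index type
`{l // l ≠ k}`): every `H l` is regular everywhere, so it is a polynomial `P l` (FIN).  The same for
`E' l = ι ∘ E l ∘ ι`, `E' l X = - X ^ 2 * ι (H l)` and `ι M`: `X ^ 2 * ι (H l)` is regular at `0`, so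
`P l` has degree `≤ 2` (IOT).  Let `c ∈ M` with `φ₀ c = u k`, not constant.  There are three different
points `o1, o2, o3` where `c` is regular and takes natural numbers as values (write `c = a / b` in
lowest terms; for all natural numbers `n` but at most one the polynomial `a - C n * b` is not constant
and has a root, at which `b` does not vanish).  By PL (1) (with `E l`, `c`): `P l (oᵢ) = dl l (oᵢ)`.  By
MB3 all `E l` kill `M3 = ((X - o1) (o2 - o3)) / ((X - o3) (o2 - o1))`.  Let `ψ` be the automorphism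
`X ↦ M3` (IOT) and `φ = φ₀ ∘ ψ`: `φ X = φ₀ M3 ∈ KK D k` and `range φ = range φ₀ = E ⊇ KK D k`. -/
def StLUR : Prop :=
  ∀ (L : Type) [Field L] [CharZero L] [IsAlgClosed L] (r : ℕ) (dl : Fin r → Derivation ℤ L L)
    (lam : Fin r → L) (u : Fin r → RatFunc L) (D : Fin r → Derivation ℤ (RatFunc L) (RatFunc L)),
  Cfg dl lam u D → ∀ k, ∃ φ : RatFunc L →ₐ[L] RatFunc L, Gen D k φ

/-- **GDC** (good coordinate; hypotheses ORD, REG, FIN, DER, IOT, TRN, CMP, LUR).  Proof.  Take `φ₀` with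
`Gen D k φ₀` (LUR).  `u k ∈ KK D k` and `D k (φ₀ X) ∈ KK D k` (`dcomm`), so `u k = φ₀ U₀`,
`D k (φ₀ X) = φ₀ h₀`.  Choose a natural number `c` (as an element of `L`) such that `h₀` is regular at
`c` and `ord c (leg (lam k) U₀) = 0` (FIN).  Let `ψ` be the automorphism `X ↦ (X - C c)⁻¹`, whose
inverse is `X ↦ C c + X⁻¹`; `φ = φ₀ ∘ ψ`, `U = ψ⁻¹ U₀`, `h = - X ^ 2 * ψ⁻¹ h₀`.  `φ X =
(φ₀ X - C c)⁻¹ ∈ KK D k`, the range of `φ` is that of `φ₀`, `φ U = u k`, and
`D k (φ X) = - φ₀ h₀ * (φ₀ X - C c)⁻¹ ^ 2 = φ₀ (- h₀ (X - C c)⁻¹ ^ 2) = φ h`.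
`X ^ 2 * ι h = - ι (ψ⁻¹ h₀)` and `ι ∘ ψ⁻¹` is the substitution `X ↦ X + C c`; use CMP with `p = 0`,
`τ = c` (`ord 0 (X + C c - C c) = 1`): it is regular at `0`, and
`ord 0 (leg (lam k) (ι U)) = ord c (leg (lam k) U₀) = 0`. -/
def StGDC : Prop :=
  ∀ (L : Type) [Field L] [CharZero L] [IsAlgClosed L] (ι : RatFunc L ≃ₐ[L] RatFunc L),
  ι RatFunc.X = RatFunc.X⁻¹ → ∀ (r : ℕ) (dl : Fin r → Derivation ℤ L L) (lam : Fin r → L)
    (u : Fin r → RatFunc L) (D : Fin r → Derivation ℤ (RatFunc L) (RatFunc L)), Cfg dl lam u D →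
  ∀ k, ∃ φ U h, GC lam u D k φ U h ι

/-- **FIB** (the fibre of a bad point; hypotheses ORD, REG, DER, LCD, LD, TRN, CMP, PL).  Write
`s = φ X`, `e = ord p (s - τ) ≥ 1`, so `ord p (Dt s) = e - 1` (LCD).  `Dc` = derivation over `dl k` with
`Dc X = 0`; `φ h = D k s = Dc s + V k * Dt s`, `Dc s` is regular at `p`.
Proof, case BadP: `ord τ h = - b < 0`, so `ord p (φ h) = - b e < 0` (CMP), hence
`ord (V k * Dt s) = - b e`, `ord (V k) = - b e - (e - 1) ≤ - e`.  Let `l ≠ k` and suppose `V l` has a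
pole at `p`.  PL (2) for `D l` and `s` (`D l s = 0`): `ord (V l) = - (e - 1)`.  Take `i ≠ k, l`
(`3 ≤ r`); PL (2) for `D l`, `u i` and for `D k`, `u i`: `- ord (V l) = ord (Dt (u i)) = - ord (V k)`.
So `e - 1 = - ord (V k) ≥ e`, a contradiction.
Case BadH: `h` regular at `τ`, `ev τ h ≠ dl k τ`, `ord τ (leg (lam k) U)` odd.
`ord p (leg (lam k) (u k)) = e * ord τ (leg (lam k) U)` (`φ (leg l U) = leg l (u k)`).  NOTE (N): if
`V k` is regular at `p` and `(ev p (V k) - dl k p) * ev p (Dt s) = 0`, then by LCD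
`ev p (D k (s - C τ)) = dl k 0 + 0 = 0`; but `D k (s - C τ) = φ h - C (dl k τ)` has value
`ev τ h - dl k τ ≠ 0`: contradiction.  If `e` were odd: for `i ≠ k` the order of
`leg (lam i) (u i)` at `p` is odd (the product is a square), so by LD (3) `u i` has a pole at `p` or a
value in `{0, 1, lam i}`, which `dl k` kills; PL (1) for `D k`, `u i`: `V k` is regular and
`ev p (V k) = dl k p`, contradiction to (N).  So `e` is even, `e ≥ 2`, `ev p (Dt s) = 0`, and by (N)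
`V k` is not regular at `p`.  `ev p (Dc (s - C τ)) = - dl k p * ev p (Dt s) = 0` (LCD, `V = 0`), so
`V k * Dt s = D k (s - C τ) - Dc (s - C τ)` has a nonzero value at `p`, order `0`,
`ord (V k) = - (e - 1)`, and `e ≤ 2 (e - 1)`.  `l ≠ k`: `ord τ (leg (lam k) U)` is odd, so (LD (3)) `U`
has a pole at `τ` or a value in `{0, 1, lam k}`, the same holds for `u k = φ U` at `p` (CMP), and `dl l`
kills this value; PL (1) for `D l`, `u k`: `V l` is regular at `p`. -/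
def StFIB : Prop :=
  ∀ (L : Type) [Field L] [CharZero L] [IsAlgClosed L] (Dt : Derivation ℤ (RatFunc L) (RatFunc L)),
  Over 0 1 Dt → ∀ (r : ℕ) (dl : Fin r → Derivation ℤ L L) (lam : Fin r → L) (u : Fin r → RatFunc L)
    (D : Fin r → Derivation ℤ (RatFunc L) (RatFunc L)), 3 ≤ r → Cfg dl lam u D →
  ∀ (k : Fin r) (φ : RatFunc L →ₐ[L] RatFunc L) (U h : RatFunc L) (τ p : L),
  φ RatFunc.X ∈ KK D k → φ U = u k → φ h = D k (φ RatFunc.X) →
  (BadP h τ ∨ BadH (dl k) (lam k) h U τ) → Reg p (φ RatFunc.X) → ev p (φ RatFunc.X) = τ →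
  ¬ Reg p (D k RatFunc.X) ∧ (∀ l, l ≠ k → Reg p (D l RatFunc.X)) ∧
  (BadP h τ → ord p (φ RatFunc.X - RatFunc.C τ) ≤ - ord p (D k RatFunc.X)) ∧
  (BadH (dl k) (lam k) h U τ →
    ord p (φ RatFunc.X - RatFunc.C τ) ≤ 2 * (- ord p (D k RatFunc.X)) ∧
    ord p (φ RatFunc.X - RatFunc.C τ) ≤ 2 * ord p (Dt (φ RatFunc.X)))

/-- **FNI** (infinity is not in the fibre of a bad point; hypotheses REG, DER, IOT, TRN, TRF, FIB).
Proof.  Suppose `ι (φ X)` is regular at `0` with value `τ`.  TRF with `ψ = ι` gives the configuration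
`ι (u i)`, `D'`.  `φ' = ι ∘ φ` satisfies all hypotheses of FIB for it: `φ' X ∈ KK D' k`,
`φ' U = ι (u k)`, `φ' h = ι (D k (φ X)) = D' k (φ' X)`.  FIB at `p = 0`: `D' k X` is not regular at
`0`.  But `D' k X = - X ^ 2 * ι (D k X)` (TRN (3)) is regular at `0` by `NoInf`. -/
def StFNI : Prop :=
  ∀ (L : Type) [Field L] [CharZero L] [IsAlgClosed L] (ι : RatFunc L ≃ₐ[L] RatFunc L),
  ι RatFunc.X = RatFunc.X⁻¹ → ∀ (r : ℕ) (dl : Fin r → Derivation ℤ L L) (lam : Fin r → L)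
    (u : Fin r → RatFunc L) (D : Fin r → Derivation ℤ (RatFunc L) (RatFunc L)), 3 ≤ r →
  Cfg dl lam u D → NoInf D ι → ∀ (k : Fin r) (φ : RatFunc L →ₐ[L] RatFunc L) (U h : RatFunc L) (τ : L),
  φ RatFunc.X ∈ KK D k → φ U = u k → φ h = D k (φ RatFunc.X) →
  (BadP h τ ∨ BadH (dl k) (lam k) h U τ) → ¬ (Reg 0 (ι (φ RatFunc.X)) ∧ ev 0 (ι (φ RatFunc.X)) = τ)

/-- **INQ** (the inequalities; hypotheses ORD, REG, DER, LCD, PL, IOT, DGF, DGR, FIB, FNI).  Put
`s k = φ k X`, `μ k = dg (s k)`.  Proof.  For `τ ∈ T k` let `B k τ` be the fibre of `s k` over `τ` (DGF; it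
does not contain infinity by FNI): `∑_{p ∈ B k τ} ord p (s k - τ) = μ k`.  Let `B k` be the union over
`τ ∈ T k` (disjoint), `A k = ∑_{p ∈ B k} (- ord p (V k))`, `G k = ∑_{p ∈ B k} ord p (Dt (s k))`.  By
FIB for `p ∈ B k`: `V k` has a pole at `p` and `V l` (`l ≠ k`) does not; so the sets `B k` are pairwise
disjoint, and for `j ≠ k`, `p ∈ B k`, PL (2) for `D k` and `s j` (`D k (s j) = 0`): `s j` is regular at
`p` and `ord p (Dt (s j)) = - ord p (V k)`.  DGR for `s j` and the union of all `B k`: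
`∑_{k ≠ j} A k + G j ≤ 2 μ j - 2`.  `ord p (Dt (s k)) = ord p (s k - τ) - 1 ≥ 0` (LCD), so `G k ≥ 0`.
Each `τ ∈ T k` contributes to `A k` at least `μ k` (BadP) or at least `μ k / 2` (BadH), in both cases
at least `μ k / 2`; and to `G k` at least `μ k / 2` if BadH. -/
def StINQ : Prop :=
  ∀ (L : Type) [Field L] [CharZero L] [IsAlgClosed L] (ι : RatFunc L ≃ₐ[L] RatFunc L),
  ι RatFunc.X = RatFunc.X⁻¹ → ∀ (r : ℕ) (dl : Fin r → Derivation ℤ L L) (lam : Fin r → L)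
    (u : Fin r → RatFunc L) (D : Fin r → Derivation ℤ (RatFunc L) (RatFunc L)), 3 ≤ r →
  Cfg dl lam u D → NoInf D ι →
  ∀ (φ : Fin r → (RatFunc L →ₐ[L] RatFunc L)) (U h : Fin r → RatFunc L) (T : Fin r → Finset L),
  (∀ k, φ k RatFunc.X ∈ KK D k) → (∀ k, φ k (U k) = u k) →
  (∀ k, φ k (h k) = D k (φ k RatFunc.X)) →
  (∀ k, ∀ τ ∈ T k, BadP (h k) τ ∨ BadH (dl k) (lam k) (h k) (U k) τ) →
  ∃ A G : Fin r → ℤ,
    (∀ j, ∑ k ∈ Finset.univ.erase j, A k + G j ≤ 2 * (dg (φ j RatFunc.X) : ℤ) - 2) ∧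
    (∀ k, 0 ≤ G k) ∧ (∀ k, ((T k).card : ℤ) * dg (φ k RatFunc.X) ≤ 2 * A k) ∧
    (∀ k, (∃ τ ∈ T k, BadP (h k) τ) → (dg (φ k RatFunc.X) : ℤ) ≤ A k) ∧
    (∀ k, (∀ τ ∈ T k, BadH (dl k) (lam k) (h k) (U k) τ) →
      ((T k).card : ℤ) * dg (φ k RatFunc.X) ≤ 2 * G k)

/-- **CN4** (the geometric theorem for `r ≥ 4`; hypotheses NI, GDC, BAD, INQ, IOT, DGM).  Proof.  By
NI we may assume `NoInf` (replace `u`, `D`).  GDC gives `φ k`, `U k`, `h k`, and BAD (with `d = dl k`,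
`l = lam k`; `U k` is not constant because `φ (U k) = u k` is not, IOT) a bad point `τ k`.  INQ with
`T k = {τ k}`.  `μ k = dg (φ k X) ≥ 1`.  If `τ k` is BadP: `A k ≥ μ k`, `G k ≥ 0`; if BadH:
`2 A k ≥ μ k`, `2 G k ≥ μ k`; in both cases `2 ((r - 1) A k + G k) ≥ 4 μ k` (`r ≥ 4`).  Sum of the
inequalities over `j`: `∑ ((r - 1) A k + G k) ≤ 2 ∑ μ k - 2 r`.  Contradiction. -/
def StCN4 : Prop :=
  ∀ (L : Type) [Field L] [CharZero L] [IsAlgClosed L] (r : ℕ) (dl : Fin r → Derivation ℤ L L)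
    (lam : Fin r → L) (u : Fin r → RatFunc L) (D : Fin r → Derivation ℤ (RatFunc L) (RatFunc L)),
  4 ≤ r → Cfg dl lam u D → False

/-- **G4** (hypotheses CON, VK, CN4).  Proof.  Suppose `u i` is not constant.  If some `u j` is constant
then `leg (lam j) (u j) = C a`, `a ≠ 0`, is a square in `L`, so `leg (lam i) (u i)` is a square, and
`u i` is constant (CON; `lam i ≠ 0, 1` as `dl i (lam i) ≠ 0`).  So no `u j` is constant; VK and CN4. -/
def StG4 : Prop :=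
  ∀ (L : Type) [Field L] [CharZero L] [IsAlgClosed L] (r : ℕ) (dl : Fin r → Derivation ℤ L L)
    (lam : Fin r → L) (u : Fin r → RatFunc L), 4 ≤ r →
  (∀ k l a, dl k (dl l a) = dl l (dl k a)) → (∀ k, dl k (lam k) ≠ 0) →
  (∀ k l, k ≠ l → dl k (lam l) = 0) → (∀ i, leg (lam i) (u i) ≠ 0) →
  (∀ i j, IsSquare (leg (lam i) (u i) * leg (lam j) (u j))) → ∀ i, Cst (u i)

end Pool.Agent.Helper1.RK
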