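import Pool.Agent.Helper1.RK.DefsC
import Pool.Agent.Helper1.RK.StB

/-!
# Project RK (MP_de00bc_nt): statements of part C (`r = 3`), with complete proofs

For a derivation `d` of `L` the derivation over `d` with value `0` at `X` is called the coefficient
derivation of `d`.
-/

set_option autoImplicit false

namespace Pool.Agent.Helper1.RK

open Polynomial

/-- **SIG** (coefficientwise automorphisms; hypotheses ORD, REG, DER, IOT).  Proof.  (1) `S` is the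
extension of `Polynomial.map σ` to the fraction field (`RatFunc.mapRingHom`, `IsFractionRing` ...).
(2) determined by the values on `C a` and `X`.  (3) `S` maps `num`, `denom` to `num`, `denom` (images of
coprime polynomials are coprime, monic to monic), and `(P.map σ).eval (σ p) = σ (P.eval p)`, root
multiplicities and degrees are preserved.  (4) both sides are ring homomorphisms in `g` which agree on
`C a` and `X`.  (5) `g ↦ D (S g)` and `g ↦ S (D g)` are derivations along `S` which agree on `C a`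
(`dl (σ a) = σ (dl a)`) and on `X` (`D X = V = S V`); polynomials first, then quotients.  (6) Let
`g = P / Q` in lowest terms, `Q` monic.  `E i g = 0` gives `P^i Q = P Q^i`, where `P^i`, `Q^i` are
obtained by applying `d i` to the coefficients; `Q ∣ Q^i` (coprime) and `deg Q^i < deg Q` (`Q` monic,
`d i 1 = 0`), so `Q^i = 0` and `P^i = 0`: all coefficients are killed by all `d i`, so `σ` fixes
them. -/
def StSIG : Prop :=
  ∀ (L : Type) [Field L] [CharZero L],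
  (∀ σ : L ≃+* L, ∃ S, Ext σ S) ∧
  (∀ (σ : L ≃+* L) (S S' : RatFunc L ≃+* RatFunc L), Ext σ S → Ext σ S' → S = S') ∧
  (∀ (σ : L ≃+* L) (S : RatFunc L ≃+* RatFunc L), Ext σ S →
    (∀ p g, (Reg (σ p) (S g) ↔ Reg p g) ∧ (Reg p g → ev (σ p) (S g) = σ (ev p g)) ∧
      ord (σ p) (S g) = ord p g) ∧
    (∀ g, dg (S g) = dg g) ∧ (∀ g, Cst (S g) ↔ Cst g) ∧
    (∀ φ φ' : RatFunc L →ₐ[L] RatFunc L, φ' RatFunc.X = S (φ RatFunc.X) → ∀ g, S (φ g) = φ' (S g)) ∧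
    (∀ (d : Derivation ℤ L L) (V : RatFunc L) (D : Derivation ℤ (RatFunc L) (RatFunc L)),
      (∀ x, d (σ x) = σ (d x)) → Over d V D → S V = V → ∀ g, D (S g) = S (D g)) ∧
    (∀ (I : Type) (d : I → Derivation ℤ L L) (E : I → Derivation ℤ (RatFunc L) (RatFunc L)),
      (∀ i, Over (d i) 0 (E i)) → (∀ x, (∀ i, d i x = 0) → σ x = x) →
      ∀ g, (∀ i, E i g = 0) → S g = g))

/-- **NRM** (normalization; hypotheses REG, FIN, DER, IOT, TRN, PL, LD, ODD, MB3).  Proof.  `h` is a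
polynomial `P` (FIN) of degree `≤ 2` (IOT and `GC.regInf`).  `U` is not constant (`φ U = u k` is not).
ODD for `U`, `τ`: three points `o1, o2, o3 ≠ τ` of odd order of `leg (lam k) U`; they are not BadH
(uniqueness of `τ`), so `P (oᵢ) = dl k (oᵢ)`.  Let `l ≠ k` and `E l` the coefficient derivation of
`dl l`: `D l (φ X) = 0 = φ 0`, so `D l (φ g) = φ (E l g)` (TRN) and `E l U = 0`.  At a point `o` of odd
order `U` has a pole or a value in `{0, 1, lam k}` (LD (3)), which `dl l` kills, so PL (1) for `E l`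
(`V = 0`), `U` gives `dl l o = ev o 0 = 0`.  MB3 for `dl l`, the polynomial `0`, `E l`, and for `dl k`,
`P` and the derivation `E k` over `dl k` with `E k X = h`: all of them kill
`M3 = ((X - o1) (o2 - o3)) / ((X - o3) (o2 - o1))`.  Take `ψ X = M3` (IOT):
`D l (φ (ψ X)) = φ (E l M3) = 0` for all `l` (TRN). -/
def StNRM : Prop :=
  ∀ (L : Type) [Field L] [CharZero L] [IsAlgClosed L] (ι : RatFunc L ≃ₐ[L] RatFunc L),
  ι RatFunc.X = RatFunc.X⁻¹ → ∀ (r : ℕ) (dl : Fin r → Derivation ℤ L L) (lam : Fin r → L)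
    (u : Fin r → RatFunc L) (D : Fin r → Derivation ℤ (RatFunc L) (RatFunc L)), Cfg dl lam u D →
  ∀ (k : Fin r) (φ : RatFunc L →ₐ[L] RatFunc L) (U h : RatFunc L) (τ : L),
  GC lam u D k φ U h ι → (∀ τ', Reg τ' h) →
  (∀ τ', BadH (dl k) (lam k) h U τ' → τ' = τ) →
  ∃ ψ : RatFunc L ≃ₐ[L] RatFunc L, ∀ l, D l (φ (ψ RatFunc.X)) = 0

/-- **DIV** (divisibility of degrees; hypotheses REG, DER, IOT, TRN, DGM).  Proof.
`φk (ψ X) ∈ KK D j`, so `φk (ψ X) = φj g` for some `g`.  `dg (ψ X) = 1` (DGM (3)), so by DGM (2)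
`dg (φk X) = dg (φk (ψ X)) = dg g * dg (φj X)`.  If the degrees are equal, `dg g = 1` (`dg (φj X) ≠ 0`),
`g = (a X + b) / (c X + e)`.  Let `E` be the derivation over `dl j` with `E X = hj`:
`0 = D j (φj g) = φj (E g)` (TRN), so `E g = 0`; `E g = Ec g + hj * Dt g` with
`Dt g = C (a e - b c) / (c X + e) ^ 2` and `Ec g = polynomial / (c X + e) ^ 2`, so `hj` is a polynomial
and regular everywhere. -/
def StDIV : Prop :=
  ∀ (L : Type) [Field L] [CharZero L] [IsAlgClosed L] (r : ℕ) (dl : Fin r → Derivation ℤ L L)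
    (lam : Fin r → L) (u : Fin r → RatFunc L) (D : Fin r → Derivation ℤ (RatFunc L) (RatFunc L)),
  Cfg dl lam u D → ∀ (j : Fin r) (φj φk : RatFunc L →ₐ[L] RatFunc L) (hj : RatFunc L)
    (ψ : RatFunc L ≃ₐ[L] RatFunc L), Gen D j φj → φj hj = D j (φj RatFunc.X) →
  (∀ l, D l (φk (ψ RatFunc.X)) = 0) → dg (φj RatFunc.X) ∣ dg (φk RatFunc.X) ∧
    (dg (φj RatFunc.X) = dg (φk RatFunc.X) → ∀ τ, Reg τ hj)

/-- **ARI** (arithmetic; checked by computer for `μ < 40`).  Proof.  Write `μ = (m0, m1, m2)`.  Note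
`m ∣ n` and `m ≠ n`, `n ≥ 1` give `2 m ≤ n`.  Suppose not all indices satisfy `C`.
No `C`: the sum of the three inequalities is `2 ∑ A + ∑ G ≤ 2 ∑ μ - 6`, but `A k ≥ μ k`, `G k ≥ 0`.
Exactly one `C`, say `m2`.  If index `0` is `B`: (j = 0) `2 m0 - 2 ≥ m1 + m2 / 2 + m0`, (j = 1)
`2 m1 - 2 ≥ m0 + m2 / 2`, so `m1 ≥ 4 + m2`; (j = 2) `3 m2 / 2 - 2 ≥ m0 + m1`; contradiction (`omega`).
Both `P`: (j = 0) + (j = 1): `m0 + m1 ≥ 4 + m2`, while `2 m0 ≤ m2`, `2 m1 ≤ m2`.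
Exactly two `C`, say `m1, m2`: `m1 = m2 = m` (they divide each other).  Index `0` is `B`: (j = 0)
`m0 ≥ 2 + m`, (j = 1) `2 m - 2 ≥ m0 + m`.  Index `0` is `P`: (j = 0) `2 m0 - 2 ≥ m`, but
`2 m0 ≤ m`. -/
def StARI : Prop :=
  ∀ (μ : Fin 3 → ℕ) (A G : Fin 3 → ℤ) (P B C : Fin 3 → Prop),
  (∀ k, 1 ≤ μ k) → (∀ k, P k ∨ B k ∨ C k) →
  (∀ k, P k → (μ k : ℤ) ≤ A k ∧ 0 ≤ G k) → (∀ k, B k → (μ k : ℤ) ≤ A k ∧ (μ k : ℤ) ≤ G k) →
  (∀ k, C k → (μ k : ℤ) ≤ 2 * A k ∧ (μ k : ℤ) ≤ 2 * G k) →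
  (∀ j, ∑ k ∈ Finset.univ.erase j, A k + G j ≤ 2 * (μ j : ℤ) - 2) →
  (∀ j k, C k → μ j ∣ μ k) → (∀ j k, C k → P j → μ j ≠ μ k) → ∀ k, C k

/-- **TY3** (types for `r = 3`; hypotheses IOT, DGM, BAD, INQ, NRM, DIV, ARI).  Proof.  `U k` is not
constant and `dg (φ k X) ≥ 1`.  Define `P k`: some `τ` is BadP; `B k`: not `P k`, and there are two
different BadH points; `C k`: not `P k`, and there is exactly one BadH point.  By BAD one of them
holds.  Let `T k` be `{τ}` with `τ` BadP, a pair of BadH points, the BadH point.  INQ gives `A`, `G` with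
the inequalities required in ARI for `μ k = dg (φ k X)` (in case `B` the set has two elements).  If
`C k`: NRM gives `ψ`, and DIV gives `μ j ∣ μ k` for all `j`, and `μ j ≠ μ k` if `P j` (otherwise `h j`
would be regular everywhere).  ARI: all `C k`. -/
def StTY3 : Prop :=
  ∀ (L : Type) [Field L] [CharZero L] [IsAlgClosed L] (ι : RatFunc L ≃ₐ[L] RatFunc L),
  ι RatFunc.X = RatFunc.X⁻¹ → ∀ (dl : Fin 3 → Derivation ℤ L L) (lam : Fin 3 → L)
    (u : Fin 3 → RatFunc L) (D : Fin 3 → Derivation ℤ (RatFunc L) (RatFunc L)), Cfg dl lam u D →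
  NoInf D ι → ∀ (φ : Fin 3 → (RatFunc L →ₐ[L] RatFunc L)) (U h : Fin 3 → RatFunc L),
  (∀ k, GC lam u D k (φ k) (U k) (h k) ι) →
  ∀ k, (∀ τ, Reg τ (h k)) ∧ ∃ τ, BadH (dl k) (lam k) (h k) (U k) τ ∧
    ∀ τ', BadH (dl k) (lam k) (h k) (U k) τ' → τ' = τ

/-- **CC1** (the common coordinate, under `NoInf`; hypotheses ORD, REG, DER, LCD, PL, IOT, TRN, CMP,
GDC, TY3, NRM).  Proof.  Take `φ k, U k, h k` (GDC), `τ k` (TY3), `ψ k` (NRM); `χ k = φ k ∘ ψ k` (same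
range as `φ k`), `φ = χ 0`.  All `D l` kill `χ k X`, so `χ k X ∈ KK D 0 ⊆ range (φ 0) = range φ` and
`φ X ∈ KK D k ⊆ range (φ k)`: all ranges are equal, and `Gen D k φ` for all `k`.
Fix `k` and `U'` with `φ U' = u k`; write `φ₁ = φ k`, `U₁ = U k`, `h₁ = h k`, `τ₁ = τ k`.  `φ X = φ₁ M`
for some `M`; let `θ X = M` (IOT), so `φ = φ₁ ∘ θ`; `φ₁ X ∈ range φ` gives `X ∈ range θ`, so `θ` is
bijective; `U₁ = θ U'` (`φ₁` is injective).  (e) If `θ'` is a bijective substitution and `θ' X` is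
regular at `p` with value `q` then `ord p (θ' g) = ord q g` for `g ≠ 0`: in CMP the factor `e ≥ 1`
divides `ord p (θ' g₀) = ord p (X - C p) = 1`.
Let `E` be the derivation over `dl k` with `E X = h₁`: `φ₁ (E M) = D k (φ X) = 0` (TRN), so `E M = 0`.
If `M` were not regular at `τ₁`, PL (1) (for `E`, `M`) would give `ev τ₁ h₁ = dl k τ₁`, against BadH.
So `M` is regular at `τ₁`; put `τ = ev τ₁ M`; again PL (1): `dl k τ ≠ 0`.  By (e) the order of
`leg (lam k) U'` at `τ` is that of `leg (lam k) U₁` at `τ₁`, odd.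
Uniqueness: let `dl k τ' ≠ 0`, the order of `leg (lam k) U'` at `τ'` odd.  `η = θ⁻¹`, `N = η X`,
`U' = η U₁`.  If `N` has a pole at `τ'`: `η ∘ ι` maps `X` to `N⁻¹`, regular at `τ'` with value `0`, so by
(e) `ord τ' (leg (lam k) U') = ord 0 (leg (lam k) (ι U₁))`, even by `GC.evenInf`: contradiction.  So
`N` is regular at `τ'`; `q = ev τ' N`; `ord q (leg (lam k) U₁)` is odd by (e).  Let `E⁰` be the
coefficient derivation of `dl k`: `D k (φ g) = φ (E⁰ g)` and `E⁰ (η g) = η (E g)` (apply the injective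
`φ`), so `E⁰ N = η h₁`, `ev τ' (E⁰ N) = ev q h₁` (CMP), and LCD gives
`ev τ' (E⁰ N) = dl k q - dl k τ' * ev τ' (Dt N)` with `ev τ' (Dt N) ≠ 0`
(`ord τ' (N - C q) = 1` by (e), so `ord τ' (Dt N) = 0`).  So `ev q h₁ ≠ dl k q`, `q` is BadH, `q = τ₁`,
and `τ' = ev τ' X = ev τ' (η M) = ev q M = τ`. -/
def StCC1 : Prop :=
  ∀ (L : Type) [Field L] [CharZero L] [IsAlgClosed L] (ι : RatFunc L ≃ₐ[L] RatFunc L),
  ι RatFunc.X = RatFunc.X⁻¹ → ∀ (dl : Fin 3 → Derivation ℤ L L) (lam : Fin 3 → L)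
    (u : Fin 3 → RatFunc L) (D : Fin 3 → Derivation ℤ (RatFunc L) (RatFunc L)), Cfg dl lam u D →
  NoInf D ι → ∃ φ : RatFunc L →ₐ[L] RatFunc L, (∀ l, D l (φ RatFunc.X) = 0) ∧ (∀ k, Gen D k φ) ∧
    ∀ k U, φ U = u k → ∃ τ, Uni (dl k) (leg (lam k) U) τ

/-- **CCC** (the same without `NoInf`; hypotheses IOT, NI, CC1).  Proof.  NI: `ψ`, `D'`; CC1 for
`ψ (u i)`, `D'` gives `φ'`; take `φ = ψ⁻¹ ∘ φ'`: `D l (φ g) = ψ⁻¹ (D' l (φ' g))`,
`ψ` maps `KK D k` onto `KK D' k`, and `φ U = u k` iff `φ' U = ψ (u k)`. -/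
def StCCC : Prop :=
  ∀ (L : Type) [Field L] [CharZero L] [IsAlgClosed L] (dl : Fin 3 → Derivation ℤ L L)
    (lam : Fin 3 → L) (u : Fin 3 → RatFunc L) (D : Fin 3 → Derivation ℤ (RatFunc L) (RatFunc L)),
  Cfg dl lam u D →
  ∃ φ : RatFunc L →ₐ[L] RatFunc L, (∀ l, D l (φ RatFunc.X) = 0) ∧ (∀ k, Gen D k φ) ∧
    ∀ k U, φ U = u k → ∃ τ, Uni (dl k) (leg (lam k) U) τ

/-- **GA1** (automorphisms fix the coordinate; hypotheses ORD, REG, DER, PL, IOT, TRN, CMP, SIG).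
Proof.  `S (φ X)` is killed by all `D l`, so it is `φ M`; the same for `S⁻¹ (φ X) = φ M'`.  `M` is not
constant; let `θ X = M` (IOT).  SIG (4): `S (φ g) = φ (θ (S g))`; so `φ X = S (φ M') = φ (θ (S M'))`,
`X ∈ range θ`, `θ` is bijective, and by CMP `ord p (θ g) = ord q g` whenever `M` is regular at `p` with
value `q` (the factor in CMP divides `ord p (X - C p) = 1`).  Let `U` with `φ U = u k` (`Gen`,
`u k ∈ KK D k`).  Let `E l` be the coefficient derivation of `dl l`: `D l (φ g) = φ (E l g)`.  `E l U = 0`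
for `l ≠ k`, so `S U = U` by SIG (6) (index type `{l // l ≠ k}`); `φ U = S (φ U) = φ (θ U)`, so
`θ U = U` and `θ (leg (lam k) U) = leg (lam k) U`.  `E l M = 0` for all `l`.  Let `τ` be the point of
the hypothesis.  If `M` were not regular at `τ` or `dl k (ev τ M) = 0`, PL (1) for `E k`, `M` (`V = 0`)
would give `dl k τ = ev τ 0 = 0`: contradiction.  So with `q = ev τ M`: `dl k q ≠ 0` and
`ord q (leg (lam k) U) = ord τ (θ (leg (lam k) U)) = ord τ (leg (lam k) U)` is odd, `q = τ`.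
`c = M - X` is killed by `E k` and `ev τ c = 0`: if `c` were not constant, PL (1) would again give
`dl k τ = 0`.  So `c` is constant, `c = 0`, `M = X`, `S (φ X) = φ X`. -/
def StGA1 : Prop :=
  ∀ (L : Type) [Field L] [CharZero L] [IsAlgClosed L] (dl : Fin 3 → Derivation ℤ L L)
    (lam : Fin 3 → L) (u : Fin 3 → RatFunc L) (D : Fin 3 → Derivation ℤ (RatFunc L) (RatFunc L))
    (φ : RatFunc L →ₐ[L] RatFunc L) (σ : L ≃+* L) (S : RatFunc L ≃+* RatFunc L) (k : Fin 3),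
  Cfg dl lam u D → (∀ l, D l (φ RatFunc.X) = 0) → Gen D k φ →
  (∀ U, φ U = u k → ∃ τ, Uni (dl k) (leg (lam k) U) τ) → Ext σ S →
  (∀ l g, D l (S g) = S (D l g)) → (∀ x, (∀ l, l ≠ k → dl l x = 0) → σ x = x) → S (u k) = u k →
  S (φ RatFunc.X) = φ RatFunc.X

/-- **GA2** (points of odd order are poles; hypotheses ORD, REG, DER, PL, SIG).  Proof.  Write
`g = wei a b W`; it is not constant (`ord τ g ≠ 0`), so `W` is not constant.  For `σ ∈ H` with its `S`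
(SIG (1)): `S g = g`.  `ord (σ τ) g = ord (σ τ) (S g) = ord τ g` is odd and `dl 0 (σ τ) = σ (dl 0 τ) ≠ 0`, so
`σ τ = τ`.  Let `ord p g` be odd and suppose `W` is regular at `p`, `w = ev p W`.  `g` is regular at `p`
with order `≥ 1`, so `w ^ 3 + a w + b = 0`.  Choose `σ ∈ H` with `σ w ≠ w`.  Claim `σ p = p`.  If
`dl 0 p ≠ 0` then `p = τ`.  Otherwise `dl 0 p = 0`; for `l ≠ 0`: applying `dl l` to the cubic equation,
`(3 w ^ 2 + a) * dl l w = 0`, and `3 w ^ 2 + a ≠ 0` (no double root, as `4 a ^ 3 + 27 b ^ 2 ≠ 0`), so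
`dl l w = 0`, and PL (1) for the coefficient derivation of `dl l`, which kills `W` by hypothesis, gives
`dl l p = ev p 0 = 0`.  So all `dl l` kill `p` and `σ p = p`.  Then
`w = ev p W = ev (σ p) (S W) = σ (ev p W) = σ w`: contradiction. -/
def StGA2 : Prop :=
  ∀ (L : Type) [Field L] [CharZero L] [IsAlgClosed L] (dl : Fin 3 → Derivation ℤ L L) (a b τ : L)
    (W : RatFunc L) (H : Set (L ≃+* L)), 4 * a ^ 3 + 27 * b ^ 2 ≠ 0 →
  (∀ l, l ≠ 0 → dl l a = 0 ∧ dl l b = 0) → (∀ l, l ≠ 0 → ∀ E, Over (dl l) 0 E → E W = 0) →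
  Uni (dl 0) (wei a b W) τ →
  (∀ σ ∈ H, (∀ k x, dl k (σ x) = σ (dl k x)) ∧ (∀ x, (∀ l, dl l x = 0) → σ x = x) ∧ σ a = a ∧
    σ b = b ∧ ∀ S, Ext σ S → S W = W) →
  (∀ e : L, e ^ 3 + a * e + b = 0 → ∃ σ ∈ H, σ e ≠ e) →
  (∀ σ ∈ H, σ τ = τ) ∧ ∀ p, Odd (ord p (wei a b W)) → ¬ Reg p W

/-- **LEG** (Legendre form).  Proof.  Let `e0, e1, e2` be the roots of `x ^ 3 + a x + b` (`IsAlgClosed`);
they are different (discriminant), `e0 + e1 + e2 = 0`, `a = e0 e1 + e0 e2 + e1 e2`,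
`b = - e0 e1 e2`.  The formulas are algebra (`RatFunc.C` is a ring homomorphism).  If `d a = d b = 0` then
`(3 e ^ 2 + a) * d e = 0` for every root and `3 e ^ 2 + a ≠ 0`.  Suppose `d a = 1`, `d b = 0` and
`d λ = 0`, `λ = (e2 - e0) / (e1 - e0)`.  With `t = e1 - e0`: `e0 = - (1 + λ) t / 3`, `e1 = e0 + t`,
`e2 = e0 + λ t`, so `eᵢ = cᵢ t` with `d cᵢ = 0`; `b = - c0 c1 c2 t ^ 3 ≠ 0`, so `c0 c1 c2 ≠ 0`, `t ≠ 0`
and `d b = 0` gives `d t = 0`, so `d a = 0`: contradiction. -/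
def StLEG : Prop :=
  ∀ (L : Type) [Field L] [CharZero L] [IsAlgClosed L] (a b : L), b ≠ 0 →
  4 * a ^ 3 + 27 * b ^ 2 ≠ 0 → ∃ e0 e1 e2 : L, e0 ≠ e1 ∧ e0 ≠ e2 ∧ e1 ≠ e2 ∧
  (∀ u : RatFunc L, wei a b u = (u - RatFunc.C e0) * (u - RatFunc.C e1) * (u - RatFunc.C e2)) ∧
  (∀ u : RatFunc L, wei a b u = RatFunc.C ((e1 - e0) ^ 3) *
    leg ((e2 - e0) / (e1 - e0)) ((u - RatFunc.C e0) / RatFunc.C (e1 - e0))) ∧
  (∀ d : Derivation ℤ L L, d a = 0 → d b = 0 → d e0 = 0 ∧ d e1 = 0 ∧ d e2 = 0 ∧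
    d ((e2 - e0) / (e1 - e0)) = 0) ∧
  (∀ d : Derivation ℤ L L, d a = 1 → d b = 0 → d ((e2 - e0) / (e1 - e0)) ≠ 0)

/-- **HLF** (the half of a point; hypotheses ORD, REG, IOT, SQR, LEG).  Proof.  Roots `e0, e1, e2`
(LEG).  `W` is not constant.  For `i ≠ j` the function `(W - eᵢ) (W - eⱼ)` has even order everywhere: if
`W` has a pole of order `n` it is `- 2 n`; if `W` is regular at `p`, at most one of the two factors
vanishes at `p`, and then its order is the order of `wei a b W`, which is not odd by hypothesis.  By SQR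
`(W - e0) (W - e1) = A ^ 2`, `(W - e0) (W - e2) = B ^ 2`.  Put `w = W - e0`.  `(A / w) ^ 2 =
(W - e1) / (W - e0) = 1 - (e1 - e0) / w` is regular at `τ` with value `1` (`w` has a pole), so `A / w` is
regular at `τ` with value `± 1`; change the sign of `A` (and of `B`) to get the value `1` for `A / w` and
`B / w`.  For signs `s, t ∈ {1, -1}` put `Y s t = W + s A + t B + s t A B / w =
e0 + w (1 + s A / w) (1 + t B / w)`.  ALGEBRA: the polynomial
`Y ^ 4 - 2 a Y ^ 2 - 8 b Y + a ^ 2 - 4 W (Y ^ 3 + a Y + b)` is the product of the four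
`Y - Y s t` (coefficients are symmetric functions; use `a = e0 e1 + e0 e2 + e1 e2`, `b = - e0 e1 e2`,
`e0 + e1 + e2 = 0`, `A ^ 2`, `B ^ 2`; checked numerically); so `Dbl a b W Y` iff `Y` is one of them.
`Y 1 1 - e0 = w * (regular with value 4)` has a pole at `τ`.  If `s = -1`:
`w (1 - A / w) = w (1 - (A / w) ^ 2) / (1 + A / w) = (e1 - e0) / (1 + A / w)` is regular at `τ`, so
`Y s t` is regular; the same for `t = -1`.  So `Y = Y 1 1` is the only solution with a pole at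
`τ`. -/
def StHLF : Prop :=
  ∀ (L : Type) [Field L] [CharZero L] [IsAlgClosed L] (a b τ : L) (W : RatFunc L), b ≠ 0 →
  4 * a ^ 3 + 27 * b ^ 2 ≠ 0 → ¬ Cst W → (∀ p, Odd (ord p (wei a b W)) → ¬ Reg p W) → ¬ Reg τ W →
  ∃ Y : RatFunc L, ¬ Reg τ Y ∧ Dbl a b W Y ∧ ∀ Y', ¬ Reg τ Y' → Dbl a b W Y' → Y' = Y

/-- **DSC** (descent; hypotheses IOT, DGM).  Proof.  With `f = wei a b Y` and
`n = Y ^ 4 - 2 a Y ^ 2 - 8 b Y + a ^ 2`: the identity
`(3 Y ^ 2 + 4 a) n - (3 Y ^ 3 - 5 a Y - 27 b) f = 4 a ^ 3 + 27 b ^ 2` shows `f ≠ 0` (otherwise `n = 0` by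
`Dbl`), so `W = n / (4 f)`.  If `Y` were constant, so would `W`.  Square: `wei a b W = G ^ 2 / (64 f ^ 3)`
with `G = Y ^ 6 + 5 a Y ^ 4 + 20 b Y ^ 3 - 5 a ^ 2 Y ^ 2 - 4 a b Y - 8 b ^ 2 - a ^ 3`, so
`wei a b W * wei a b Y = (G / (8 f)) ^ 2`.  Degree: let `θ X = Y` (IOT); `W = θ R` with `R = n(X) / (4
f(X))`; the same identity shows that `n(X)` and `f(X)` are coprime, so `dg R = 4`, and
`dg W = 4 * dg Y` by DGM (2). -/
def StDSC : Prop :=
  ∀ (L : Type) [Field L] [CharZero L] [IsAlgClosed L] (a b : L) (W Y : RatFunc L),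
  4 * a ^ 3 + 27 * b ^ 2 ≠ 0 → ¬ Cst W → Dbl a b W Y →
  ¬ Cst Y ∧ IsSquare (wei a b W * wei a b Y) ∧ dg W = 4 * dg Y

/-- **G3** (three generic cubics; hypotheses ORD, REG, DER, IOT, TRN, DGM, VK, CCC, SIG, GA1, GA2, LEG,
HLF, DSC).  Proof.  Strong induction on `dg (u 0)`.  `4 (a k) ^ 3 + 27 (b k) ^ 2 ≠ 0` (apply `dl k`:
otherwise `12 (a k) ^ 2 = 0`, so `a k = 0`, `b k = 0`).  LEG for each `k`: `e k 0, e k 1, e k 2`,
`lam k`; put `z k = (u k - C (e k 0)) / C (e k 1 - e k 0)`.  `wei (a k) (b k) (u k) = C (..) *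
leg (lam k) (z k)`, constants are squares, so the products of the `leg (lam i) (z i)` are squares;
`dl l` kills `e k i` and `lam k` for `l ≠ k`, and `dl k (lam k) ≠ 0`.  VK: `D` with `Cfg dl lam z D`; `D l`
kills `u k` for `l ≠ k`.  CCC: `φ`.
Let `σ ∈ H` and `S` with `Ext σ S`.  Let `V l = D l X`, `Dc l` the coefficient derivation of `dl l`,
`Dt` the derivation over `0` with `Dt X = 1`; for some `i ≠ l`:
`0 = D l (u i) = Dc l (u i) + V l * Dt (u i)` and `S` commutes with `Dc l`, `Dt` and fixes `u i`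
(SIG (5)), so `S (V l) = V l`, and `S` commutes with all `D l` (SIG (5)).  `σ` fixes everything killed by
`dl 0`, `dl 2`, in particular `e 1 i`, so `S (z 1) = z 1`.  GA1 (`k = 1`): `S (φ X) = φ X`; so
`S (φ g) = φ (S g)` (SIG (4)).
`z 0 = φ U₀`; `W = C (e 0 1 - e 0 0) * U₀ + C (e 0 0)`, `φ W = u 0`, so `S W = W`.  For `l ≠ 0` the
coefficient derivation `E` of `dl l` kills `W` (`φ (E W) = D l (u 0) = 0`, TRN).  CCC: `Uni (dl 0)
(leg (lam 0) U₀) τ`, the same as `Uni (dl 0) (wei (a 0) (b 0) W) τ` (constant factor).  GA2: `σ τ = τ` for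
`σ ∈ H`, and points of odd order are poles of `W`, in particular `τ`.  HLF: `Y`.  For `σ ∈ H`: `S Y`
satisfies `Dbl (a 0) (b 0) W (S Y)` (`S W = W`, `σ` fixes `a 0`, `b 0`) and has a pole at `σ τ = τ`, so
`S Y = Y`.  Let `u'` be `u` with `u 0` replaced by `φ Y`.  DSC: `Y` is not constant, so `φ Y` is not
(IOT); `wei (a 0) (b 0) (u 0) * wei (a 0) (b 0) (φ Y)` is a square, so all products for `u'` are
squares (`wei (a 0) (b 0) (u 0) ≠ 0`); `S (φ Y) = φ (S Y) = φ Y`; and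
`dg (φ Y) = dg Y * dg (φ X) < dg W * dg (φ X) = dg (u 0)`.  The induction hypothesis gives `False`. -/
def StG3 : Prop :=
  ∀ (L : Type) [Field L] [CharZero L] [IsAlgClosed L] (dl : Fin 3 → Derivation ℤ L L)
    (a b : Fin 3 → L) (H : Set (L ≃+* L)) (u : Fin 3 → RatFunc L),
  (∀ k l x, dl k (dl l x) = dl l (dl k x)) → (∀ k, dl k (a k) = 1) →
  (∀ k l, k ≠ l → dl k (a l) = 0) → (∀ k l, dl k (b l) = 0) → (∀ k, b k ≠ 0) →
  (∀ i, ¬ Cst (u i)) → (∀ i j, IsSquare (wei (a i) (b i) (u i) * wei (a j) (b j) (u j))) →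
  (∀ σ ∈ H, (∀ k x, dl k (σ x) = σ (dl k x)) ∧ (∀ x, dl 0 x = 0 → dl 2 x = 0 → σ x = x) ∧
    σ (a 0) = a 0 ∧ ∀ S, Ext σ S → ∀ i, S (u i) = u i) →
  (∀ e : L, e ^ 3 + a 0 * e + b 0 = 0 → ∃ σ ∈ H, σ e ≠ e) → False

end Pool.Agent.Helper1.RK
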