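import Pool.Agent.Helper1.RK.StC

/-!
# Project RK (MP_de00bc_nt): statements of part D (the final theorems), with complete proofs
-/

set_option autoImplicit false

namespace Pool.Agent.Helper1.RK

open Polynomial

/-- **DXT** (derivations and algebraic extensions).  Proof.  Existence: for a finite extension see
`Differential.differentialFiniteDimensional` (and its uniqueness statement); in general glue over the
finite subextensions, or: `L` is separable algebraic over `k` (characteristic `0`), so formally étale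
(`Algebra.FormallyEtale.of_isSeparable`), `L ⊗ Ω[k/ℤ] ≃ Ω[L/ℤ]`; or define `d' x` by
`d' x = - (minpoly^d) (x) / minpoly' (x)` and check.  Uniqueness: apply `d'` to the minimal polynomial
of `x`: `minpoly' (x) * d' x = 0` and `minpoly' (x) ≠ 0`. -/
def StDXT : Prop :=
  ∀ (k L : Type) [Field k] [CharZero k] [Field L] [Algebra k L], Algebra.IsAlgebraic k L →
  (∀ d : Derivation ℤ k k, ∃ d' : Derivation ℤ L L,
    ∀ x, d' (algebraMap k L x) = algebraMap k L (d x)) ∧
  (∀ d' : Derivation ℤ L L, (∀ x, d' (algebraMap k L x) = 0) → d' = 0)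

/-- **PDR** (partial derivatives on the field of rational functions in many variables).  Proof.
`MvPolynomial.pderiv i` extends to the fraction field by the quotient rule; the extensions commute
because the commutator is a derivation which vanishes on polynomials. -/
def StPDR : Prop :=
  ∀ (F : Type) [Field F] [CharZero F] (I : Type),
  ∃ d : I → Derivation ℤ (FractionRing (MvPolynomial I F)) (FractionRing (MvPolynomial I F)),
    (∀ i j x, d i (d j x) = d j (d i x)) ∧
    (∀ i, d i (algebraMap (MvPolynomial I F) _ (MvPolynomial.X i)) = 1) ∧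
    (∀ i j, i ≠ j → d i (algebraMap (MvPolynomial I F) _ (MvPolynomial.X j)) = 0) ∧
    (∀ i c, d i (algebraMap (MvPolynomial I F) _ (MvPolynomial.C c)) = 0)

/-- **DEX** (derivations dual to algebraically independent elements; hypotheses DXT, PDR).  Proof.
Extend `lam` to a transcendence basis: an injective family `B : I → L` (`I : Type`) containing all
`lam k`, `L` algebraic over the field `k₀` generated by it, `k₀ ≃ FractionRing (MvPolynomial I ℚ)`
(`AlgebraicIndependent`).  Take the derivations of PDR at the indices of the `lam k` and extend them to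
`L` (DXT).  Commutators vanish on `k₀`, so they are `0` (DXT (2)). -/
def StDEX : Prop :=
  ∀ (L : Type) [Field L] [CharZero L] (r : ℕ) (lam : Fin r → L), AlgebraicIndependent ℚ lam →
  ∃ dl : Fin r → Derivation ℤ L L, (∀ k l a, dl k (dl l a) = dl l (dl k a)) ∧
    (∀ k, dl k (lam k) = 1) ∧ (∀ k l, k ≠ l → dl k (lam l) = 0)

/-- **T4** (hypotheses G4, DEX).  Immediate. -/
def StT4 : Prop :=
  ∀ (L : Type) [Field L] [CharZero L] [IsAlgClosed L] (r : ℕ) (lam : Fin r → L)
    (u : Fin r → RatFunc L), 4 ≤ r → AlgebraicIndependent ℚ lam →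
  (∀ i, leg (lam i) (u i) ≠ 0) → (∀ i j, IsSquare (leg (lam i) (u i) * leg (lam j) (u j))) →
  ∀ i, Cst (u i)

/-- **CNW** (hypotheses CON, LEG).  Proof.  LEG writes `wei a b u` as a constant (a square) times
`leg l z`, `z = (u - C e0) / C (e1 - e0)`, `l = (e2 - e0) / (e1 - e0) ≠ 0, 1`; CON: `z` is constant, so
is `u`. -/
def StCNW : Prop :=
  ∀ (L : Type) [Field L] [CharZero L] [IsAlgClosed L] (a b : L) (u : RatFunc L), b ≠ 0 →
  4 * a ^ 3 + 27 * b ^ 2 ≠ 0 → IsSquare (wei a b u) → wei a b u ≠ 0 → Cst u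

/-- **LAM** (extension of the coefficient field).  Proof.  `RatFunc.mapRingHom` along `algebraMap k L`.
It maps `num`, `denom` of `g` to coprime polynomials, `denom` to a monic one, so they are `num`, `denom`
of the image; so `Λ g` is constant iff both have degree `0` iff `g` is constant.  Last: ring
homomorphisms which agree on `C a` and `X`. -/
def StLAM : Prop :=
  ∀ (k L : Type) [Field k] [Field L] [Algebra k L],
  ∃ Λ : RatFunc k →+* RatFunc L, Λ RatFunc.X = RatFunc.X ∧
    (∀ a, Λ (RatFunc.C a) = RatFunc.C (algebraMap k L a)) ∧ (∀ g, Cst (Λ g) ↔ Cst g) ∧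
    (∀ σ : L ≃+* L, (∀ x, σ (algebraMap k L x) = algebraMap k L x) → ∀ S, Ext σ S →
      ∀ g, S (Λ g) = Λ g)

/-- **IRR** (no root).  Proof.  A root `g` is integral over `E[X]` (monic equation), so `g` is a
polynomial (`E[X]` is integrally closed).  If `deg g = n ≥ 1` then `g ^ 3` has degree `3 n > n + 1`, the
degree of `X g`, and the sum is not `0`.  If `g` is a constant `c`: `c ^ 3 + b + c X = 0` gives `c = 0`,
`b = 0`. -/
def StIRR : Prop :=
  ∀ (E : Type) [Field E] (b : E), b ≠ 0 →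
  ∀ g : RatFunc E, g ^ 3 + RatFunc.X * g + RatFunc.C b ≠ 0

/-- **MOV** (an automorphism which moves a root; hypothesis IRR).  Proof.  `E₀ = {x | d0 x = 0}` is a
subfield.  `a` is transcendental over `E₀`: otherwise apply `d0` to the minimal polynomial `P` of `a`:
`P' (a) * d0 a = 0`, so `P' (a) = 0`, impossible in characteristic `0`.  So `X ↦ a` defines an injective
map `RatFunc E₀ → L` whose range is the subfield `E₀(a) = closure (E₀ ∪ {a})`.  `e` is not in it by
IRR.  Let `k` be the subfield generated by `K` and `{x | d0 x = 0 ∧ d2 x = 0}`; it is contained in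
`E₀(a)`, so `e ∉ k`.  `L` is algebraic over `k`, algebraically closed, characteristic `0`: `L / k` is
Galois, so some `σ : L ≃ₐ[k] L` moves `e` (`IsGalois.mem_bot_iff_fixed` or
`IntermediateField.fixedField`). -/
def StMOV : Prop :=
  ∀ (L : Type) [Field L] [CharZero L] [IsAlgClosed L] (d0 d2 : Derivation ℤ L L) (K : Subfield L)
    (a b e : L), (∀ x : L, IsAlgebraic K x) → a ∈ K →
  K ≤ Subfield.closure ({x | d0 x = 0} ∪ {a}) → d0 a = 1 → d0 b = 0 → b ≠ 0 →
  e ^ 3 + a * e + b = 0 →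
  ∃ σ : L ≃+* L, (∀ x ∈ K, σ x = x) ∧ (∀ x, d0 x = 0 → d2 x = 0 → σ x = x) ∧ σ e ≠ e

/-- the field `F(a_0, ..., a_(r-1))` -/
abbrev Kf (F : Type) [Field F] (r : ℕ) : Type := FractionRing (MvPolynomial (Fin r) F)

/-- the value of the generic cubic `x ^ 3 + a_i x + b_i` -/
noncomputable def gcu {F : Type} [Field F] {r : ℕ} (b : Fin r → F) (i : Fin r)
    (u : RatFunc (Kf F r)) : RatFunc (Kf F r) :=
  wei (algebraMap (MvPolynomial (Fin r) F) (Kf F r) (MvPolynomial.X i))
    (algebraMap (MvPolynomial (Fin r) F) (Kf F r) (MvPolynomial.C (b i))) u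

/-- **T3** (generic cubics have no parametric good tuple for `r ≥ 3`; hypotheses DER, DXT, PDR, CNW,
LAM, MOV, G3, SIG).  Proof.  `k₀ = Kf F r`, `L = AlgebraicClosure k₀`, `Λ` from LAM.  Suppose
`¬ Cst (u i₀)`.  No `u j` is constant: `4 a_j ^ 3 + 27 b_j ^ 2 ≠ 0` (a polynomial in the variable
`a_j`), and if `u j` is constant, `gcu b j (u j)` is a nonzero constant, a square in `L`, so
`Λ (gcu b i₀ (u i₀))` is a square and `u i₀` is constant (CNW, LAM).  Let `e : Fin 3 → Fin r` be the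
embedding of the first three indices.  `dl k` = extension to `L` (DXT) of the derivation of PDR with
index `e k`; they commute (the commutator vanishes on `k₀`, DXT (2)).  `a k`, `b' k` = images of
`a_(e k)`, `b (e k)` in `L`.  `H` = all `σ : L ≃+* L` fixing the image of `k₀` and every `x` with
`dl 0 x = dl 2 x = 0`.  For `σ ∈ H`: `σ⁻¹ ∘ dl k ∘ σ - dl k` is a derivation which vanishes on `k₀`, so
it is `0`; `S (Λ g) = Λ g` (LAM).  A root `e` of `x ^ 3 + a 0 x + b' 0` is moved by some `σ ∈ H`: MOV with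
`d0 = dl 0`, `d2 = dl 2`, `K` the image of `k₀`; `L` is algebraic over `K`, and
`K ≤ closure ({x | dl 0 x = 0} ∪ {a 0})` because `k₀` is generated as a field by `F` and the variables,
and `dl 0` kills `F` and all variables but `a_(e 0)`.  G3 for `Λ (u (e k))` gives a contradiction. -/
def StT3 : Prop :=
  ∀ (F : Type) [Field F] [CharZero F] (r : ℕ) (b : Fin r → F), 3 ≤ r → (∀ i, b i ≠ 0) →
  ∀ u : Fin r → RatFunc (Kf F r), (∀ i, gcu b i (u i) ≠ 0) →
  (∀ i j, IsSquare (gcu b i (u i) * gcu b j (u j))) → ∀ i, Cst (u i)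

/-- **TWO** (two cubics have a parametric good pair; hypotheses CNW, LAM).  Proof.
`u 0 = (C (b 0) X ^ 6 - C (b 1)) / (X ^ 2 (C (a 1) - C (a 0) X ^ 4))`, `u 1 = X ^ 2 * u 0`.  Then
`u 0 * (C (a 1) X ^ 2 - C (a 0) X ^ 6) = C (b 0) X ^ 6 - C (b 1)`, so
`wei (a 1) (b 1) (u 1) = X ^ 6 * wei (a 0) (b 0) (u 0)` and the products are squares.  `u 0` has a pole at
`0`, `u 1` has a numerator of larger degree than its denominator (also after cancellation), so both are
not constant.  `wei ≠ 0` because a root would be a constant; `wei` not a square by CNW over the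
algebraic closure (LAM). -/
def StTWO : Prop :=
  ∀ (k : Type) [Field k] [CharZero k] (a b : Fin 2 → k), (∀ i, a i ≠ 0) → (∀ i, b i ≠ 0) →
  (∀ i, 4 * a i ^ 3 + 27 * b i ^ 2 ≠ 0) →
  ∃ u : Fin 2 → RatFunc k, (∀ i, ¬ Cst (u i)) ∧ (∀ i, wei (a i) (b i) (u i) ≠ 0) ∧
    (∀ i j, IsSquare (wei (a i) (b i) (u i) * wei (a j) (b j) (u j))) ∧
    (∀ i, ¬ IsSquare (wei (a i) (b i) (u i)))

/-- **STA** (three Legendre cubics have a parametric good triple; hypotheses CON, LAM).  Proof.  All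
`u i = s = C (l 0) + x`, with `x ∈ k(X)` not constant such that `x (x - p)` and `x (x - q)` are squares,
`p = l 1 - l 0`, `q = l 2 - l 0`.  If `p = 0`, `q ≠ 0`: `x = C q / (1 - X ^ 2)`; if `p = q = 0`: `x = X`;
if `p ≠ 0`: `m = (2 p X - X ^ 2 - p q) / (p q - X ^ 2)` and `x = C p / (1 - m ^ 2)`:
`x (x - p) = (p m / (1 - m ^ 2)) ^ 2`, `x (x - q) = p (q m ^ 2 + p - q) / (1 - m ^ 2) ^ 2` and
`p (q m ^ 2 + p - q) = (p + X (m - 1)) ^ 2` (`m - 1 = 2 p (X - C q) / (p q - X ^ 2)`, `m + 1 = 2 X (p - X) / (p q - X ^ 2)`, so `m` is not `± 1`;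
checked: `field_simp; ring`).  Then
`leg (l i) s * leg (l j) s = (s (s - 1)) ^ 2 * (s - l i) (s - l j)` and
`(s - l 1) (s - l 2) = (x - p) (x - q)`, times `x ^ 2`, is a square.  Not a square: CON over the algebraic
closure (LAM). -/
def StSTA : Prop :=
  ∀ (k : Type) [Field k] [CharZero k] (l : Fin 3 → k), (∀ i, l i ≠ 0) → (∀ i, l i ≠ 1) →
  ∃ s : RatFunc k, ¬ Cst s ∧ (∀ i, leg (l i) s ≠ 0) ∧
    (∀ i j, IsSquare (leg (l i) s * leg (l j) s)) ∧ (∀ i, ¬ IsSquare (leg (l i) s))

/-- **ULA** (ultraproduct of parametric solutions of bounded degree).  Proof.  Let `𝒰` be the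
hyperfilter on `ℕ`, `G = Germ 𝒰 ℂ` (a field, `Mathlib.Order.Filter.FilterProduct`), `L` its algebraic
closure, `Φ f` the image of the germ of `f`; `Φ f ≠ 0` if `f m ≠ 0` for all large `m`, because
otherwise `f m = 0` for `𝒰`-almost all `m`.  For a sequence `p : ℕ → ℂ[X]` of polynomials of degree
`≤ B` let `p* ∈ L[X]` be the polynomial with coefficients `Φ (m ↦ (p m).coeff n)`; `(p + q)* = p* + q*`,
`(p q)* = p* q*`, and `p* = 0` iff `p m = 0` for almost all `m`.  Write `u m i = a / b` in lowest terms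
(degrees `≤ N`).  `leg l (a / b) = a (a - b) (a - l b) / b ^ 3`; so `leg (lam m i) (u m i) *
leg (lam m j) (u m j)` times the square of `(b_i b_j) ^ 2` is the polynomial
`R = a_i (a_i - b_i) (a_i - l_i b_i) b_i a_j (a_j - b_j) (a_j - l_j b_j) b_j`, a square in `RatFunc ℂ`, so
the square of a polynomial `w` of degree `≤ 4 N` (integrally closed).  Put `v i = a_i* / b_i*`; the
identity `R* = (w*) ^ 2` shows that the products are squares; `a* , b*, (a - b)*, (a - l b)* ≠ 0`.  For
some `i` the set of `m` with `¬ Cst (u m i)` is in `𝒰`; there `a' b - a b' ≠ 0`, so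
`(a*)' b* - a* (b*)' ≠ 0` and `v i` is not constant. -/
def StULA : Prop :=
  ∀ (r N : ℕ) (lam : ℕ → Fin r → ℂ) (u : ℕ → Fin r → RatFunc ℂ), (∀ m i, dg (u m i) ≤ N) →
  (∀ m i, leg (lam m i) (u m i) ≠ 0) →
  (∀ m i j, IsSquare (leg (lam m i) (u m i) * leg (lam m j) (u m j))) →
  (∀ m, ∃ i, ¬ Cst (u m i)) →
  ∃ (L : Type) (_ : Field L) (_ : CharZero L) (_ : IsAlgClosed L) (Φ : (ℕ → ℂ) →+* L)
    (v : Fin r → RatFunc L), (∀ f : ℕ → ℂ, (∃ n, ∀ m, n ≤ m → f m ≠ 0) → Φ f ≠ 0) ∧
    (∀ i, leg (Φ fun m => lam m i) (v i) ≠ 0) ∧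
    (∀ i j, IsSquare (leg (Φ fun m => lam m i) (v i) * leg (Φ fun m => lam m j) (v j))) ∧
    ∃ i, ¬ Cst (v i)

/-- **ULT** (no parametric solutions of bounded degree for almost all parameters; hypotheses ULA, T4).
Proof.  Suppose not: for every nonzero `P` there are `lam`, `u` with `P(lam) ≠ 0`, degrees `≤ N`, all
conditions, not all `u i` constant.  Enumerate the nonzero polynomials `P 0, P 1, ...`
(`MvPolynomial (Fin r) ℚ` is countable) and choose `lam m`, `u m` for the product of the `P n`, `n ≤ m`.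
ULA gives `L`, `Φ`, `v`.  `lam* i = Φ (m ↦ lam m i)` is algebraically independent over `ℚ`:
`aeval lam* P = Φ (m ↦ aeval (lam m) P)` (`Φ` is a ring homomorphism) and `aeval (lam m) (P n) ≠ 0` for
`m ≥ n`.  T4: all `v i` are constant.  Contradiction. -/
def StULT : Prop :=
  ∀ (r N : ℕ), 4 ≤ r → ∃ P : MvPolynomial (Fin r) ℚ, P ≠ 0 ∧
  ∀ lam : Fin r → ℂ, MvPolynomial.aeval lam P ≠ 0 → ∀ u : Fin r → RatFunc ℂ, (∀ i, dg (u i) ≤ N) →
  (∀ i, leg (lam i) (u i) ≠ 0) → (∀ i j, IsSquare (leg (lam i) (u i) * leg (lam j) (u j))) →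
  ∀ i, Cst (u i)

/-- **ADM** (admissible Legendre cubics).  Proof.  `l = (1 + 3 k ^ 2) / 4` is an odd integer
(`k ^ 2 = 1 mod 8`), and `(1/4, 3 k / 8)` is a point.  If `(x, y)` is a point with `y ≠ 0` then so is
`x' = (x ^ 2 - l) ^ 2 / (4 y ^ 2)`, `y' = (x ^ 2 - l) (x ^ 2 - 2 x + l) (x ^ 2 - 2 l x + l) / (8 y ^ 3)`
(`x' - 1 = (x ^ 2 - 2 x + l) ^ 2 / (4 y ^ 2)`, `x' - l = (x ^ 2 - 2 l x + l) ^ 2 / (4 y ^ 2)`).  If the
`2`-adic valuation of `x` is `- n < 0` then that of `x'` is `- 4 n - 2 + 3 n = - n - 2`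
(`padicValRat 2`; `y ^ 2 = x (x - 1) (x - l)` has valuation `- 3 n`, and `x' ≠ 0`, `y ≠ 0` because `x`
is not an integer).  So the iterates of `1/4` are pairwise different. -/
def StADM : Prop :=
  ∀ k : ℕ, Odd k → 3 ≤ k →
  {p : ℚ × ℚ | p.2 ^ 2 = p.1 * (p.1 - 1) * (p.1 - (1 + 3 * (k : ℚ) ^ 2) / 4)}.Infinite

/-- **BDQ** (over `ℚ`; hypotheses ULT, ADM).  Proof.  `P` from ULT does not vanish at some point whose
coordinates are all of the form `(1 + 3 k ^ 2) / 4`, `k ≥ 3` odd (infinitely many values;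
`MvPolynomial.funext_set` or induction); for it `lam i ≠ 0, 1`, and ADM. -/
def StBDQ : Prop :=
  ∀ (r N : ℕ), 4 ≤ r → ∃ lam : Fin r → ℚ, (∀ i, lam i ≠ 0 ∧ lam i ≠ 1 ∧
    {p : ℚ × ℚ | p.2 ^ 2 = p.1 * (p.1 - 1) * (p.1 - lam i)}.Infinite) ∧
  ∀ u : Fin r → RatFunc ℂ, (∀ i, dg (u i) ≤ N) → (∀ i, leg ((lam i : ℚ) : ℂ) (u i) ≠ 0) →
  (∀ i j, IsSquare (leg ((lam i : ℚ) : ℂ) (u i) * leg ((lam j : ℚ) : ℂ) (u j))) → ∀ i, Cst (u i)

end Pool.Agent.Helper1.RK
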